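import Pool.Agent.Helper95.SH.HeadT
import Pool.Agent.Helper64.SH.Mu

/-!
# Project RC, SHARP, cell engine: complex rows, and the rows `Xr`, `Yr`, `Zr` of the collar from their pieces

`LC n q X R T e`: the complex affine functional `X` of the coordinates (`v 0 = 1`) has coefficients which are
approximated by the Gaussian integers `R i + i T i` at the scale `q`, error `e`.
-/

set_option autoImplicit false

open Finset

namespace Pool.Agent.Helper19.SH

open Helper95.SH Helper95.RC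
open Helper49.RC (om)
open Pool.Agent.Helper64.SH

/-- a complex affine functional of the coordinates with an integer row at the scale `q` -/
def LC (n : ℕ) (q : ℝ) (X : (ℕ → ℝ) → ℂ) (R T : ℕ → ℤ) (e : ℝ) : Prop :=
  ∃ ρ : ℕ → ℂ, (∀ v, v 0 = 1 → X v = ∑ i ∈ Finset.range n, ρ i * (v i : ℂ)) ∧ ∀ i < n, CA q (ρ i) (R i) (T i) e

section

variable {n : ℕ} {q e e' : ℝ} {X Y : (ℕ → ℝ) → ℂ} {R T R' T' : ℕ → ℤ}

theorem LC.re (h : LC n q X R T e) : LR n q (fun v => (X v).re) R e := by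
  obtain ⟨ρ, h1, h2⟩ := h
  refine ⟨fun i => (ρ i).re, fun v hv => ?_, fun i hi => ?_⟩
  · beta_reduce
    rw [h1 v hv, Complex.re_sum]
    exact Finset.sum_congr rfl fun i _ => by rw [Complex.re_mul_ofReal]
  · exact (ci_err (h2 i hi)).1

theorem LC.im (h : LC n q X R T e) : LR n q (fun v => (X v).im) T e := by
  obtain ⟨ρ, h1, h2⟩ := h
  refine ⟨fun i => (ρ i).im, fun v hv => ?_, fun i hi => ?_⟩
  · beta_reduce
    rw [h1 v hv, Complex.im_sum]
    exact Finset.sum_congr rfl fun i _ => by rw [Complex.im_mul_ofReal]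
  · exact (ci_err (h2 i hi)).2

theorem LC.of (h : LR n q (fun v => (X v).re) R e) (k : LR n q (fun v => (X v).im) T e') :
    LC n q X R T (e + e') := by
  obtain ⟨ρ, h1, h2⟩ := h
  obtain ⟨τ, k1, k2⟩ := k
  refine ⟨fun i => (ρ i : ℂ) + Complex.I * (τ i : ℂ), fun v hv => ?_, fun i hi => ?_⟩
  · have e1 : X v = ((X v).re : ℂ) + Complex.I * ((X v).im : ℂ) := by
      rw [mul_comm]; exact (Complex.re_add_im _).symm
    have a1 := h1 v hv
    have a2 := k1 v hv
    beta_reduce at a1 a2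
    rw [e1, a1, a2]
    push_cast
    rw [Finset.mul_sum, ← Finset.sum_add_distrib]
    exact Finset.sum_congr rfl fun i _ => by ring
  · unfold CA
    have e2 : (q : ℂ) * ((ρ i : ℂ) + Complex.I * (τ i : ℂ)) - ci (R i) (T i) =
        ((q * ρ i - R i : ℝ) : ℂ) + Complex.I * ((q * τ i - T i : ℝ) : ℂ) := by
      unfold ci; push_cast; ring
    rw [e2]
    refine (norm_add_le _ _).trans (add_le_add ?_ ?_)
    · rw [Complex.norm_real, Real.norm_eq_abs]; exact h2 i hi
    · rw [norm_mul, Complex.norm_I, one_mul, Complex.norm_real, Real.norm_eq_abs]; exact k2 i hi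

theorem LC.add (h : LC n q X R T e) (k : LC n q Y R' T' e') :
    LC n q (fun v => X v + Y v) (fun i => R i + R' i) (fun i => T i + T' i) (e + e') := by
  obtain ⟨ρ, h1, h2⟩ := h
  obtain ⟨τ, k1, k2⟩ := k
  refine ⟨fun i => ρ i + τ i, fun v hv => ?_, fun i hi => (h2 i hi).add (k2 i hi)⟩
  beta_reduce
  rw [h1 v hv, k1 v hv, ← Finset.sum_add_distrib]
  exact Finset.sum_congr rfl fun i _ => by ring

theorem LC.sub (h : LC n q X R T e) (k : LC n q Y R' T' e') :
    LC n q (fun v => X v - Y v) (fun i => R i - R' i) (fun i => T i - T' i) (e + e') := by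
  obtain ⟨ρ, h1, h2⟩ := h
  obtain ⟨τ, k1, k2⟩ := k
  refine ⟨fun i => ρ i - τ i, fun v hv => ?_, fun i hi => (h2 i hi).sub (k2 i hi)⟩
  beta_reduce
  rw [h1 v hv, k1 v hv, ← Finset.sum_sub_distrib]
  exact Finset.sum_congr rfl fun i _ => by ring

theorem LC.mono (h : LC n q X R T e) (he : e ≤ e') : LC n q X R T e' := by
  obtain ⟨ρ, h1, h2⟩ := h
  exact ⟨ρ, h1, fun i hi => (h2 i hi).mono he⟩

theorem LC.congr (h : LC n q X R T e) (hX : ∀ v, v 0 = 1 → Y v = X v) (hR : ∀ i < n, R' i = R i)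
    (hT : ∀ i < n, T' i = T i) : LC n q Y R' T' e := by
  obtain ⟨ρ, h1, h2⟩ := h
  exact ⟨ρ, fun v hv => by rw [hX v hv, h1 v hv], fun i hi => by rw [hR i hi, hT i hi]; exact h2 i hi⟩

/-- a complex factor which acts on the rows in a known way -/
theorem LC.act (h : LC n q X R T e) (κ : ℂ) {q' : ℝ} (hc : ∀ z : ℂ, ∀ i < n, CA q z (R i) (T i) e →
    CA q' (κ * z) (R' i) (T' i) e') : LC n q' (fun v => κ * X v) R' T' e' := by
  obtain ⟨ρ, h1, h2⟩ := h
  refine ⟨fun i => κ * ρ i, fun v hv => ?_, fun i hi => hc _ i hi (h2 i hi)⟩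
  beta_reduce
  rw [h1 v hv, Finset.mul_sum]
  exact Finset.sum_congr rfl fun i _ => by ring

theorem LC.smul (h : LC n q X R T e) (a : ℤ) :
    LC n q (fun v => (a : ℂ) * X v) (fun i => a * R i) (fun i => a * T i) (|(a : ℝ)| * e) :=
  h.act a fun _ _ _ hz => hz.smul a

theorem LC.up (h : LC n q X R T e) (a : ℤ) :
    LC n ((a : ℝ) * q) X (fun i => a * R i) (fun i => a * T i) (|(a : ℝ)| * e) := by
  obtain ⟨ρ, h1, h2⟩ := h
  exact ⟨ρ, h1, fun i hi => (h2 i hi).up a⟩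

theorem CA_mulG {z : ℂ} {a b : ℤ} (h : CA q z a b e) (c d : ℤ) :
    CA q (ci c d * z) (c * a - d * b) (c * b + d * a) ((|(c : ℝ)| + |(d : ℝ)|) * e) := by
  unfold CA at *
  have e1 : (q : ℂ) * (ci c d * z) - ci (c * a - d * b) (c * b + d * a) = ci c d * ((q : ℂ) * z - ci a b) := by
    unfold ci
    push_cast
    have := Complex.I_mul_I
    linear_combination ((d : ℂ) * (b : ℂ)) * this
  rw [e1, norm_mul]
  refine mul_le_mul ?_ h (norm_nonneg _) (by positivity)
  unfold ci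
  refine (norm_add_le _ _).trans ?_
  rw [norm_mul, Complex.norm_I, one_mul, Complex.norm_intCast, Complex.norm_intCast]

/-- a Gaussian integer as a factor -/
theorem LC.mulG (h : LC n q X R T e) (c d : ℤ) :
    LC n q (fun v => ci c d * X v) (fun i => c * R i - d * T i) (fun i => c * T i + d * R i)
      ((|(c : ℝ)| + |(d : ℝ)|) * e) :=
  h.act _ fun _ _ _ hz => CA_mulG hz c d

/-- the conjugate functional -/
theorem LC.conj (h : LC n q X R T e) : LC n q (fun v => (starRingEnd ℂ) (X v)) R (fun i => -T i) e := by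
  obtain ⟨ρ, h1, h2⟩ := h
  refine ⟨fun i => (starRingEnd ℂ) (ρ i), fun v hv => ?_, fun i hi => ?_⟩
  · beta_reduce
    rw [h1 v hv, map_sum]
    exact Finset.sum_congr rfl fun i _ => by rw [map_mul, Complex.conj_ofReal]
  · have h3 := h2 i hi
    unfold CA at *
    have e1 : (q : ℂ) * (starRingEnd ℂ) (ρ i) - ci (R i) (-T i) = (starRingEnd ℂ) ((q : ℂ) * ρ i - ci (R i) (T i)) := by
      unfold ci
      rw [map_sub, map_mul, map_add, map_mul, Complex.conj_ofReal, Complex.conj_I]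
      simp only [map_intCast]
      push_cast
      ring
    rw [e1, RCLike.norm_conj]
    exact h3

/-- half of a functional: the scale doubles -/
theorem LC.half (h : LC n q X R T e) : LC n (2 * q) (fun v => X v / 2) R T e := by
  obtain ⟨ρ, h1, h2⟩ := h
  refine ⟨fun i => ρ i / 2, fun v hv => ?_, fun i hi => ?_⟩
  · beta_reduce
    rw [h1 v hv, Finset.sum_div]
    exact Finset.sum_congr rfl fun i _ => by ring
  · have h3 := h2 i hi
    unfold CA at *
    rw [show ((2 * q : ℝ) : ℂ) * (ρ i / 2) = (q : ℂ) * ρ i by push_cast; ring]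
    exact h3

end

/-! ### arrays of rows -/

section

variable {n : ℕ} {q e : ℝ}

/-- the band operator on rows, `den η = e1 + i e2` -/
def wmR (den e1 e2 : ℤ) (R T : ℤ → ℕ → ℤ) (k : ℤ) (i : ℕ) : ℤ :=
  den * R k i + (e1 * R (k - 2) i - e2 * T (k - 2) i) + (e1 * R (k + 2) i + e2 * T (k + 2) i)
def wmT (den e1 e2 : ℤ) (R T : ℤ → ℕ → ℤ) (k : ℤ) (i : ℕ) : ℤ :=
  den * T k i + (e1 * T (k - 2) i + e2 * R (k - 2) i) + (e1 * T (k + 2) i - e2 * R (k + 2) i)

theorem LC_wm {η : ℂ} {den : ℕ} {e1 e2 : ℤ} (hη : (den : ℂ) * η = ci e1 e2) {A : (ℕ → ℝ) → ℤ → ℂ}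
    {R T : ℤ → ℕ → ℤ} {k : ℤ} (h0 : LC n q (fun v => A v k) (R k) (T k) e)
    (h1 : LC n q (fun v => A v (k - 2)) (R (k - 2)) (T (k - 2)) e)
    (h2 : LC n q (fun v => A v (k + 2)) (R (k + 2)) (T (k + 2)) e) :
    LC n (den * q) (fun v => wm η (A v) k) (wmR den e1 e2 R T k) (wmT den e1 e2 R T k)
      ((den + 2 * (|(e1 : ℝ)| + |(e2 : ℝ)|)) * e) := by
  obtain ⟨ρ0, a0, b0⟩ := h0
  obtain ⟨ρ1, a1, b1⟩ := h1
  obtain ⟨ρ2, a2, b2⟩ := h2
  refine ⟨fun i => ρ0 i + η * ρ1 i + (starRingEnd ℂ) η * ρ2 i, fun v hv => ?_, fun i hi => ?_⟩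
  · have c0 := a0 v hv
    have c1 := a1 v hv
    have c2 := a2 v hv
    beta_reduce at c0 c1 c2 ⊢
    unfold wm
    rw [c0, c1, c2, Finset.mul_sum, Finset.mul_sum, ← Finset.sum_add_distrib, ← Finset.sum_add_distrib]
    exact Finset.sum_congr rfl fun i _ => by ring
  · have g0 := (b0 i hi).smul den
    have g1 := CA_mulG (b1 i hi) e1 e2
    have g2 := CA_mulG (b2 i hi) e1 (-e2)
    have g := (g0.add g1).add g2
    have hη' : (den : ℂ) * (starRingEnd ℂ) η = ci e1 (-e2) := by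
      have := congrArg (starRingEnd ℂ) hη
      rw [map_mul, map_natCast] at this
      rw [this]
      unfold ci
      rw [map_add, map_mul, Complex.conj_I]
      simp only [map_intCast]
      push_cast
      ring
    unfold CA at g ⊢
    have e3 : ((den * q : ℝ) : ℂ) * (ρ0 i + η * ρ1 i + (starRingEnd ℂ) η * ρ2 i) =
        (q : ℂ) * (((den : ℤ) : ℂ) * ρ0 i + ci e1 e2 * ρ1 i + ci e1 (-e2) * ρ2 i) := by
      rw [← hη, ← hη']
      push_cast
      ring
    rw [e3]
    have e4 : ci (wmR den e1 e2 R T k i) (wmT den e1 e2 R T k i) =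
        ci (den * R k i + (e1 * R (k - 2) i - e2 * T (k - 2) i) + (e1 * R (k + 2) i - -e2 * T (k + 2) i))
          (den * T k i + (e1 * T (k - 2) i + e2 * R (k - 2) i) + (e1 * T (k + 2) i + -e2 * R (k + 2) i)) := by
      unfold wmR wmT
      congr 1 <;> ring
    rw [e4]
    refine g.trans (le_of_eq ?_)
    push_cast
    rw [abs_neg, Nat.abs_cast]
    ring

/-- the hermitian part of an array of rows -/
theorem LC_sy {A : (ℕ → ℝ) → ℤ → ℂ} {R T : ℤ → ℕ → ℤ} {k : ℤ} (h0 : LC n q (fun v => A v k) (R k) (T k) e)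
    (h1 : LC n q (fun v => A v (-k)) (R (-k)) (T (-k)) e) :
    LC n (2 * q) (fun v => sy (A v) k) (fun i => R k i + R (-k) i) (fun i => T k i - T (-k) i) (2 * e) := by
  have h := (h0.add h1.conj).half
  refine (h.mono (le_of_eq (by ring))).congr (fun v _ => rfl) (fun _ _ => rfl) (fun i _ => ?_)
  ring

/-- the bound of the numbers which enter the factors `om`, `om²`, `κ` -/
def BdS (n : ℕ) (R T R' T' : ℕ → ℤ) (M : ℝ) : Prop := ∀ i < n, ‖ci (R i + R' i) (T i + T' i)‖ ≤ M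

variable {X Y : (ℕ → ℝ) → ℂ} {R T R' T' : ℕ → ℤ}

theorem LC.two (h : LC n q X R T e) (k : LC n q Y R' T' e) {q'' e'' : ℝ} {κ μ : ℂ} {A B : ℕ → ℤ}
    (hc : ∀ x y : ℂ, ∀ i < n, CA q x (R i) (T i) e → CA q y (R' i) (T' i) e → CA q'' (κ * x + μ * y) (A i) (B i) e'') :
    LC n q'' (fun v => κ * X v + μ * Y v) A B e'' := by
  obtain ⟨ρ, h1, h2⟩ := h
  obtain ⟨τ, k1, k2⟩ := k
  refine ⟨fun i => κ * ρ i + μ * τ i, fun v hv => ?_, fun i hi => hc _ _ i hi (h2 i hi) (k2 i hi)⟩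
  beta_reduce
  rw [h1 v hv, k1 v hv, Finset.mul_sum, Finset.mul_sum, ← Finset.sum_add_distrib]
  exact Finset.sum_congr rfl fun i _ => by ring

/-- `om x + om² y` -/
theorem LC.combP (h : LC n q X R T e) (k : LC n q Y R' T' e) (q' : ℕ) (t : ℤ) {δ M : ℝ}
    (hT : |(q' : ℝ) * Real.sqrt 3 - t| ≤ δ) (hM : BdS n R T R' T' M) :
    LC n ((4 * q' : ℤ) * q) (fun v => om * X v + om ^ 2 * Y v)
      (fun i => 2 * (q' * (R i - R' i) - t * (T i + T' i))) (fun i => 2 * (q' * (T i - T' i) + t * (R i + R' i)))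
      (8 * q' * e + 2 * δ * M) :=
  h.two k fun _ _ i hi hx hy => hx.combP hy q' t hT (hM i hi)

/-- `conj κ x + κ y` -/
theorem LC.combR (h : LC n q X R T e) (k : LC n q Y R' T' e) (q' : ℕ) (t : ℤ) {δ M : ℝ}
    (hT : |(q' : ℝ) * Real.sqrt 3 - t| ≤ δ) (hM : BdS n R T R' T' M) :
    LC n ((4 * q' : ℤ) * q) (fun v => (starRingEnd ℂ) (kq 2) * X v + kq 2 * Y v)
      (fun i => 4 * t * (R i + R' i) + q' * (T i - T' i)) (fun i => 4 * t * (T i + T' i) - q' * (R i - R' i))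
      (14 * q' * e + 4 * δ * M) :=
  h.two k fun _ _ i hi hx hy => hx.combR hy q' t hT (hM i hi)

end

end Pool.Agent.Helper19.SH
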