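import Pool.Agent.Helper19.SH.ColA

/-!
# Project RC, SHARP, cell engine: the rows of the collar, exact splitting and the dense part

`Xr_eq`, `Yr_eq`, `Zr_eq`: constant + dense (band operator of `W1`, `W2`) + local part.
-/

set_option autoImplicit false

open Finset

namespace Pool.Agent.Helper19.SH

open Helper95.SH Helper95.RC
open Helper49.RC (om)
open Helper56.RC (fc)
open Pool.Agent.Helper64.SH

/-! ### rounding to another scale -/

/-- `⌊A x / C⌋` -/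
def rd (A C x : ℤ) : ℤ := Int.ediv (Int.mul A x) C

theorem rd_le (A : ℤ) {C : ℤ} (hC : 0 < C) (x : ℤ) : |(A : ℝ) / C * x - rd A C x| ≤ 1 := by
  unfold rd
  show |(A : ℝ) / C * x - ((A * x / C : ℤ) : ℝ)| ≤ 1
  have h1 := Int.emod_add_mul_ediv (A * x) C
  have h2 : 0 ≤ (A * x) % C := Int.emod_nonneg _ hC.ne'
  have h3 : (A * x) % C < C := Int.emod_lt_of_pos _ hC
  set a := (A * x) % C with ha
  set c := A * x / C with hc
  have h4 : (a : ℝ) + C * c = A * x := by exact_mod_cast h1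
  have hC' : (0 : ℝ) < C := by exact_mod_cast hC
  have h5 : (A : ℝ) / C * x - c = a / C := by
    rw [div_mul_eq_mul_div, ← h4]
    field_simp
    ring
  rw [h5, abs_of_nonneg (by positivity), div_le_one hC']
  exact_mod_cast h3.le

theorem CA_rd {q e : ℝ} {z : ℂ} {a b : ℤ} (h : CA q z a b e) (A : ℕ) {C : ℤ} (hC : 0 < C) :
    CA ((A : ℝ) / C * q) z (rd A C a) (rd A C b) ((A : ℝ) / C * e + 2) := by
  unfold CA at *
  have hC' : (0 : ℝ) < C := by exact_mod_cast hC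
  have e1 : (((A : ℝ) / C * q : ℝ) : ℂ) * z - ci (rd A C a) (rd A C b) =
      (((A : ℝ) / C : ℝ) : ℂ) * ((q : ℂ) * z - ci a b) + (((((A : ℝ) / C * a - rd A C a) : ℝ) : ℂ)
        + Complex.I * (((A : ℝ) / C * b - rd A C b : ℝ) : ℂ)) := by
    unfold ci; push_cast; ring
  rw [e1]
  refine (norm_add_le _ _).trans (add_le_add ?_ ?_)
  · rw [norm_mul, Complex.norm_real, Real.norm_eq_abs, abs_of_nonneg (by positivity)]
    exact mul_le_mul_of_nonneg_left h (by positivity)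
  · refine (norm_add_le _ _).trans ?_
    rw [norm_mul, Complex.norm_I, one_mul, Complex.norm_real, Complex.norm_real, Real.norm_eq_abs, Real.norm_eq_abs]
    have h1 := rd_le (A : ℤ) hC a
    have h2 := rd_le (A : ℤ) hC b
    push_cast at h1 h2
    linarith

theorem LC.rd {n : ℕ} {q e : ℝ} {X : (ℕ → ℝ) → ℂ} {R T : ℕ → ℤ} (h : LC n q X R T e) (A : ℕ) {C : ℤ} (hC : 0 < C) :
    LC n ((A : ℝ) / C * q) X (fun i => rd A C (R i)) (fun i => rd A C (T i)) ((A : ℝ) / C * e + 2) := by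
  obtain ⟨ρ, h1, h2⟩ := h
  exact ⟨ρ, h1, fun i hi => CA_rd (h2 i hi) A hC⟩

/-- a constant -/
theorem LC.cst {n : ℕ} (hn : 0 < n) {q e : ℝ} {z : ℂ} {a b : ℤ} (h : CA q z a b e) :
    LC n q (fun _ => z) (fun i => if i = 0 then a else 0) (fun i => if i = 0 then b else 0) e := by
  refine ⟨fun i => if i = 0 then z else 0, fun v hv => ?_, fun i _ => ?_⟩
  · rw [sum_eq_single 0]
    · simp [hv]
    · intro j _ hj; simp [hj]
    · intro h; exact absurd (mem_range.2 hn) h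
  · by_cases hi : i = 0
    · simp only [if_pos hi]; exact h
    · simp only [if_neg hi]
      unfold CA
      have : ci 0 0 = 0 := by unfold ci; simp
      rw [this]
      simpa using h.nonneg

/-- a real functional with an exact row times a number -/
theorem LC.mulr {n : ℕ} {q e Hm : ℝ} {D : ℕ} {H : (ℕ → ℝ) → ℝ} {h : ℕ → ℤ} (hh : LR n D H h 0)
    (hm : ∀ i < n, |(h i : ℝ)| ≤ Hm) {z : ℂ} {a b : ℤ} (hz : CA q z a b e) :
    LC n (D * q) (fun v => (H v : ℂ) * z) (fun i => h i * a) (fun i => h i * b) (Hm * e) := by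
  obtain ⟨ρ, h1, h2⟩ := hh
  refine ⟨fun i => (ρ i : ℂ) * z, fun v hv => ?_, fun i hi => ?_⟩
  · beta_reduce
    rw [h1 v hv]
    push_cast
    rw [sum_mul]
    exact sum_congr rfl fun i _ => by ring
  · have e0 : (D : ℝ) * ρ i = h i := by
      have := abs_nonpos_iff.1 (h2 i hi)
      linarith
    have e1 : (D : ℂ) * (ρ i : ℂ) = (h i : ℂ) := by
      have : (((D : ℝ) * ρ i : ℝ) : ℂ) = ((h i : ℝ) : ℂ) := by rw [e0]
      push_cast at this
      exact this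
    have h3 := hz.smul (h i)
    unfold CA at h3 ⊢
    have e2 : ((D * q : ℝ) : ℂ) * ((ρ i : ℂ) * z) = (q : ℂ) * ((h i : ℂ) * z) := by
      rw [← e1]; push_cast; ring
    rw [e2]
    exact h3.trans (mul_le_mul_of_nonneg_right (hm i hi) hz.nonneg)

/-! ### the exact splitting -/

section

variable (c : CD) (N : ℕ) (p r s : ℤ → ℂ)

/-- the dense parts -/
noncomputable def W1 (n : ℤ) : ℂ := gA c N p r s n + ((H0A c.P p r + c.P.lam : ℝ) : ℂ) * E1 c n
noncomputable def W2 (n : ℤ) : ℂ := gB c N p r s n + ((H0A c.P p r + c.P.lam : ℝ) : ℂ) * E2 c n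
/-- the tangent parts -/
noncomputable def T1 (n : ℤ) : ℂ := 1 / 2 * fc (Z1 c.P) n - (c.P.lam : ℂ) * E1 c n
noncomputable def T2 (n : ℤ) : ℂ := 1 / 2 * fc (Z2 c.P) n - (c.P.lam : ℂ) * E2 c n

theorem U1_eq (n : ℤ) : U1 c N p r s n = T1 c n + W1 c N p r s n := by
  unfold U1 T1 W1; push_cast; ring
theorem U2_eq (n : ℤ) : U2 c N p r s n = T2 c n + W2 c N p r s n := by
  unfold U2 T2 W2; push_cast; ring

/-- the coefficients of `((m - lam) w + mu1/2) f` -/
noncomputable def Gf (n : ℤ) : ℂ := ((c.P.m - c.P.lam : ℝ) : ℂ) * Fw c n + (c.mu1 / 2 : ℂ) * Fn c n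

/-- the constants -/
noncomputable def cX (n : ℤ) : ℂ :=
  wm c.P.eta (fun n => T1 c n - T2 c n) n + (V1 c n - V2 c n) - gLQ N (Gf c) (fc c.L.zs) n
noncomputable def cY (n : ℤ) : ℂ :=
  sy (fun n => wm c.P.eta (fun n => om * T1 c n + om ^ 2 * T2 c n) n + (om * V1 c n + om ^ 2 * V2 c n)) n
  + (c.L.p2 : ℂ) * (((c.P.m - c.P.lam : ℝ) : ℂ) * wm c.P.eta (fc fun t => (c.L.b2s t : ℂ)) n
    + (c.mu1 / 2 : ℂ) * fc (fun t => (c.L.b2s t : ℂ)) n)
noncomputable def cZ (n : ℤ) : ℂ :=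
  sy (fun n => wm c.P.eta (fun n => (starRingEnd ℂ) (kq 2) * T1 c n + kq 2 * T2 c n) n
    + ((starRingEnd ℂ) (kq 2) * V1 c n + kq 2 * V2 c n)) n
  + (c.L.p3 : ℂ) * (((c.P.m - c.P.lam : ℝ) : ℂ) * wm c.P.eta (fc fun t => (c.L.b3s t : ℂ)) n
    + (c.mu1 / 2 : ℂ) * fc (fun t => (c.L.b3s t : ℂ)) n)

theorem gLQ_add2 (M : ℕ) (F G u : ℤ → ℂ) (a b : ℂ) (n : ℤ) :
    gLQ M (fun n => a * F n + b * G n) u n = a * gLQ M F u n + b * gLQ M G u n := by
  unfold gLQ
  rw [mul_sum, mul_sum, ← sum_add_distrib]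
  exact sum_congr rfl fun k _ => by ring

theorem gLQ_sub (M : ℕ) (F u w : ℤ → ℂ) (n : ℤ) :
    gLQ M F (fun n => u n - w n) n = gLQ M F u n - gLQ M F w n := by
  unfold gLQ
  rw [← sum_sub_distrib]
  exact sum_congr rfl fun k _ => by rw [map_sub]; ring

theorem Xr_eq (n : ℤ) : Xr c N p r s n =
    cX c N n + wm c.P.eta (fun n => W1 c N p r s n - W2 c N p r s n) n + gLQ N (Gf c) s n := by
  have e1 : ∀ u : ℤ → ℂ, gLQ N (Gf c) u n = ((c.P.m - c.P.lam : ℝ) : ℂ) * gLQ N (Fw c) u n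
      + (c.mu1 / 2 : ℂ) * gLQ N (Fn c) u n := fun u => gLQ_add2 N (Fw c) (Fn c) u _ _ n
  have e2 : ∀ F : ℤ → ℂ, gLQ N F (zes c s) n = gLQ N F s n - gLQ N F (fc c.L.zs) n := fun F =>
    gLQ_sub N F s (fc c.L.zs) n
  unfold Xr cX
  rw [e1, e1, e2, e2]
  unfold wm
  simp only [U1_eq, U2_eq]
  ring

theorem sy_add3 (A B C : ℤ → ℂ) (n : ℤ) : sy (fun n => A n + B n + C n) n = sy A n + sy B n + sy C n := by
  unfold sy
  simp only [map_add]
  ring

theorem Yr_eq (n : ℤ) : Yr c N p r s n =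
    cY c n + sy (wm c.P.eta (fun n => om * W1 c N p r s n + om ^ 2 * W2 c N p r s n)) n
    + (sy (wm c.P.eta (gL c p r)) n + ((9 - c.P.cs - c.L.p2 * (c.P.m - c.P.lam) : ℝ) : ℂ) * wm c.P.eta p n
      - ((c.L.p2 * (c.mu1 / 2) : ℝ) : ℂ) * p n) := by
  have e1 : (fun n => wm c.P.eta (fun n => om * U1 c N p r s n + om ^ 2 * U2 c N p r s n + gL c p r n) n
      + (om * V1 c n + om ^ 2 * V2 c n)) = fun n =>
      (wm c.P.eta (fun n => om * T1 c n + om ^ 2 * T2 c n) n + (om * V1 c n + om ^ 2 * V2 c n))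
      + wm c.P.eta (fun n => om * W1 c N p r s n + om ^ 2 * W2 c N p r s n) n + wm c.P.eta (gL c p r) n := by
    funext n
    unfold wm
    simp only [U1_eq, U2_eq]
    ring
  have e2 : wm c.P.eta (zep c p) n = wm c.P.eta p n - wm c.P.eta (fc fun t => (c.L.b2s t : ℂ)) n := by
    unfold wm zep; ring
  have e3 : zep c p n = p n - fc (fun t => (c.L.b2s t : ℂ)) n := rfl
  unfold Yr cY
  rw [e1, sy_add3, e2, e3]
  push_cast
  ring

theorem Zr_eq (n : ℤ) : Zr c N p r s n =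
    cZ c n + sy (wm c.P.eta (fun n => (starRingEnd ℂ) (kq 2) * W1 c N p r s n + kq 2 * W2 c N p r s n)) n
    + (sy (wm c.P.eta (fun n => -(Complex.I / 2) * gL c p r n)) n
      + ((9 - c.P.cs - c.L.p3 * (c.P.m - c.P.lam) : ℝ) : ℂ) * wm c.P.eta r n
      - ((c.L.p3 * (c.mu1 / 2) : ℝ) : ℂ) * r n) := by
  have e1 : (fun n => wm c.P.eta (fun n => (starRingEnd ℂ) (kq 2) * U1 c N p r s n + kq 2 * U2 c N p r s n
      + -(Complex.I / 2) * gL c p r n) n
      + ((starRingEnd ℂ) (kq 2) * V1 c n + kq 2 * V2 c n)) = fun n =>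
      (wm c.P.eta (fun n => (starRingEnd ℂ) (kq 2) * T1 c n + kq 2 * T2 c n) n
        + ((starRingEnd ℂ) (kq 2) * V1 c n + kq 2 * V2 c n))
      + wm c.P.eta (fun n => (starRingEnd ℂ) (kq 2) * W1 c N p r s n + kq 2 * W2 c N p r s n) n
      + wm c.P.eta (fun n => -(Complex.I / 2) * gL c p r n) n := by
    funext n
    unfold wm
    simp only [U1_eq, U2_eq]
    ring
  have e2 : wm c.P.eta (zer c r) n = wm c.P.eta r n - wm c.P.eta (fc fun t => (c.L.b3s t : ℂ)) n := by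
    unfold wm zer; ring
  have e3 : zer c r n = r n - fc (fun t => (c.L.b3s t : ℂ)) n := rfl
  unfold Zr cZ
  rw [e1, sy_add3, e2, e3]
  push_cast
  ring

end

/-! ### the dense part -/

/-- the digits of `W1 - W2`, `W1 + W2` at the scale `dH q` -/
def dD (dH : ℕ) (h : ℕ → ℤ) (A B : ℤ → ℕ → ℤ) (a b : ℤ → ℤ) (k : ℤ) (i : ℕ) : ℤ :=
  dH * (A k i - B k i) + h i * (a k - b k)
def dS (dH : ℕ) (h : ℕ → ℤ) (A B : ℤ → ℕ → ℤ) (a b : ℤ → ℤ) (k : ℤ) (i : ℕ) : ℤ :=
  dH * (A k i + B k i) + h i * (a k + b k)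

section

variable {c : CD} {K L M : ℕ} {q e eE Hm : ℝ} {dH : ℕ} {h : ℕ → ℤ} {AR AT BR BT : ℤ → ℕ → ℤ}
  {aR aT bR bT : ℤ → ℤ}

/-- the certified pieces of the dense part in the window `N` -/
structure DP (c : CD) (K L M N : ℕ) (q e eE Hm : ℝ) (dH : ℕ) (h : ℕ → ℤ) (AR AT BR BT : ℤ → ℕ → ℤ)
    (aR aT bR bT : ℤ → ℤ) : Prop where
  A : ∀ k : ℤ, |k| ≤ N → LC (nt K L) q (fun v => gA c M (pV K L v) (rV K L v) (sV K v) k) (AR k) (AT k) e
  B : ∀ k : ℤ, |k| ≤ N → LC (nt K L) q (fun v => gB c M (pV K L v) (rV K L v) (sV K v) k) (BR k) (BT k) e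
  a : ∀ k : ℤ, |k| ≤ N → CA q (E1 c k) (aR k) (aT k) eE
  b : ∀ k : ℤ, |k| ≤ N → CA q (E2 c k) (bR k) (bT k) eE
  H : LR (nt K L) dH (fun v => H0A c.P (pV K L v) (rV K L v) + c.P.lam) h 0
  m : ∀ i < nt K L, |(h i : ℝ)| ≤ Hm

variable {N : ℕ}

theorem DP.w1 (d : DP c K L M N q e eE Hm dH h AR AT BR BT aR aT bR bT) {k : ℤ} (hk : |k| ≤ N) :
    LC (nt K L) (dH * q) (fun v => W1 c M (pV K L v) (rV K L v) (sV K v) k)
      (fun i => dH * AR k i + h i * aR k) (fun i => dH * AT k i + h i * aT k) (dH * e + Hm * eE) := by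
  have h1 := (d.A k hk).up dH
  have h2 := LC.mulr d.H d.m (d.a k hk)
  have h3 := h1.add (by exact_mod_cast h2)
  refine (h3.mono (le_of_eq ?_)).congr (fun v _ => rfl) (fun i _ => rfl) (fun i _ => rfl)
  simp

theorem DP.w2 (d : DP c K L M N q e eE Hm dH h AR AT BR BT aR aT bR bT) {k : ℤ} (hk : |k| ≤ N) :
    LC (nt K L) (dH * q) (fun v => W2 c M (pV K L v) (rV K L v) (sV K v) k)
      (fun i => dH * BR k i + h i * bR k) (fun i => dH * BT k i + h i * bT k) (dH * e + Hm * eE) := by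
  have h1 := (d.B k hk).up dH
  have h2 := LC.mulr d.H d.m (d.b k hk)
  have h3 := h1.add (by exact_mod_cast h2)
  refine (h3.mono (le_of_eq ?_)).congr (fun v _ => rfl) (fun i _ => rfl) (fun i _ => rfl)
  simp

/-- the rows of the dense part of `Xr` -/
theorem DP.X (d : DP c K L M N q e eE Hm dH h AR AT BR BT aR aT bR bT) {den : ℕ} {e1 e2 : ℤ}
    (hη : (den : ℂ) * c.P.eta = ci e1 e2) {k : ℤ} (hk : |k| + 2 ≤ N) :
    LC (nt K L) (den * (dH * q)) (fun v => wm c.P.eta (fun n => W1 c M (pV K L v) (rV K L v) (sV K v) n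
        - W2 c M (pV K L v) (rV K L v) (sV K v) n) k)
      (wmR den e1 e2 (dD dH h AR BR aR bR) (dD dH h AT BT aT bT) k)
      (wmT den e1 e2 (dD dH h AR BR aR bR) (dD dH h AT BT aT bT) k)
      ((den + 2 * (|(e1 : ℝ)| + |(e2 : ℝ)|)) * (2 * (dH * e + Hm * eE))) := by
  have g : ∀ n : ℤ, |n| ≤ N → LC (nt K L) (dH * q) (fun v => W1 c M (pV K L v) (rV K L v) (sV K v) n
        - W2 c M (pV K L v) (rV K L v) (sV K v) n) (dD dH h AR BR aR bR n) (dD dH h AT BT aT bT n)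
        (2 * (dH * e + Hm * eE)) := by
    intro n hn
    refine (((d.w1 hn).sub (d.w2 hn)).mono (by linarith)).congr (fun v _ => rfl) (fun i _ => ?_) (fun i _ => ?_) <;>
    · unfold dD; ring
  refine LC_wm hη (A := fun v n => W1 c M (pV K L v) (rV K L v) (sV K v) n - W2 c M (pV K L v) (rV K L v) (sV K v) n)
    (g k (by linarith)) (g (k - 2) ?_) (g (k + 2) ?_)
  · have := abs_sub k 2
    have h2 : |(2 : ℤ)| = 2 := rfl
    omega
  · have := abs_add_le k 2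
    have h2 : |(2 : ℤ)| = 2 := rfl
    omega

theorem abs_two (k : ℤ) : |k - 2| ≤ |k| + 2 ∧ |k + 2| ≤ |k| + 2 := by
  have h1 := abs_sub k 2
  have h2 := abs_add_le k 2
  have h3 : |(2 : ℤ)| = 2 := rfl
  omega

/-- the rows of the dense part of `Yr` before the hermitian part -/
theorem DP.y0 (d : DP c K L M N q e eE Hm dH h AR AT BR BT aR aT bR bT) {den : ℕ} {e1 e2 : ℤ}
    (hη : (den : ℂ) * c.P.eta = ci e1 e2) {q' : ℕ} {t : ℤ} {δ Mb : ℝ} (hT : |(q' : ℝ) * Real.sqrt 3 - t| ≤ δ)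
    (hM : ∀ k : ℤ, |k| ≤ N → ∀ i < nt K L, ‖ci (dS dH h AR BR aR bR k i) (dS dH h AT BT aT bT k i)‖ ≤ Mb)
    {k : ℤ} (hk : |k| + 2 ≤ N) :
    LC (nt K L) (den * ((4 * q' : ℤ) * (dH * q))) (fun v => wm c.P.eta (fun n =>
        om * W1 c M (pV K L v) (rV K L v) (sV K v) n + om ^ 2 * W2 c M (pV K L v) (rV K L v) (sV K v) n) k)
      (fun i => 2 * (q' * wmR den e1 e2 (dD dH h AR BR aR bR) (dD dH h AT BT aT bT) k i
        - t * wmT den e1 e2 (dS dH h AR BR aR bR) (dS dH h AT BT aT bT) k i))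
      (fun i => 2 * (q' * wmT den e1 e2 (dD dH h AR BR aR bR) (dD dH h AT BT aT bT) k i
        + t * wmR den e1 e2 (dS dH h AR BR aR bR) (dS dH h AT BT aT bT) k i))
      ((den + 2 * (|(e1 : ℝ)| + |(e2 : ℝ)|)) * (8 * q' * (dH * e + Hm * eE) + 2 * δ * Mb)) := by
  have g : ∀ n : ℤ, |n| ≤ N → LC (nt K L) ((4 * q' : ℤ) * (dH * q)) (fun v =>
        om * W1 c M (pV K L v) (rV K L v) (sV K v) n + om ^ 2 * W2 c M (pV K L v) (rV K L v) (sV K v) n)
        (fun i => 2 * (q' * dD dH h AR BR aR bR n i - t * dS dH h AT BT aT bT n i))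
        (fun i => 2 * (q' * dD dH h AT BT aT bT n i + t * dS dH h AR BR aR bR n i))
        (8 * q' * (dH * e + Hm * eE) + 2 * δ * Mb) := by
    intro n hn
    refine ((d.w1 hn).combP (d.w2 hn) q' t hT (M := Mb) ?_).congr (fun v _ => rfl) (fun i _ => ?_) (fun i _ => ?_)
    · intro i hi
      refine le_of_eq_of_le ?_ (hM n hn i hi)
      congr 2 <;>
      · unfold dS; ring
    · unfold dD dS; ring
    · unfold dD dS; ring
  obtain ⟨k1, k2⟩ := abs_two k
  have := LC_wm hη (A := fun v n => om * W1 c M (pV K L v) (rV K L v) (sV K v) n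
      + om ^ 2 * W2 c M (pV K L v) (rV K L v) (sV K v) n)
    (R := fun n i => 2 * (q' * dD dH h AR BR aR bR n i - t * dS dH h AT BT aT bT n i))
    (T := fun n i => 2 * (q' * dD dH h AT BT aT bT n i + t * dS dH h AR BR aR bR n i))
    (g k (by linarith)) (g (k - 2) (by linarith)) (g (k + 2) (by linarith))
  refine this.congr (fun v _ => rfl) (fun i _ => ?_) (fun i _ => ?_)
  · unfold wmR wmT; ring
  · unfold wmR wmT; ring

/-- the rows of the dense part of `Zr` before the hermitian part -/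
theorem DP.z0 (d : DP c K L M N q e eE Hm dH h AR AT BR BT aR aT bR bT) {den : ℕ} {e1 e2 : ℤ}
    (hη : (den : ℂ) * c.P.eta = ci e1 e2) {q' : ℕ} {t : ℤ} {δ Mb : ℝ} (hT : |(q' : ℝ) * Real.sqrt 3 - t| ≤ δ)
    (hM : ∀ k : ℤ, |k| ≤ N → ∀ i < nt K L, ‖ci (dS dH h AR BR aR bR k i) (dS dH h AT BT aT bT k i)‖ ≤ Mb)
    {k : ℤ} (hk : |k| + 2 ≤ N) :
    LC (nt K L) (den * ((4 * q' : ℤ) * (dH * q))) (fun v => wm c.P.eta (fun n =>
        (starRingEnd ℂ) (kq 2) * W1 c M (pV K L v) (rV K L v) (sV K v) n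
          + kq 2 * W2 c M (pV K L v) (rV K L v) (sV K v) n) k)
      (fun i => 4 * t * wmR den e1 e2 (dS dH h AR BR aR bR) (dS dH h AT BT aT bT) k i
        + q' * wmT den e1 e2 (dD dH h AR BR aR bR) (dD dH h AT BT aT bT) k i)
      (fun i => 4 * t * wmT den e1 e2 (dS dH h AR BR aR bR) (dS dH h AT BT aT bT) k i
        - q' * wmR den e1 e2 (dD dH h AR BR aR bR) (dD dH h AT BT aT bT) k i)
      ((den + 2 * (|(e1 : ℝ)| + |(e2 : ℝ)|)) * (14 * q' * (dH * e + Hm * eE) + 4 * δ * Mb)) := by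
  have g : ∀ n : ℤ, |n| ≤ N → LC (nt K L) ((4 * q' : ℤ) * (dH * q)) (fun v =>
        (starRingEnd ℂ) (kq 2) * W1 c M (pV K L v) (rV K L v) (sV K v) n
          + kq 2 * W2 c M (pV K L v) (rV K L v) (sV K v) n)
        (fun i => 4 * t * dS dH h AR BR aR bR n i + q' * dD dH h AT BT aT bT n i)
        (fun i => 4 * t * dS dH h AT BT aT bT n i - q' * dD dH h AR BR aR bR n i)
        (14 * q' * (dH * e + Hm * eE) + 4 * δ * Mb) := by
    intro n hn
    refine ((d.w1 hn).combR (d.w2 hn) q' t hT (M := Mb) ?_).congr (fun v _ => rfl) (fun i _ => ?_) (fun i _ => ?_)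
    · intro i hi
      refine le_of_eq_of_le ?_ (hM n hn i hi)
      congr 2 <;>
      · unfold dS; ring
    · unfold dD dS; ring
    · unfold dD dS; ring
  obtain ⟨k1, k2⟩ := abs_two k
  have := LC_wm hη (A := fun v n => (starRingEnd ℂ) (kq 2) * W1 c M (pV K L v) (rV K L v) (sV K v) n
      + kq 2 * W2 c M (pV K L v) (rV K L v) (sV K v) n)
    (R := fun n i => 4 * t * dS dH h AR BR aR bR n i + q' * dD dH h AT BT aT bT n i)
    (T := fun n i => 4 * t * dS dH h AT BT aT bT n i - q' * dD dH h AR BR aR bR n i)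
    (g k (by linarith)) (g (k - 2) (by linarith)) (g (k + 2) (by linarith))
  refine this.congr (fun v _ => rfl) (fun i _ => ?_) (fun i _ => ?_)
  · unfold wmR wmT; ring
  · unfold wmR wmT; ring

end

end Pool.Agent.Helper19.SH
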