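import Pool.Agent.Helper19.SH.ColB
import Pool.Agent.Helper95.SH.Win

/-!
# Project RC, SHARP, cell engine: the local part of the rows of the collar

`LC_gLQ`: the row of `gLQ M F (sV K v)`. `locY2, locY4, locZ2, locZ4`: the rows of `sy (wm eta gL)` at the frequencies
`L + 2`, `L + 4`, exact complex coefficients of `p L`, `p (L - 2)`, `r L`, `r (L - 2)`.
-/

set_option autoImplicit false

open Finset

namespace Pool.Agent.Helper19.SH

open Helper95.SH Helper95.RC
open Helper49.RC (om)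
open Helper56.RC (fc)
open Pool.Agent.Helper64.SH

/-! ### the band row of the local form -/

/-- digits of the row of `gLQ`, real and imaginary part, at the scale `2 q` -/
def gxR (K : ℕ) (gR gT : ℤ → ℤ) (k : ℤ) (i : ℕ) : ℤ :=
  if i = 0 then 0
  else if i < bp K then (if (i - 1) % 2 = 0 then 2 * gR (k - (((i - 1 : ℕ) : ℤ) - K)) + gR (k + (((i - 1 : ℕ) : ℤ) - K))
    else gT (k + (((i - 2 : ℕ) : ℤ) - K)) - 2 * gT (k - (((i - 2 : ℕ) : ℤ) - K)))
  else 0
def gxT (K : ℕ) (gR gT : ℤ → ℤ) (k : ℤ) (i : ℕ) : ℤ :=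
  if i = 0 then 0
  else if i < bp K then (if (i - 1) % 2 = 0 then 2 * gT (k - (((i - 1 : ℕ) : ℤ) - K)) + gT (k + (((i - 1 : ℕ) : ℤ) - K))
    else 2 * gR (k - (((i - 2 : ℕ) : ℤ) - K)) - gR (k + (((i - 2 : ℕ) : ℤ) - K)))
  else 0

theorem gLQ_re (M : ℕ) (F s : ℤ → ℂ) (k : ℤ) (p r : ℤ → ℂ) : (gLQ M F s k).re =
    row3 M 0 (fun m => (starRingEnd ℂ) (F (k - m)) + 1 / 2 * F (k + m)) (fun _ => 0) (fun _ => 0) p r s := by
  have e1 : ∑ m ∈ Finset.Icc (-(M : ℤ)) M, F (k - m) * (1 / 2 * (starRingEnd ℂ) (s (-m))) =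
      ∑ m ∈ Finset.Icc (-(M : ℤ)) M, F (k + m) * (1 / 2 * (starRingEnd ℂ) (s m)) := by
    rw [← Helper95.SH.sum_neg M (fun m => F (k + m) * (1 / 2 * (starRingEnd ℂ) (s m)))]
    exact sum_congr rfl fun m _ => by rw [← sub_eq_add_neg]
  have e2 : gLQ M F s k = ∑ m ∈ Finset.Icc (-(M : ℤ)) M, (F (k - m) * s m
      + F (k + m) * (1 / 2 * (starRingEnd ℂ) (s m))) := by
    unfold gLQ
    simp only [mul_add, sum_add_distrib]
    rw [e1]
  rw [e2]
  unfold row3
  rw [zero_add, Complex.re_sum, Complex.re_sum]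
  refine sum_congr rfl fun m _ => ?_
  simp only [map_add, map_mul, Complex.conj_conj, map_zero, mul_zero, add_zero, Complex.add_re, Complex.mul_re,
    Complex.mul_im, Complex.conj_re, Complex.conj_im, map_div₀, map_one, map_ofNat]
  norm_num
  ring

theorem gLQ_im (M : ℕ) (F s : ℤ → ℂ) (k : ℤ) (p r : ℤ → ℂ) : (gLQ M F s k).im =
    row3 M 0 (fun m => Complex.I * (starRingEnd ℂ) (F (k - m)) - Complex.I / 2 * F (k + m)) (fun _ => 0) (fun _ => 0)
      p r s := by
  have e1 : ∑ m ∈ Finset.Icc (-(M : ℤ)) M, F (k - m) * (1 / 2 * (starRingEnd ℂ) (s (-m))) =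
      ∑ m ∈ Finset.Icc (-(M : ℤ)) M, F (k + m) * (1 / 2 * (starRingEnd ℂ) (s m)) := by
    rw [← Helper95.SH.sum_neg M (fun m => F (k + m) * (1 / 2 * (starRingEnd ℂ) (s m)))]
    exact sum_congr rfl fun m _ => by rw [← sub_eq_add_neg]
  have e2 : gLQ M F s k = ∑ m ∈ Finset.Icc (-(M : ℤ)) M, (F (k - m) * s m
      + F (k + m) * (1 / 2 * (starRingEnd ℂ) (s m))) := by
    unfold gLQ
    simp only [mul_add, sum_add_distrib]
    rw [e1]
  rw [e2]
  unfold row3
  rw [zero_add, Complex.im_sum, Complex.re_sum]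
  refine sum_congr rfl fun m _ => ?_
  simp only [map_sub, map_mul, Complex.conj_conj, map_zero, mul_zero, add_zero, Complex.add_im, Complex.mul_re,
    Complex.sub_re, Complex.sub_im, Complex.mul_im, Complex.conj_re, Complex.conj_im, map_div₀, Complex.conj_I,
    map_ofNat, Complex.I_re, Complex.I_im, Complex.neg_re, Complex.neg_im]
  norm_num
  ring

theorem ci_zero : ci 0 0 = 0 := by unfold ci; simp

/-- **the band row of the local form** -/
theorem LC_gLQ {K L M : ℕ} (hK : ¬ Even K) (hL : Even L) (hKM : K ≤ M) (hLM : L ≤ M) {q e : ℝ} {F : ℤ → ℂ}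
    {gR gT : ℤ → ℤ} (hF : ∀ n, CA q (F n) (gR n) (gT n) e) (k : ℤ) :
    LC (nt K L) (2 * q) (fun v => gLQ M F (sV K v) k) (gxR K gR gT k) (gxT K gR gT k) (6 * e) := by
  have he : 0 ≤ e := (hF 0).nonneg
  have z0 : ‖((2 * q : ℝ) : ℂ) * 0 - ci 0 0‖ ≤ 3 * e / 2 := by rw [ci_zero]; simp; positivity
  have h1 : LR (nt K L) (2 * q) (fun v => row3 M 0 (fun m => (starRingEnd ℂ) (F (k - m)) + 1 / 2 * F (k + m))
      (fun _ => 0) (fun _ => 0) (pV K L v) (rV K L v) (sV K v))
      (iRow K L 0 (fun m => 2 * gR (k - m) + gR (k + m)) (fun m => gT (k + m) - 2 * gT (k - m)) (fun _ => 0)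
        (fun _ => 0) (fun _ => 0) (fun _ => 0)) (2 * (3 * e / 2)) := by
    refine LR_row hK hL hKM hLM (by positivity) (by simp; positivity) (fun n _ => ?_) (fun n _ => z0) (fun n _ => z0)
    have a1 := hF (k - n)
    have a2 := hF (k + n)
    unfold CA at a1 a2
    have e1 : ((2 * q : ℝ) : ℂ) * ((starRingEnd ℂ) (F (k - n)) + 1 / 2 * F (k + n))
        - ci (2 * gR (k - n) + gR (k + n)) (gT (k + n) - 2 * gT (k - n)) =
        2 * (starRingEnd ℂ) ((q : ℂ) * F (k - n) - ci (gR (k - n)) (gT (k - n)))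
          + ((q : ℂ) * F (k + n) - ci (gR (k + n)) (gT (k + n))) := by
      unfold ci
      rw [map_sub, map_mul, map_add, map_mul, Complex.conj_ofReal, Complex.conj_I]
      simp only [map_intCast]
      push_cast
      ring
    rw [e1]
    refine (norm_add_le _ _).trans ?_
    rw [norm_mul, RCLike.norm_conj]
    have : ‖(2 : ℂ)‖ = 2 := by norm_num
    rw [this]
    linarith
  have h2 : LR (nt K L) (2 * q) (fun v => row3 M 0 (fun m => Complex.I * (starRingEnd ℂ) (F (k - m))
      - Complex.I / 2 * F (k + m)) (fun _ => 0) (fun _ => 0) (pV K L v) (rV K L v) (sV K v))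
      (iRow K L 0 (fun m => 2 * gT (k - m) + gT (k + m)) (fun m => 2 * gR (k - m) - gR (k + m)) (fun _ => 0)
        (fun _ => 0) (fun _ => 0) (fun _ => 0)) (2 * (3 * e / 2)) := by
    refine LR_row hK hL hKM hLM (by positivity) (by simp; positivity) (fun n _ => ?_) (fun n _ => z0) (fun n _ => z0)
    have a1 := hF (k - n)
    have a2 := hF (k + n)
    unfold CA at a1 a2
    have e1 : ((2 * q : ℝ) : ℂ) * (Complex.I * (starRingEnd ℂ) (F (k - n)) - Complex.I / 2 * F (k + n))
        - ci (2 * gT (k - n) + gT (k + n)) (2 * gR (k - n) - gR (k + n)) =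
        2 * Complex.I * (starRingEnd ℂ) ((q : ℂ) * F (k - n) - ci (gR (k - n)) (gT (k - n)))
          + -Complex.I * ((q : ℂ) * F (k + n) - ci (gR (k + n)) (gT (k + n))) := by
      unfold ci
      rw [map_sub, map_mul, map_add, map_mul, Complex.conj_ofReal, Complex.conj_I]
      simp only [map_intCast]
      push_cast
      have := Complex.I_mul_I
      linear_combination (-2 * (gT (k - n) : ℂ) - (gT (k + n) : ℂ)) * this
    rw [e1]
    refine (norm_add_le _ _).trans ?_
    rw [norm_mul, norm_mul, norm_mul, RCLike.norm_conj, norm_neg, Complex.norm_I]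
    have : ‖(2 : ℂ)‖ = 2 := by norm_num
    rw [this]
    linarith
  have k1 : LR (nt K L) (2 * q) (fun v => (gLQ M F (sV K v) k).re) (gxR K gR gT k) (3 * e) := by
    refine (h1.mono (by linarith)).congr (fun v _ => gLQ_re M F _ k _ _) (fun i _ => ?_)
    unfold gxR iRow ihr
    split_ifs <;> simp
  have k2 : LR (nt K L) (2 * q) (fun v => (gLQ M F (sV K v) k).im) (gxT K gR gT k) (3 * e) := by
    refine (h2.mono (by linarith)).congr (fun v _ => gLQ_im M F _ k _ _) (fun i _ => ?_)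
    unfold gxT iRow ihr
    split_ifs <;> simp
  exact (LC.of k1 k2).mono (by linarith)

/-! ### rows of single coordinates -/

def ptR (i0 : ℕ) (a b : ℤ) (i : ℕ) : ℤ := if i = i0 then a else if i = i0 + 1 then -b else 0
def ptT (i0 : ℕ) (a b : ℤ) (i : ℕ) : ℤ := if i = i0 then b else if i = i0 + 1 then a else 0

theorem LC.pt {n : ℕ} {q e : ℝ} {c : ℂ} {a b : ℤ} (h : CA q c a b e) {i0 : ℕ} (hi : i0 + 1 < n) :
    LC n q (fun v => c * ((v i0 : ℂ) + Complex.I * (v (i0 + 1) : ℂ))) (ptR i0 a b) (ptT i0 a b) e := by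
  refine ⟨fun i => if i = i0 then c else if i = i0 + 1 then Complex.I * c else 0, fun v _ => ?_, fun i _ => ?_⟩
  · have e1 : ∀ i, (if i = i0 then c else if i = i0 + 1 then Complex.I * c else 0) * (v i : ℂ) =
        (if i = i0 then c * (v i0 : ℂ) else 0) + (if i = i0 + 1 then Complex.I * c * (v (i0 + 1) : ℂ) else 0) := by
      intro i
      by_cases h1 : i = i0
      · subst h1; simp
      · by_cases h2 : i = i0 + 1
        · subst h2; simp
        · simp [h1, h2]
    simp only [e1, sum_add_distrib, sum_ite_eq', mem_range]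
    rw [if_pos (by omega), if_pos hi]
    ring
  · unfold ptR ptT
    by_cases h1 : i = i0
    · simp only [if_pos h1]; exact h
    · by_cases h2 : i = i0 + 1
      · simp only [if_neg h1, if_pos h2]
        unfold CA at *
        have e2 : (q : ℂ) * (Complex.I * c) - ci (-b) a = Complex.I * ((q : ℂ) * c - ci a b) := by
          rw [← ci_I]; ring
        rw [e2, norm_mul, Complex.norm_I, one_mul]
        exact h
      · simp only [if_neg h1, if_neg h2]
        unfold CA
        rw [ci_zero]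
        simpa using h.nonneg

/-- an exact fraction -/
theorem CA_frac {c : ℂ} {D x y : ℤ} (hD : 0 < D) (h : (D : ℂ) * c = ci x y) (A : ℕ) :
    CA A c (rd A D x) (rd A D y) 2 := by
  have h1 : CA (D : ℝ) c x y 0 := by
    unfold CA
    have : (((D : ℝ)) : ℂ) = (D : ℂ) := by push_cast; rfl
    rw [this, h, sub_self, norm_zero]
  have h2 := CA_rd h1 A hD
  have hD' : (D : ℝ) ≠ 0 := by exact_mod_cast hD.ne'
  rw [div_mul_cancel₀ _ hD', mul_zero, zero_add] at h2
  exact h2

/-! ### the coordinates near the end of the window -/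

theorem hV_pos {L base : ℕ} (v : ℕ → ℝ) {n : ℤ} (he : Even n) (h0 : 0 < n) (h1 : n ≤ L) :
    hV L base v n = (v (base + (n.toNat - 1)) : ℂ) + Complex.I * (v (base + (n.toNat - 1) + 1) : ℂ) := by
  unfold hV
  rw [if_neg (by push Not; exact ⟨he, by rw [Finset.mem_Icc]; omega⟩), if_neg (by omega), if_pos h0]
  congr 4
  omega

theorem hV_top {L base : ℕ} (hL : Even L) (h2 : 4 ≤ L) (v : ℕ → ℝ) :
    hV L base v (L : ℤ) = (v (base + L - 1) : ℂ) + Complex.I * (v (base + L - 1 + 1) : ℂ) := by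
  obtain ⟨l, hl⟩ := hL
  rw [hV_pos v ⟨(l : ℤ), by omega⟩ (by omega) le_rfl]
  have e : base + ((L : ℤ).toNat - 1) = base + L - 1 := by omega
  rw [e]

theorem hV_top2 {L base : ℕ} (hL : Even L) (h2 : 4 ≤ L) (v : ℕ → ℝ) :
    hV L base v ((L : ℤ) - 2) = (v (base + L - 3) : ℂ) + Complex.I * (v (base + L - 3 + 1) : ℂ) := by
  obtain ⟨l, hl⟩ := hL
  rw [hV_pos v ⟨(l : ℤ) - 1, by omega⟩ (by omega) (by omega)]
  have e : base + (((L : ℤ) - 2).toNat - 1) = base + L - 3 := by omega
  rw [e]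

end Pool.Agent.Helper19.SH
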