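import Pool.Agent.Helper19.SH.ColA
import Pool.Agent.Helper31.NS.KcF

/-!
# Project RC, SHARP, cell engine: packed signed digits

`PkN b N x R`: the integer `x` is `∑ R n B ^ (n + N)`, `-N ≤ n ≤ N`, `B = 2 ^ (b + 1)`: addition, integer multiples,
shifts of the frequencies, extraction of the digits, the digits of an `FP`.
-/

set_option autoImplicit false

open Finset

namespace Pool.Agent.Helper19.SH

open Helper54.RC.Fast (FP len wf dg of gs of_eq)
open Pool.Agent.Helper31.KcF (dgI)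
open Pool.Agent.Helper64.SH (dR dI)

/-- packed signed digits of the frequencies `-N .. N` -/
def PkN (b N : ℕ) (x : ℤ) (R : ℤ → ℤ) : Prop :=
  x = ∑ k ∈ range (2 * N + 1), R ((k : ℤ) - N) * (2 ^ (b + 1)) ^ k

section

variable {b N : ℕ} {x y : ℤ} {R S : ℤ → ℤ}

theorem PkN.add (h : PkN b N x R) (k : PkN b N y S) : PkN b N (x + y) (fun n => R n + S n) := by
  unfold PkN at *
  rw [h, k, ← sum_add_distrib]
  exact sum_congr rfl fun i _ => by ring

theorem PkN.sub (h : PkN b N x R) (k : PkN b N y S) : PkN b N (x - y) (fun n => R n - S n) := by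
  unfold PkN at *
  rw [h, k, ← sum_sub_distrib]
  exact sum_congr rfl fun i _ => by ring

theorem PkN.smul (h : PkN b N x R) (a : ℤ) : PkN b N (a * x) (fun n => a * R n) := by
  unfold PkN at *
  rw [h, mul_sum]
  exact sum_congr rfl fun i _ => by ring

theorem PkN.congr (h : PkN b N x R) (hS : ∀ n, S n = R n) : PkN b N x S := by
  have : S = R := funext hS
  rw [this]; exact h

/-- shift of the window and of the frequencies -/
theorem PkN.sh (h : PkN b N x R) (h0 : ∀ n, n < -(N : ℤ) ∨ (N : ℤ) < n → R n = 0) {M : ℕ} (d : ℕ)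
    (hd : d + 2 * N ≤ 2 * M) : PkN b M ((2 ^ (b + 1)) ^ d * x) (fun n => R (n + ((M : ℤ) - N - d))) := by
  unfold PkN at *
  rw [h, mul_sum]
  have e : ∀ k : ℕ, R ((k : ℤ) - M + ((M : ℤ) - N - d)) = R ((k : ℤ) - d - N) := fun k => by congr 1; ring
  simp only [e]
  have e2 : ∑ k ∈ range (2 * M + 1), R ((k : ℤ) - d - N) * (2 ^ (b + 1)) ^ k =
      ∑ k ∈ (range (2 * N + 1)).image (fun j => j + d), R ((k : ℤ) - d - N) * (2 ^ (b + 1)) ^ k := by
    symm
    apply sum_subset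
    · intro k hk
      obtain ⟨j, hj, rfl⟩ := mem_image.1 hk
      rw [mem_range] at hj ⊢
      omega
    · intro k _ hk
      rw [h0, zero_mul]
      by_contra hc
      push Not at hc
      apply hk
      refine mem_image.2 ⟨k - d, mem_range.2 ?_, ?_⟩ <;> omega
  rw [e2, sum_image (fun a _ c _ hac => by simpa using hac)]
  refine sum_congr rfl fun j _ => ?_
  have e3 : (((j + d : ℕ) : ℤ) - d - N) = (j : ℤ) - N := by push_cast; ring
  rw [e3, pow_add]
  ring

end

/-! ### digits -/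

theorem dg_zero (b X : ℕ) : dg b 0 X = X % 2 ^ (b + 1) := by
  show X >>> ((b + 1) * 0) % 2 ^ (b + 1) = _
  simp

theorem dg_succ (b k X : ℕ) : dg b (k + 1) X = dg b k (X / 2 ^ (b + 1)) := by
  show X >>> ((b + 1) * (k + 1)) % 2 ^ (b + 1) = (X / 2 ^ (b + 1)) >>> ((b + 1) * k) % 2 ^ (b + 1)
  rw [Nat.shiftRight_eq_div_pow, Nat.shiftRight_eq_div_pow, Nat.div_div_eq_div_mul, ← pow_add]
  have e5 : b + 1 + (b + 1) * k = (b + 1) * (k + 1) := by ring
  rw [e5]

theorem dg_lt (b k X : ℕ) : dg b k X < 2 ^ (b + 1) := Nat.mod_lt _ (Nat.two_pow_pos _)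

/-- a number is the sum of its digits -/
theorem sum_dg (b n X : ℕ) (h : X < (2 ^ (b + 1)) ^ n) : X = ∑ k ∈ range n, dg b k X * (2 ^ (b + 1)) ^ k := by
  induction n generalizing X with
  | zero =>
    rw [pow_zero] at h
    rw [range_zero, sum_empty]; omega
  | succ n ih =>
    rw [sum_range_succ', dg_zero, pow_zero, mul_one]
    have h1 : X / 2 ^ (b + 1) < (2 ^ (b + 1)) ^ n := by
      rw [Nat.div_lt_iff_lt_mul (by positivity), ← pow_succ]
      exact h
    have h2 := ih _ h1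
    have h3 := Nat.div_add_mod X (2 ^ (b + 1))
    have h4 : ∑ k ∈ range n, dg b (k + 1) X * (2 ^ (b + 1)) ^ (k + 1) = 2 ^ (b + 1) * (X / 2 ^ (b + 1)) := by
      conv_rhs => rw [h2, mul_sum]
      refine sum_congr rfl fun k _ => ?_
      rw [dg_succ, pow_succ]
      ring
    rw [h4]
    omega

/-- the digits of a sum -/
theorem dg_sum (b : ℕ) (n : ℕ) (D : ℕ → ℕ) (hD : ∀ k, D k < 2 ^ (b + 1)) (k : ℕ) (hk : k < n) :
    dg b k (∑ j ∈ range n, D j * (2 ^ (b + 1)) ^ j) = D k := by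
  induction n generalizing D k with
  | zero => omega
  | succ n ih =>
    have e : ∑ j ∈ range (n + 1), D j * (2 ^ (b + 1)) ^ j =
        D 0 + 2 ^ (b + 1) * ∑ j ∈ range n, D (j + 1) * (2 ^ (b + 1)) ^ j := by
      rw [sum_range_succ', pow_zero, mul_one, mul_sum, add_comm]
      congr 1
      exact sum_congr rfl fun j _ => by rw [pow_succ]; ring
    rw [e]
    rcases k with _ | k
    · rw [dg_zero, Nat.add_mul_mod_self_left, Nat.mod_eq_of_lt (hD 0)]
    · rw [dg_succ, Nat.add_mul_div_left _ _ (Nat.two_pow_pos _), Nat.div_eq_of_lt (hD 0), zero_add]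
      exact ih (fun j => D (j + 1)) (fun j => hD _) k (by omega)

theorem gs_sum (B n : ℕ) : gs B n = ∑ k ∈ range n, B ^ k := by
  induction n with
  | zero => rfl
  | succ n ih =>
    rw [sum_range_succ', pow_zero, gs, ih, mul_sum, add_comm]
    congr 1
    exact sum_congr rfl fun k _ => by rw [pow_succ]; ring

theorem of_sum (b n : ℕ) : of b n = ∑ k ∈ range n, 2 ^ b * (2 ^ (b + 1)) ^ k := by
  rw [of_eq, gs_sum, mul_sum]

theorem dgI_eq (b k X : ℕ) : dgI b k X = (dg b k X : ℤ) - 2 ^ b := by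
  unfold dgI
  rw [Int.subNatNat_eq_coe]
  show (dg b k X : ℤ) - ((2 ^ b : ℕ) : ℤ) = _
  push_cast
  rfl

/-- **extraction of the digits** -/
theorem PkN.dig {b N : ℕ} {x : ℤ} {R : ℤ → ℤ} (h : PkN b N x R) (hb : ∀ n, |R n| < 2 ^ b) {k : ℕ} (hk : k ≤ 2 * N) :
    dgI b k (Int.toNat (x + (of b (len N) : ℕ))) = R ((k : ℤ) - N) := by
  unfold PkN at h
  have hl : len N = 2 * N + 1 := rfl
  have h1 : ∀ n, 0 ≤ R n + 2 ^ b ∧ R n + 2 ^ b < 2 ^ (b + 1) := by
    intro n
    have := abs_lt.1 (hb n)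
    rw [pow_succ]
    constructor <;> linarith
  set D : ℕ → ℕ := fun k => (R ((k : ℤ) - N) + 2 ^ b).toNat with hDd
  have hDc : ∀ k, ((D k : ℕ) : ℤ) = R ((k : ℤ) - N) + 2 ^ b := fun k => Int.toNat_of_nonneg (h1 _).1
  have hD : ∀ k, D k < 2 ^ (b + 1) := by
    intro k
    have h2 := (h1 ((k : ℤ) - N)).2
    have h3 := hDc k
    have h4 : ((D k : ℕ) : ℤ) < ((2 ^ (b + 1) : ℕ) : ℤ) := by rw [h3]; push_cast; exact h2
    exact_mod_cast h4
  have e : x + (of b (len N) : ℕ) = ((∑ j ∈ range (2 * N + 1), D j * (2 ^ (b + 1)) ^ j : ℕ) : ℤ) := by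
    rw [h, of_sum, hl]
    push_cast
    rw [← sum_add_distrib]
    refine sum_congr rfl fun j _ => ?_
    rw [hDc]
    ring
  rw [e, Int.toNat_natCast, dgI_eq, dg_sum b _ D hD k (by omega), hDc]
  ring

/-! ### the digits of an `FP` -/

/-- the packed signed number -/
def sgn (b N X : ℕ) : ℤ := Int.subNatNat X (of b (len N))

theorem sgn_pk (b N X : ℕ) (h : X < (2 ^ (b + 1)) ^ (len N)) {R : ℤ → ℤ}
    (hR : ∀ k : ℕ, k ≤ 2 * N → R ((k : ℤ) - N) = (dg b k X : ℤ) - 2 ^ b) : PkN b N (sgn b N X) R := by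
  unfold PkN sgn
  have hl : len N = 2 * N + 1 := rfl
  rw [Int.subNatNat_eq_coe, of_sum]
  conv_lhs => rw [sum_dg b (len N) X h]
  rw [hl]
  push_cast
  rw [← sum_sub_distrib]
  refine sum_congr rfl fun k hk => ?_
  rw [mem_range] at hk
  rw [hR k (by omega)]
  ring

theorem sgn_x {b : ℕ} {z : FP} (h : wf b z = true) : PkN b z.N (sgn b z.N z.x) (dR b z) := by
  rw [Helper54.RC.Fast.wf_iff] at h
  refine sgn_pk b z.N z.x h.1 fun k hk => ?_
  unfold dR
  rw [if_pos (by omega)]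
  congr 3
  omega

theorem sgn_y {b : ℕ} {z : FP} (h : wf b z = true) : PkN b z.N (sgn b z.N z.y) (dI b z) := by
  rw [Helper54.RC.Fast.wf_iff] at h
  refine sgn_pk b z.N z.y h.2 fun k hk => ?_
  unfold dI
  rw [if_pos (by omega)]
  congr 3
  omega

theorem dR_out (b : ℕ) (z : FP) (n : ℤ) (h : n < -(z.N : ℤ) ∨ (z.N : ℤ) < n) : dR b z n = 0 := by
  unfold dR; rw [if_neg (by omega)]

theorem dI_out (b : ℕ) (z : FP) (n : ℤ) (h : n < -(z.N : ℤ) ∨ (z.N : ℤ) < n) : dI b z n = 0 := by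
  unfold dI; rw [if_neg (by omega)]

end Pool.Agent.Helper19.SH
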