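import Pool.Agent.Helper19.SH.ColE
import Pool.Agent.Helper19.SH.ColP

/-!
# Project RC, SHARP, cell engine: the rows of the collar, dense part at a fixed scale, combinations with `√3`
-/

set_option autoImplicit false

open Finset

namespace Pool.Agent.Helper19.SH

open Helper95.SH Helper95.RC
open Helper49.RC (om)
open Helper56.RC (fc)
open Pool.Agent.Helper64.SH

/-! ### combinations of `D = x - y`, `S = x + y` -/

theorem norm_le_of_CA {q e M : ℝ} {z : ℂ} {a b : ℤ} (h : CA q z a b e) (hM : ‖ci a b‖ ≤ M) : ‖(q : ℂ) * z‖ ≤ M + e := by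
  unfold CA at h
  have e1 : (q : ℂ) * z = ci a b + ((q : ℂ) * z - ci a b) := by ring
  rw [e1]
  exact (norm_add_le _ _).trans (add_le_add hM h)

/-- `(D + i √3 S) / 2` at the scale `2 q' q` -/
theorem CA_yC {q e δ M : ℝ} {D S : ℂ} {a b c d : ℤ} (h : CA q D a b e) (k : CA q S c d e) (q' : ℕ) {t : ℤ}
    (hT : |(q' : ℝ) * Real.sqrt 3 - t| ≤ δ) (hM : ‖ci c d‖ ≤ M) :
    CA (2 * q' * q) ((D + Complex.I * (Real.sqrt 3 : ℝ) * S) / 2) (q' * a - t * d) (q' * b + t * c)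
      ((q' + |(t : ℝ)|) * e + δ * (M + e)) := by
  have hS := norm_le_of_CA k hM
  unfold CA at *
  have e1 : ((2 * q' * q : ℝ) : ℂ) * ((D + Complex.I * (Real.sqrt 3 : ℝ) * S) / 2) - ci (q' * a - t * d) (q' * b + t * c) =
      (q' : ℂ) * ((q : ℂ) * D - ci a b) + Complex.I * ((t : ℂ) * ((q : ℂ) * S - ci c d))
        + Complex.I * ((((q' : ℝ) * Real.sqrt 3 - t : ℝ) : ℂ) * ((q : ℂ) * S)) := by
    unfold ci
    push_cast
    have := Complex.I_mul_I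
    linear_combination ((t : ℂ) * (d : ℂ)) * this
  rw [e1]
  refine (norm_add_le _ _).trans ?_
  refine (add_le_add (norm_add_le _ _) le_rfl).trans ?_
  rw [norm_mul, norm_mul, norm_mul, norm_mul, norm_mul, Complex.norm_I, one_mul, one_mul, Complex.norm_intCast,
    Complex.norm_natCast, Complex.norm_real, Real.norm_eq_abs]
  have h1 : (q' : ℝ) * ‖(q : ℂ) * D - ci a b‖ ≤ q' * e := mul_le_mul_of_nonneg_left h (Nat.cast_nonneg _)
  have h2 : |(t : ℝ)| * ‖(q : ℂ) * S - ci c d‖ ≤ |(t : ℝ)| * e := mul_le_mul_of_nonneg_left k (abs_nonneg _)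
  have h3 : |(q' : ℝ) * Real.sqrt 3 - t| * ‖(q : ℂ) * S‖ ≤ δ * (M + e) :=
    mul_le_mul hT hS (norm_nonneg _) ((abs_nonneg _).trans hT)
  linarith

/-- `√3 S - (i / 4) D` at the scale `4 q' q` -/
theorem CA_zC {q e δ M : ℝ} {D S : ℂ} {a b c d : ℤ} (h : CA q D a b e) (k : CA q S c d e) (q' : ℕ) {t : ℤ}
    (hT : |(q' : ℝ) * Real.sqrt 3 - t| ≤ δ) (hM : ‖ci c d‖ ≤ M) :
    CA (4 * q' * q) ((Real.sqrt 3 : ℝ) * S - Complex.I / 4 * D) (4 * (t * c) + q' * b) (4 * (t * d) - q' * a)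
      ((q' + 4 * |(t : ℝ)|) * e + 4 * δ * (M + e)) := by
  have hS := norm_le_of_CA k hM
  unfold CA at *
  have e1 : ((4 * q' * q : ℝ) : ℂ) * ((Real.sqrt 3 : ℝ) * S - Complex.I / 4 * D)
      - ci (4 * (t * c) + q' * b) (4 * (t * d) - q' * a) =
      -Complex.I * ((q' : ℂ) * ((q : ℂ) * D - ci a b)) + 4 * ((t : ℂ) * ((q : ℂ) * S - ci c d))
        + 4 * ((((q' : ℝ) * Real.sqrt 3 - t : ℝ) : ℂ) * ((q : ℂ) * S)) := by
    unfold ci
    push_cast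
    have := Complex.I_mul_I
    linear_combination (-(q' : ℂ) * (b : ℂ)) * this
  rw [e1]
  refine (norm_add_le _ _).trans ?_
  refine (add_le_add (norm_add_le _ _) le_rfl).trans ?_
  have h4 : ‖(4 : ℂ)‖ = 4 := by norm_num
  rw [norm_mul, norm_neg, Complex.norm_I, one_mul, norm_mul, norm_mul, h4, norm_mul, norm_mul, h4, norm_mul,
    Complex.norm_intCast, Complex.norm_natCast, Complex.norm_real, Real.norm_eq_abs]
  have h1 : (q' : ℝ) * ‖(q : ℂ) * D - ci a b‖ ≤ q' * e := mul_le_mul_of_nonneg_left h (Nat.cast_nonneg _)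
  have h2 : |(t : ℝ)| * ‖(q : ℂ) * S - ci c d‖ ≤ |(t : ℝ)| * e := mul_le_mul_of_nonneg_left k (abs_nonneg _)
  have h3 : |(q' : ℝ) * Real.sqrt 3 - t| * ‖(q : ℂ) * S‖ ≤ δ * (M + e) :=
    mul_le_mul hT hS (norm_nonneg _) ((abs_nonneg _).trans hT)
  linarith

section

variable {n : ℕ} {q e : ℝ} {X Y : (ℕ → ℝ) → ℂ} {R T R' T' : ℕ → ℤ}

theorem LC.lin2 (h : LC n q X R T e) (k : LC n q Y R' T' e) {q'' e'' : ℝ} {κ μ : ℂ} {A B : ℕ → ℤ}
    {F : (ℕ → ℝ) → ℂ} (hF : ∀ v, v 0 = 1 → F v = κ * X v + μ * Y v)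
    (hc : ∀ x y : ℂ, ∀ i < n, CA q x (R i) (T i) e → CA q y (R' i) (T' i) e → CA q'' (κ * x + μ * y) (A i) (B i) e'') :
    LC n q'' F A B e'' :=
  (h.two k hc).congr hF (fun _ _ => rfl) (fun _ _ => rfl)

theorem LC.yC (h : LC n q X R T e) (k : LC n q Y R' T' e) (q' : ℕ) {t : ℤ} {δ M : ℝ}
    (hT : |(q' : ℝ) * Real.sqrt 3 - t| ≤ δ) (hM : ∀ i < n, ‖ci (R' i) (T' i)‖ ≤ M) :
    LC n (2 * q' * q) (fun v => (X v + Complex.I * (Real.sqrt 3 : ℝ) * Y v) / 2)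
      (fun i => q' * R i - t * T' i) (fun i => q' * T i + t * R' i) ((q' + |(t : ℝ)|) * e + δ * (M + e)) := by
  refine h.lin2 k (κ := 1 / 2) (μ := Complex.I * (Real.sqrt 3 : ℝ) / 2) (fun v _ => by ring) fun x y i hi hx hy => ?_
  have := CA_yC hx hy q' hT (hM i hi)
  have e1 : 1 / 2 * x + Complex.I * (Real.sqrt 3 : ℝ) / 2 * y = (x + Complex.I * (Real.sqrt 3 : ℝ) * y) / 2 := by ring
  rw [e1]
  exact this

theorem LC.zC (h : LC n q X R T e) (k : LC n q Y R' T' e) (q' : ℕ) {t : ℤ} {δ M : ℝ}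
    (hT : |(q' : ℝ) * Real.sqrt 3 - t| ≤ δ) (hM : ∀ i < n, ‖ci (R' i) (T' i)‖ ≤ M) :
    LC n (4 * q' * q) (fun v => (Real.sqrt 3 : ℝ) * Y v - Complex.I / 4 * X v)
      (fun i => 4 * (t * R' i) + q' * T i) (fun i => 4 * (t * T' i) - q' * R i)
      ((q' + 4 * |(t : ℝ)|) * e + 4 * δ * (M + e)) := by
  refine h.lin2 k (κ := -(Complex.I / 4)) (μ := (Real.sqrt 3 : ℝ)) (fun v _ => by ring) fun x y i hi hx hy => ?_
  have := CA_zC hx hy q' hT (hM i hi)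
  have e1 : -(Complex.I / 4) * x + (Real.sqrt 3 : ℝ) * y = (Real.sqrt 3 : ℝ) * y - Complex.I / 4 * x := by ring
  rw [e1]
  exact this

end

/-! ### the dense part of `Y`, `Z` from `D`, `S` -/

section

variable (c : CD) (N : ℕ) (p r s : ℤ → ℂ)

noncomputable def wDf (n : ℤ) : ℂ := wm c.P.eta (fun n => W1 c N p r s n - W2 c N p r s n) n
noncomputable def wSf (n : ℤ) : ℂ := wm c.P.eta (fun n => W1 c N p r s n + W2 c N p r s n) n

theorem dY_eq (n : ℤ) : sy (wm c.P.eta (fun n => om * W1 c N p r s n + om ^ 2 * W2 c N p r s n)) n =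
    sy (fun n => (wDf c N p r s n + Complex.I * (Real.sqrt 3 : ℝ) * wSf c N p r s n) / 2) n := by
  congr 1
  funext m
  unfold wDf wSf wm
  rw [om2_eq, om_eq]
  push_cast
  ring

theorem dZ_eq (n : ℤ) : sy (wm c.P.eta (fun n => (starRingEnd ℂ) (kq 2) * W1 c N p r s n + kq 2 * W2 c N p r s n)) n =
    sy (fun n => (Real.sqrt 3 : ℝ) * wSf c N p r s n - Complex.I / 4 * wDf c N p r s n) n := by
  congr 1
  funext m
  unfold wDf wSf wm
  rw [kq_conj, kq_eq]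
  ring

end

section

variable {c : CD} {K L M N : ℕ} {q e eE Hm : ℝ} {dH : ℕ} {h : ℕ → ℤ} {AR AT BR BT : ℤ → ℕ → ℤ}
  {aR aT bR bT : ℤ → ℤ}

/-- the rows of `wm (W1 + W2)` -/
theorem DP.S (d : DP c K L M N q e eE Hm dH h AR AT BR BT aR aT bR bT) {den : ℕ} {e1 e2 : ℤ}
    (hη : (den : ℂ) * c.P.eta = ci e1 e2) {k : ℤ} (hk : |k| + 2 ≤ N) :
    LC (nt K L) (den * (dH * q)) (fun v => wSf c M (pV K L v) (rV K L v) (sV K v) k)
      (wmR den e1 e2 (dS dH h AR BR aR bR) (dS dH h AT BT aT bT) k)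
      (wmT den e1 e2 (dS dH h AR BR aR bR) (dS dH h AT BT aT bT) k)
      ((den + 2 * (|(e1 : ℝ)| + |(e2 : ℝ)|)) * (2 * (dH * e + Hm * eE))) := by
  have g : ∀ n : ℤ, |n| ≤ N → LC (nt K L) (dH * q) (fun v => W1 c M (pV K L v) (rV K L v) (sV K v) n
        + W2 c M (pV K L v) (rV K L v) (sV K v) n) (dS dH h AR BR aR bR n) (dS dH h AT BT aT bT n)
        (2 * (dH * e + Hm * eE)) := by
    intro n hn
    refine (((d.w1 hn).add (d.w2 hn)).mono (by linarith)).congr (fun v _ => rfl) (fun i _ => ?_) (fun i _ => ?_) <;>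
    · unfold dS; ring
  obtain ⟨k1, k2⟩ := abs_two k
  exact LC_wm hη (A := fun v n => W1 c M (pV K L v) (rV K L v) (sV K v) n + W2 c M (pV K L v) (rV K L v) (sV K v) n)
    (g k (by linarith)) (g (k - 2) (by linarith)) (g (k + 2) (by linarith))

/-- the dense rows at the scale `q1` -/
structure DQ (c : CD) (K L M N : ℕ) (q1 E : ℝ) (DR DT SR ST : ℤ → ℕ → ℤ) : Prop where
  D : ∀ k : ℤ, |k| ≤ N → LC (nt K L) q1 (fun v => wDf c M (pV K L v) (rV K L v) (sV K v) k) (DR k) (DT k) E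
  S : ∀ k : ℤ, |k| ≤ N → LC (nt K L) q1 (fun v => wSf c M (pV K L v) (rV K L v) (sV K v) k) (SR k) (ST k) E

variable {q1 E : ℝ} {DR DT SR ST : ℤ → ℕ → ℤ}

theorem DQ.Y (d : DQ c K L M N q1 E DR DT SR ST) {q' : ℕ} {t : ℤ} {δ Mb : ℝ}
    (hT : |(q' : ℝ) * Real.sqrt 3 - t| ≤ δ)
    (hM : ∀ k : ℤ, |k| ≤ N → ∀ i < nt K L, ‖ci (SR k i) (ST k i)‖ ≤ Mb) {k : ℤ} (hk : |k| ≤ N) :
    LC (nt K L) (4 * q' * q1) (fun v => sy (wm c.P.eta (fun n =>
        om * W1 c M (pV K L v) (rV K L v) (sV K v) n + om ^ 2 * W2 c M (pV K L v) (rV K L v) (sV K v) n)) k)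
      (fun i => q' * (DR k i + DR (-k) i) - t * (ST k i + ST (-k) i))
      (fun i => q' * (DT k i - DT (-k) i) + t * (SR k i - SR (-k) i))
      (2 * ((q' + |(t : ℝ)|) * E + δ * (Mb + E))) := by
  have g : ∀ n : ℤ, |n| ≤ N → _ := fun n hn => (d.D n hn).yC (d.S n hn) q' hT (hM n hn)
  have hk' : |-k| ≤ N := by rwa [abs_neg]
  have := LC_sy (A := fun v n => (wDf c M (pV K L v) (rV K L v) (sV K v) n
      + Complex.I * (Real.sqrt 3 : ℝ) * wSf c M (pV K L v) (rV K L v) (sV K v) n) / 2)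
    (R := fun n i => q' * DR n i - t * ST n i) (T := fun n i => q' * DT n i + t * SR n i) (g k hk) (g (-k) hk')
  have e1 : 2 * (2 * (q' : ℝ) * q1) = 4 * q' * q1 := by ring
  rw [e1] at this
  exact this.congr (fun v _ => dY_eq c M _ _ _ k) (fun i _ => by ring) (fun i _ => by ring)

theorem DQ.Z (d : DQ c K L M N q1 E DR DT SR ST) {q' : ℕ} {t : ℤ} {δ Mb : ℝ}
    (hT : |(q' : ℝ) * Real.sqrt 3 - t| ≤ δ)
    (hM : ∀ k : ℤ, |k| ≤ N → ∀ i < nt K L, ‖ci (SR k i) (ST k i)‖ ≤ Mb) {k : ℤ} (hk : |k| ≤ N) :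
    LC (nt K L) (8 * q' * q1) (fun v => sy (wm c.P.eta (fun n => (starRingEnd ℂ) (kq 2) *
        W1 c M (pV K L v) (rV K L v) (sV K v) n + kq 2 * W2 c M (pV K L v) (rV K L v) (sV K v) n)) k)
      (fun i => 4 * (t * (SR k i + SR (-k) i)) + q' * (DT k i + DT (-k) i))
      (fun i => 4 * (t * (ST k i - ST (-k) i)) - q' * (DR k i - DR (-k) i))
      (2 * ((q' + 4 * |(t : ℝ)|) * E + 4 * δ * (Mb + E))) := by
  have g : ∀ n : ℤ, |n| ≤ N → _ := fun n hn => (d.D n hn).zC (d.S n hn) q' hT (hM n hn)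
  have hk' : |-k| ≤ N := by rwa [abs_neg]
  have := LC_sy (A := fun v n => (Real.sqrt 3 : ℝ) * wSf c M (pV K L v) (rV K L v) (sV K v) n
      - Complex.I / 4 * wDf c M (pV K L v) (rV K L v) (sV K v) n)
    (R := fun n i => 4 * (t * SR n i) + q' * DT n i) (T := fun n i => 4 * (t * ST n i) - q' * DR n i) (g k hk) (g (-k) hk')
  have e1 : 2 * (4 * (q' : ℝ) * q1) = 8 * q' * q1 := by ring
  rw [e1] at this
  exact this.congr (fun v _ => dZ_eq c M _ _ _ k) (fun i _ => by ring) (fun i _ => by ring)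

end

end Pool.Agent.Helper19.SH
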