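import Pool.Agent.Helper19.SH.ColC

/-!
# Project RC, SHARP, cell engine: the local part of the rows `Yr`, `Zr` of the collar
-/

set_option autoImplicit false

open Finset

namespace Pool.Agent.Helper19.SH

open Helper95.SH Helper95.RC
open Helper49.RC (om)
open Helper56.RC (fc)
open Pool.Agent.Helper64.SH

/-- hermitian arrays in the window `L` -/
structure Hm (L : ℕ) (p r : ℤ → ℂ) : Prop where
  sp : Sup L p
  sr : Sup L r
  hp : ∀ n, p (-n) = (starRingEnd ℂ) (p n)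
  hr : ∀ n, r (-n) = (starRingEnd ℂ) (r n)

section

variable {c : CD} {L : ℕ} {p r : ℤ → ℂ}

theorem Hm.p0 (h : Hm L p r) {n : ℤ} (hn : (L : ℤ) < n ∨ n < -(L : ℤ)) : p n = 0 :=
  h.sp n (by rw [Finset.mem_Icc]; omega)
theorem Hm.r0 (h : Hm L p r) {n : ℤ} (hn : (L : ℤ) < n ∨ n < -(L : ℤ)) : r n = 0 :=
  h.sr n (by rw [Finset.mem_Icc]; omega)

theorem al_far (h : Hm L p r) {n : ℤ} (hn : (L : ℤ) + 2 < n ∨ n < -(L : ℤ) - 2) : alA c.P p r n = 0 := by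
  unfold alA wm
  rw [h.p0 (by omega), h.p0 (n := n - 2) (by omega), h.p0 (n := n + 2) (by omega),
    h.r0 (by omega), h.r0 (n := n - 2) (by omega), h.r0 (n := n + 2) (by omega)]
  ring

theorem al_2 (h : Hm L p r) : alA c.P p r ((L : ℤ) + 2) = c.P.eta * p L + Complex.I / 2 * (c.P.eta * r L) := by
  unfold alA wm
  rw [h.p0 (by omega), h.p0 (n := (L : ℤ) + 2 + 2) (by omega), h.r0 (by omega), h.r0 (n := (L : ℤ) + 2 + 2) (by omega),
    add_sub_cancel_right]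
  ring

theorem al_0 (h : Hm L p r) : alA c.P p r L = p L + c.P.eta * p (L - 2)
    + Complex.I / 2 * (r L + c.P.eta * r (L - 2)) := by
  unfold alA wm
  rw [h.p0 (n := (L : ℤ) + 2) (by omega), h.r0 (n := (L : ℤ) + 2) (by omega)]
  ring

theorem al_m0 (h : Hm L p r) : alA c.P p r (-L) = (starRingEnd ℂ) (p L) + (starRingEnd ℂ) c.P.eta * (starRingEnd ℂ) (p (L - 2))
    + Complex.I / 2 * ((starRingEnd ℂ) (r L) + (starRingEnd ℂ) c.P.eta * (starRingEnd ℂ) (r (L - 2))) := by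
  unfold alA wm
  have e : (-(L : ℤ) + 2) = -((L : ℤ) - 2) := by ring
  rw [h.p0 (n := -(L : ℤ) - 2) (by omega), h.r0 (n := -(L : ℤ) - 2) (by omega), e, h.hp, h.hp, h.hr, h.hr]
  ring

theorem al_m2 (h : Hm L p r) : alA c.P p r (-((L : ℤ) + 2)) = (starRingEnd ℂ) c.P.eta * (starRingEnd ℂ) (p L)
    + Complex.I / 2 * ((starRingEnd ℂ) c.P.eta * (starRingEnd ℂ) (r L)) := by
  unfold alA wm
  have e : (-((L : ℤ) + 2) + 2) = -(L : ℤ) := by ring
  rw [h.p0 (n := -((L : ℤ) + 2)) (by omega), h.p0 (n := -((L : ℤ) + 2) - 2) (by omega),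
    h.r0 (n := -((L : ℤ) + 2)) (by omega), h.r0 (n := -((L : ℤ) + 2) - 2) (by omega), e, h.hp, h.hr]
  ring

/-- the band operator of `gL` at `± (L + 2)`, `± (L + 4)` -/
theorem wg_2 (h : Hm L p r) : wm c.P.eta (gL c p r) ((L : ℤ) + 2) =
    (c.P.eta * p L + Complex.I / 2 * (c.P.eta * r L)) / ((L : ℂ) + 3)
    + c.P.eta * ((p L + c.P.eta * p (L - 2) + Complex.I / 2 * (r L + c.P.eta * r (L - 2))) / ((L : ℂ) + 1)) := by
  unfold wm gL
  rw [al_2 h, al_far h (n := (L : ℤ) + 2 + 2) (by omega), add_sub_cancel_right, al_0 h]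
  push_cast
  rw [show ((L : ℂ) + 2 + 1) = (L : ℂ) + 3 by ring]
  ring

theorem wg_4 (h : Hm L p r) : wm c.P.eta (gL c p r) ((L : ℤ) + 4) =
    c.P.eta * ((c.P.eta * p L + Complex.I / 2 * (c.P.eta * r L)) / ((L : ℂ) + 3)) := by
  unfold wm gL
  have e : ((L : ℤ) + 4 - 2) = (L : ℤ) + 2 := by ring
  rw [al_far h (n := (L : ℤ) + 4) (by omega), al_far h (n := (L : ℤ) + 4 + 2) (by omega), e, al_2 h]
  push_cast
  rw [show ((L : ℂ) + 2 + 1) = (L : ℂ) + 3 by ring]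
  ring

theorem wg_m2 (h : Hm L p r) : (starRingEnd ℂ) (wm c.P.eta (gL c p r) (-((L : ℤ) + 2))) =
    -((c.P.eta * p L - Complex.I / 2 * (c.P.eta * r L)) / ((L : ℂ) + 1))
    - c.P.eta * ((p L + c.P.eta * p (L - 2) - Complex.I / 2 * (r L + c.P.eta * r (L - 2))) / ((L : ℂ) - 1)) := by
  unfold wm gL
  have e : (-((L : ℤ) + 2) + 2) = -(L : ℤ) := by ring
  rw [al_m2 h, al_far h (n := -((L : ℤ) + 2) - 2) (by omega), e, al_m0 h]
  simp only [map_add, map_mul, map_div₀, map_sub, Complex.conj_conj, Complex.conj_I, map_intCast, map_one, map_ofNat,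
    zero_div, mul_zero, add_zero, map_zero]
  push_cast
  rw [show (-((L : ℂ) + 2) + 1) = -((L : ℂ) + 1) by ring, show (-(L : ℂ) + 1) = -((L : ℂ) - 1) by ring, div_neg, div_neg]
  ring

theorem wg_m4 (h : Hm L p r) : (starRingEnd ℂ) (wm c.P.eta (gL c p r) (-((L : ℤ) + 4))) =
    -(c.P.eta * ((c.P.eta * p L - Complex.I / 2 * (c.P.eta * r L)) / ((L : ℂ) + 1))) := by
  unfold wm gL
  have e : (-((L : ℤ) + 4) + 2) = -((L : ℤ) + 2) := by ring
  rw [al_far h (n := -((L : ℤ) + 4)) (by omega), al_far h (n := -((L : ℤ) + 4) - 2) (by omega), e, al_m2 h]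
  simp only [map_add, map_mul, map_div₀, map_sub, Complex.conj_conj, Complex.conj_I, map_intCast, map_one, map_ofNat,
    zero_div, mul_zero, add_zero, map_zero, zero_add]
  push_cast
  rw [show (-((L : ℂ) + 2) + 1) = -((L : ℂ) + 1) by ring, div_neg]
  ring

theorem wg_far (h : Hm L p r) {n : ℤ} (hn : (L : ℤ) + 4 < n ∨ n < -(L : ℤ) - 4) : wm c.P.eta (gL c p r) n = 0 := by
  unfold wm gL
  rw [al_far h (n := n) (by omega), al_far h (n := n - 2) (by omega), al_far h (n := n + 2) (by omega)]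
  simp

/-! ### the coefficients -/

/-- common denominator -/
def Dn (L den : ℕ) : ℤ := 8 * (den * den) * ((L + 3) * (L + 1) * (L - 1))

/-- numerators of the factors `η / ..`, `η² / ..` -/
def tA (L : ℕ) : ℤ := ((L : ℤ) + 1) * (L - 1) + 2 * ((L + 3) * (L - 1)) + (L + 3) * (L + 1)
def tB (L : ℕ) : ℤ := ((L : ℤ) + 3) * (L - 1) + (L + 3) * (L + 1)
def tC (L : ℕ) : ℤ := ((L : ℤ) + 1) * (L - 1) + (L + 3) * (L - 1)

theorem Dn_pos {L den : ℕ} (hL : 4 ≤ L) (hd : 0 < den) : 0 < Dn L den := by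
  unfold Dn
  have h1 : (0 : ℤ) < den := by exact_mod_cast hd
  have h2 : (0 : ℤ) < (L : ℤ) - 1 := by omega
  positivity

theorem denL {L : ℕ} (hL : 4 ≤ L) : ((L : ℂ) + 3 ≠ 0) ∧ ((L : ℂ) + 1 ≠ 0) ∧ ((L : ℂ) - 1 ≠ 0) := by
  refine ⟨?_, ?_, ?_⟩
  · have : ((L + 3 : ℕ) : ℂ) ≠ 0 := by exact_mod_cast (by omega : L + 3 ≠ 0)
    push_cast at this; exact this
  · have : ((L + 1 : ℕ) : ℂ) ≠ 0 := by exact_mod_cast (by omega : L + 1 ≠ 0)
    push_cast at this; exact this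
  · intro h
    have h1 : (L : ℂ) = ((1 : ℕ) : ℂ) := by rw [Nat.cast_one]; linear_combination h
    have h2 : L = 1 := by exact_mod_cast h1
    omega

/-- the coefficients of `p L`, `p (L - 2)`, `r L`, `r (L - 2)` -/
noncomputable def yc (L : ℕ) (η : ℂ) : Fin 4 → ℂ :=
  ![-2 * η / (((L : ℂ) + 3) * ((L : ℂ) - 1)), -η ^ 2 / (((L : ℂ) + 1) * ((L : ℂ) - 1)),
    Complex.I / 4 * η * (1 / ((L : ℂ) + 3) + 2 / ((L : ℂ) + 1) + 1 / ((L : ℂ) - 1)),
    Complex.I / 4 * η ^ 2 * (1 / ((L : ℂ) + 1) + 1 / ((L : ℂ) - 1))]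
noncomputable def yc4 (L : ℕ) (η : ℂ) : Fin 2 → ℂ :=
  ![-η ^ 2 / (((L : ℂ) + 3) * ((L : ℂ) + 1)), Complex.I / 4 * η ^ 2 * (1 / ((L : ℂ) + 3) + 1 / ((L : ℂ) + 1))]
noncomputable def zc (L : ℕ) (η : ℂ) : Fin 4 → ℂ :=
  ![-(Complex.I / 4) * η * (1 / ((L : ℂ) + 3) + 2 / ((L : ℂ) + 1) + 1 / ((L : ℂ) - 1)),
    -(Complex.I / 4) * η ^ 2 * (1 / ((L : ℂ) + 1) + 1 / ((L : ℂ) - 1)),
    -η / (2 * (((L : ℂ) + 3) * ((L : ℂ) - 1))), -η ^ 2 / (4 * (((L : ℂ) + 1) * ((L : ℂ) - 1)))]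
noncomputable def zc4 (L : ℕ) (η : ℂ) : Fin 2 → ℂ :=
  ![-(Complex.I / 4) * η ^ 2 * (1 / ((L : ℂ) + 3) + 1 / ((L : ℂ) + 1)), -η ^ 2 / (4 * (((L : ℂ) + 3) * ((L : ℂ) + 1)))]

theorem sy_g2 (hL : 4 ≤ L) (h : Hm L p r) : sy (wm c.P.eta (gL c p r)) ((L : ℤ) + 2) =
    yc L c.P.eta 0 * p L + yc L c.P.eta 1 * p (L - 2) + yc L c.P.eta 2 * r L + yc L c.P.eta 3 * r (L - 2) := by
  obtain ⟨d1, d2, d3⟩ := denL hL
  unfold sy
  rw [wg_2 h, wg_m2 h]
  simp only [yc, Matrix.cons_val]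
  field_simp
  ring

theorem sy_g4 (hL : 4 ≤ L) (h : Hm L p r) : sy (wm c.P.eta (gL c p r)) ((L : ℤ) + 4) =
    yc4 L c.P.eta 0 * p L + yc4 L c.P.eta 1 * r L := by
  obtain ⟨d1, d2, d3⟩ := denL hL
  unfold sy
  rw [wg_4 h, wg_m4 h]
  simp only [yc4, Matrix.cons_val]
  field_simp
  ring

theorem sy_z2 (hL : 4 ≤ L) (h : Hm L p r) : sy (wm c.P.eta (fun n => -(Complex.I / 2) * gL c p r n)) ((L : ℤ) + 2) =
    zc L c.P.eta 0 * p L + zc L c.P.eta 1 * p (L - 2) + zc L c.P.eta 2 * r L + zc L c.P.eta 3 * r (L - 2) := by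
  obtain ⟨d1, d2, d3⟩ := denL hL
  have e1 : ∀ n, wm c.P.eta (fun n => -(Complex.I / 2) * gL c p r n) n = -(Complex.I / 2) * wm c.P.eta (gL c p r) n := by
    intro n; unfold wm; ring
  unfold sy
  rw [e1, e1, wg_2 h, map_mul, wg_m2 h]
  simp only [zc, Matrix.cons_val, map_neg, map_div₀, Complex.conj_I, map_ofNat]
  have hI : Complex.I ^ 2 = -1 := Complex.I_sq
  field_simp
  ring_nf
  simp only [hI]
  ring

theorem sy_z4 (hL : 4 ≤ L) (h : Hm L p r) : sy (wm c.P.eta (fun n => -(Complex.I / 2) * gL c p r n)) ((L : ℤ) + 4) =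
    zc4 L c.P.eta 0 * p L + zc4 L c.P.eta 1 * r L := by
  obtain ⟨d1, d2, d3⟩ := denL hL
  have e1 : ∀ n, wm c.P.eta (fun n => -(Complex.I / 2) * gL c p r n) n = -(Complex.I / 2) * wm c.P.eta (gL c p r) n := by
    intro n; unfold wm; ring
  unfold sy
  rw [e1, e1, wg_4 h, map_mul, wg_m4 h]
  simp only [zc4, Matrix.cons_val, map_neg, map_div₀, Complex.conj_I, map_ofNat]
  have hI : Complex.I ^ 2 = -1 := Complex.I_sq
  field_simp
  ring_nf
  simp only [hI]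
  ring

theorem sy_gfar (h : Hm L p r) {n : ℤ} (hn : (L : ℤ) + 4 < n) : sy (wm c.P.eta (gL c p r)) n = 0 := by
  unfold sy
  rw [wg_far h (Or.inl hn), wg_far h (Or.inr (by omega))]
  simp

theorem sy_zfar (h : Hm L p r) {n : ℤ} (hn : (L : ℤ) + 4 < n) :
    sy (wm c.P.eta (fun n => -(Complex.I / 2) * gL c p r n)) n = 0 := by
  have e1 : ∀ n, wm c.P.eta (fun n => -(Complex.I / 2) * gL c p r n) n = -(Complex.I / 2) * wm c.P.eta (gL c p r) n := by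
    intro n; unfold wm; ring
  unfold sy
  rw [e1, e1, wg_far h (Or.inl hn), wg_far h (Or.inr (by omega))]
  simp

end

end Pool.Agent.Helper19.SH
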