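import Pool.Agent.Helper19.SH.ColD

/-!
# Project RC, SHARP, cell engine: packed evaluation of the dense rows
-/

set_option autoImplicit false

open Finset

namespace Pool.Agent.Helper19.SH

open Helper95.SH Helper95.RC
open Pool.Agent.Helper64.SH
open Helper54.RC.Fast (FP len wf dg of)
open Pool.Agent.Helper31.KcF (dgI)

/-! ### packed band operator -/

def wxP (B2 B4 den e1 e2 x y : ℤ) : ℤ :=
  Int.add (Int.add (Int.mul (Int.mul den B2) x) (Int.mul B4 (Int.sub (Int.mul e1 x) (Int.mul e2 y))))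
    (Int.add (Int.mul e1 x) (Int.mul e2 y))
def wyP (B2 B4 den e1 e2 x y : ℤ) : ℤ :=
  Int.add (Int.add (Int.mul (Int.mul den B2) y) (Int.mul B4 (Int.add (Int.mul e1 y) (Int.mul e2 x))))
    (Int.sub (Int.mul e1 y) (Int.mul e2 x))

theorem wxP_eq (B2 B4 den e1 e2 x y : ℤ) : wxP B2 B4 den e1 e2 x y =
    den * B2 * x + B4 * (e1 * x - e2 * y) + (e1 * x + e2 * y) := rfl
theorem wyP_eq (B2 B4 den e1 e2 x y : ℤ) : wyP B2 B4 den e1 e2 x y =
    den * B2 * y + B4 * (e1 * y + e2 * x) + (e1 * y - e2 * x) := rfl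

/-- powers of the base -/
def Bp (b d : ℕ) : ℤ := Int.ofNat (Nat.pow 2 (Nat.mul (Nat.succ b) d))

theorem Bp_eq (b d : ℕ) : Bp b d = (2 ^ (b + 1)) ^ d := by
  unfold Bp
  show (((2 ^ ((b + 1) * d) : ℕ)) : ℤ) = _
  push_cast
  rw [pow_mul]

section

variable {b N : ℕ} {x y : ℤ} {R T : ℤ → ℤ}

theorem PkN.up2 (h : PkN b N x R) (h0 : ∀ n, n < -(N : ℤ) ∨ (N : ℤ) < n → R n = 0) :
    PkN b (N + 2) (Bp b 2 * x) R := by
  have := h.sh h0 (M := N + 2) 2 (by omega)
  rw [Bp_eq]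
  refine this.congr fun n => ?_
  congr 1
  push_cast
  ring

theorem PkN.sp (h : PkN b N x R) (h0 : ∀ n, n < -(N : ℤ) ∨ (N : ℤ) < n → R n = 0) :
    PkN b (N + 2) (Bp b 4 * x) (fun n => R (n - 2)) := by
  have := h.sh h0 (M := N + 2) 4 (by omega)
  rw [Bp_eq]
  refine this.congr fun n => ?_
  congr 1
  push_cast
  ring

theorem PkN.sm (h : PkN b N x R) (h0 : ∀ n, n < -(N : ℤ) ∨ (N : ℤ) < n → R n = 0) :
    PkN b (N + 2) x (fun n => R (n + 2)) := by
  have := h.sh h0 (M := N + 2) 0 (by omega)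
  rw [pow_zero, one_mul] at this
  refine this.congr fun n => ?_
  congr 1
  push_cast
  ring

theorem PkN.wx (h : PkN b N x R) (k : PkN b N y T) (h0 : ∀ n, n < -(N : ℤ) ∨ (N : ℤ) < n → R n = 0)
    (k0 : ∀ n, n < -(N : ℤ) ∨ (N : ℤ) < n → T n = 0) (den e1 e2 : ℤ) :
    PkN b (N + 2) (wxP (Bp b 2) (Bp b 4) den e1 e2 x y)
      (fun n => den * R n + (e1 * R (n - 2) - e2 * T (n - 2)) + (e1 * R (n + 2) + e2 * T (n + 2))) := by
  have h1 := (h.up2 h0).smul den
  have h2 := ((h.sp h0).smul e1).sub ((k.sp k0).smul e2)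
  have h3 := ((h.sm h0).smul e1).add ((k.sm k0).smul e2)
  have h4 := (h1.add h2).add h3
  rw [wxP_eq]
  have e : den * Bp b 2 * x + Bp b 4 * (e1 * x - e2 * y) + (e1 * x + e2 * y) =
      den * (Bp b 2 * x) + (e1 * (Bp b 4 * x) - e2 * (Bp b 4 * y)) + (e1 * x + e2 * y) := by ring
  rw [e]
  exact h4

theorem PkN.wy (h : PkN b N x R) (k : PkN b N y T) (h0 : ∀ n, n < -(N : ℤ) ∨ (N : ℤ) < n → R n = 0)
    (k0 : ∀ n, n < -(N : ℤ) ∨ (N : ℤ) < n → T n = 0) (den e1 e2 : ℤ) :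
    PkN b (N + 2) (wyP (Bp b 2) (Bp b 4) den e1 e2 x y)
      (fun n => den * T n + (e1 * T (n - 2) + e2 * R (n - 2)) + (e1 * T (n + 2) - e2 * R (n + 2))) := by
  have h1 := (k.up2 k0).smul den
  have h2 := ((k.sp k0).smul e1).add ((h.sp h0).smul e2)
  have h3 := ((k.sm k0).smul e1).sub ((h.sm h0).smul e2)
  have h4 := (h1.add h2).add h3
  rw [wyP_eq]
  have e : den * Bp b 2 * y + Bp b 4 * (e1 * y + e2 * x) + (e1 * y - e2 * x) =
      den * (Bp b 2 * y) + (e1 * (Bp b 4 * y) + e2 * (Bp b 4 * x)) + (e1 * y - e2 * x) := by ring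
  rw [e]
  exact h4

end

/-! ### packing the output -/

/-- digit in the format of helper25 -/
def encD (b : ℕ) (d : ℤ) : ℕ := Int.toNat (Int.add d (Int.ofNat (Nat.pow 2 b)))

/-- packed number of the digits `f c, f (c + 1), .., f (c + n - 1)` -/
def pkF (b : ℕ) (f : ℕ → ℤ) : ℕ → ℕ → ℕ
  | _, 0 => 0
  | c, n + 1 => Nat.add (encD b (f c)) (Nat.mul (Nat.pow 2 (Nat.succ b)) (pkF b f (Nat.succ c) n))

theorem encD_eq {b : ℕ} {d : ℤ} (h : |d| < 2 ^ b) : ((encD b d : ℕ) : ℤ) = d + 2 ^ b := by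
  unfold encD
  have h1 := abs_lt.1 h
  have e : Int.add d (Int.ofNat (Nat.pow 2 b)) = d + 2 ^ b := by
    show d + ((2 ^ b : ℕ) : ℤ) = _
    push_cast
    rfl
  rw [e]
  exact Int.toNat_of_nonneg (by linarith)

theorem encD_lt {b : ℕ} {d : ℤ} (h : |d| < 2 ^ b) : encD b d < 2 ^ (b + 1) := by
  have h1 := encD_eq h
  have h2 := abs_lt.1 h
  have h3 : ((encD b d : ℕ) : ℤ) < ((2 ^ (b + 1) : ℕ) : ℤ) := by
    rw [h1]
    push_cast
    rw [pow_succ]
    linarith
  exact_mod_cast h3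

theorem pkF_eq (b : ℕ) (f : ℕ → ℤ) (c n : ℕ) :
    pkF b f c n = ∑ j ∈ range n, encD b (f (c + j)) * (2 ^ (b + 1)) ^ j := by
  induction n generalizing c with
  | zero => rfl
  | succ n ih =>
    rw [sum_range_succ', pow_zero, mul_one, add_zero]
    show encD b (f c) + 2 ^ (b + 1) * pkF b f (c + 1) n = _
    rw [ih, mul_sum, add_comm]
    congr 1
    refine sum_congr rfl fun j _ => ?_
    have e : c + 1 + j = c + (j + 1) := by ring
    rw [e, pow_succ]
    ring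

/-- the signed digit `c` of a packed number, written with division -/
theorem dg_pkF (b : ℕ) (f : ℕ → ℤ) (n : ℕ) (h : ∀ c < n, |f c| < 2 ^ b) {c : ℕ} (hc : c < n) :
    ((pkF b f 0 n / (2 ^ (b + 1)) ^ c % 2 ^ (b + 1) : ℕ) : ℤ) - ((2 ^ b : ℕ) : ℤ) = f c := by
  have h1 : pkF b f 0 n / (2 ^ (b + 1)) ^ c % 2 ^ (b + 1) = dg b c (pkF b f 0 n) := by
    show _ = (pkF b f 0 n) >>> ((b + 1) * c) % 2 ^ (b + 1)
    rw [Nat.shiftRight_eq_div_pow, pow_mul]
  have h2 : pkF b f 0 n = ∑ j ∈ range n, (fun j => encD b (if j < n then f j else 0)) j * (2 ^ (b + 1)) ^ j := by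
    rw [pkF_eq]
    refine sum_congr rfl fun j hj => ?_
    rw [mem_range] at hj
    simp only [zero_add, if_pos hj]
  have h3 : ∀ j, |if j < n then f j else 0| < 2 ^ b := by
    intro j
    by_cases hj : j < n
    · rw [if_pos hj]; exact h j hj
    · rw [if_neg hj, abs_zero]; positivity
  rw [h1, h2, dg_sum b n (fun j => encD b (if j < n then f j else 0)) (fun j => encD_lt (h3 j)) c hc,
    encD_eq (h3 c), if_pos hc]
  push_cast
  ring

/-- the list of the columns -/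
def colL (g : ℕ → ℕ) : ℕ → ℕ → List ℕ
  | _, 0 => []
  | i, n + 1 => g i :: colL g (Nat.succ i) n

theorem colL_get (g : ℕ → ℕ) (i n j : ℕ) (h : j < n) : (colL g i n).getD j 0 = g (i + j) := by
  induction n generalizing i j with
  | zero => omega
  | succ n ih =>
    rcases j with _ | j
    · rfl
    · show (colL g (i + 1) n).getD j 0 = _
      rw [ih (i + 1) j (by omega)]
      congr 1
      ring

theorem colL_len (g : ℕ → ℕ) (i n : ℕ) : (colL g i n).length = n := by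
  induction n generalizing i with
  | zero => rfl
  | succ n ih => show (colL g (i + 1) n).length + 1 = _; rw [ih]

/-! ### rounding: sizes and errors -/

theorem rd_abs (A : ℕ) {C : ℤ} (hC : 0 < C) {x : ℤ} {D : ℕ} (hx : |x| ≤ D) :
    |rd A C x| ≤ ((A * D / C.toNat + 1 : ℕ) : ℤ) := by
  have h1 := rd_le (A : ℤ) hC x
  have hC' : (0 : ℝ) < C := by exact_mod_cast hC
  have hCn : ((C.toNat : ℕ) : ℤ) = C := Int.toNat_of_nonneg hC.le
  have hx' : |(x : ℝ)| ≤ D := by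
    have : ((|x| : ℤ) : ℝ) ≤ ((D : ℤ) : ℝ) := by exact_mod_cast hx
    push_cast at this
    exact this
  have h2 : |(rd A C x : ℝ)| ≤ (A : ℝ) / C * D + 1 := by
    have e : (rd A C x : ℝ) = (A : ℝ) / C * x - ((A : ℝ) / C * x - rd A C x) := by ring
    rw [e]
    refine (abs_sub _ _).trans (add_le_add ?_ (by exact_mod_cast h1))
    rw [abs_mul, abs_of_nonneg (by positivity : (0 : ℝ) ≤ (A : ℝ) / C)]
    exact mul_le_mul_of_nonneg_left hx' (by positivity)
  have h5 := Nat.lt_div_mul_add (a := A * D) (b := C.toNat) (by omega)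
  have h6 : A * D < (A * D / C.toNat + 1) * C.toNat := by
    rw [add_mul, one_mul]; exact h5
  set m := A * D / C.toNat with hm
  have h7 : ((A * D : ℕ) : ℤ) < (((m + 1) * C.toNat : ℕ) : ℤ) := by exact_mod_cast h6
  rw [Nat.cast_mul (m + 1), hCn] at h7
  have h8 : (((A * D : ℕ) : ℤ) : ℝ) < ((((m + 1 : ℕ) : ℤ) * C : ℤ) : ℝ) := Int.cast_lt.2 h7
  push_cast at h8
  have h9 : (A : ℝ) / C * D < m + 1 := by
    rw [div_mul_eq_mul_div, div_lt_iff₀ hC']
    exact h8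
  have h10 : ((|rd A C x| : ℤ) : ℝ) < (((m + 1 + 1 : ℕ) : ℤ) : ℝ) := by
    push_cast
    linarith
  have h11 := Int.cast_lt.1 h10
  push_cast at h11 ⊢
  linarith

/-- upper bound of `A / C x` -/
def ceD (A C x : ℕ) : ℕ := Nat.succ (Nat.div (Nat.mul A x) C)

theorem ceD_le {A C : ℕ} (hC : 0 < C) (x : ℕ) : (A : ℝ) / C * x ≤ ceD A C x := by
  have h5 : A * x < (A * x / C + 1) * C := by
    have := Nat.lt_div_mul_add (a := A * x) (b := C) hC
    rw [add_mul, one_mul]; exact this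
  have hC' : (0 : ℝ) < C := by exact_mod_cast hC
  rw [div_mul_eq_mul_div, div_le_iff₀ hC']
  unfold ceD
  show (A : ℝ) * x ≤ ((A * x / C + 1 : ℕ) : ℝ) * C
  exact_mod_cast h5.le

end Pool.Agent.Helper19.SH
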