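import Pool.Agent.Helper19.SH.ColF

/-!
# Project RC, SHARP, cell engine: THE COLLAR BLOCK, packed columns of `Xr`, `Yr`, `Zr`

`CIn`: the inputs. `CIn.XC, CIn.YC, CIn.ZC : List ℕ`: packed columns (digit `c` of the number of the coordinate `i`, base
`2 ^ (bo + 1)`, offset `2 ^ bo`): `4 J1` functionals `Re, Im Xr (K + 2 + 2 j)`, `Re, Im Xr (-(K + 2 + 2 j))`, resp. `2 J2`
functionals `Re, Im Yr (L + 2 + 2 j)` at the scale `2 ^ S`.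
-/

set_option autoImplicit false

open Finset

namespace Pool.Agent.Helper19.SH

open Helper95.SH Helper95.RC
open Helper49.RC (om)
open Helper56.RC (fc)
open Pool.Agent.Helper64.SH
open Helper54.RC.Fast (FP len wf dg of)
open Pool.Agent.Helper31.KcF (dgI)

/-- the inputs of the block -/
structure CIn where
  /-- digits of `gA, gB, E1, E2`; of `Gf`; of the constants; of the output -/
  b : ℕ
  bG : ℕ
  bK : ℕ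
  bo : ℕ
  /-- window of `gA, gB, E1, E2` -/
  N : ℕ
  K : ℕ
  L : ℕ
  J1 : ℕ
  J2 : ℕ
  /-- `eta = (e1 + i e2) / den` -/
  den : ℕ
  e1 : ℤ
  e2 : ℤ
  /-- `√3 = t / q'` -/
  q' : ℕ
  t : ℕ
  /-- denominator of `H0A + lam` -/
  dH : ℕ
  /-- scales: inputs, intermediate, output (exponents) -/
  s : ℕ
  S1 : ℕ
  S : ℕ
  h : ℕ → ℤ
  zA : ℕ → FP
  zB : ℕ → FP
  zE1 : FP
  zE2 : FP
  kX : FP
  kY : FP
  kZ : FP
  gG : FP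
  qG : ℕ
  /-- `9 - cs - p2 (m - lam) = aY / dA`, `9 - cs - p3 (m - lam) = aZ / dA` -/
  aY : ℤ
  aZ : ℤ
  dA : ℕ
  /-- bounds of the digits -/
  D : ℕ
  DE : ℕ
  DG : ℕ
  DK : ℕ
  Hm : ℕ
  /-- errors -/
  e : ℕ
  eE : ℕ
  eK : ℕ

/-! ### local lists -/

def lcR : List (ℕ × ℤ × ℤ) → ℕ → ℤ
  | [], _ => 0
  | (j, a, b) :: l, i => Int.add (ptR j a b i) (lcR l i)
def lcT : List (ℕ × ℤ × ℤ) → ℕ → ℤ
  | [], _ => 0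
  | (j, a, b) :: l, i => Int.add (ptT j a b i) (lcT l i)
def lcA : List (ℕ × ℤ × ℤ) → ℕ
  | [] => 0
  | (_, a, b) :: l => Nat.add (Nat.add a.natAbs b.natAbs) (lcA l)

theorem ptR_le (j : ℕ) (a b : ℤ) (i : ℕ) : |ptR j a b i| ≤ ((a.natAbs + b.natAbs : ℕ) : ℤ) := by
  unfold ptR
  split_ifs
  · push_cast; rw [← Int.natCast_natAbs a] at *; have := abs_nonneg b; omega
  · rw [abs_neg]; push_cast; have := abs_nonneg a; omega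
  · rw [abs_zero]; positivity
theorem ptT_le (j : ℕ) (a b : ℤ) (i : ℕ) : |ptT j a b i| ≤ ((a.natAbs + b.natAbs : ℕ) : ℤ) := by
  unfold ptT
  split_ifs
  · push_cast; have := abs_nonneg a; omega
  · push_cast; have := abs_nonneg b; omega
  · rw [abs_zero]; positivity

theorem lcR_le (l : List (ℕ × ℤ × ℤ)) (i : ℕ) : |lcR l i| ≤ (lcA l : ℤ) := by
  induction l with
  | nil => simp [lcR, lcA]
  | cons x l ih =>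
    obtain ⟨j, a, b⟩ := x
    show |ptR j a b i + lcR l i| ≤ ((a.natAbs + b.natAbs + lcA l : ℕ) : ℤ)
    have := ptR_le j a b i
    push_cast at this ⊢
    exact (abs_add_le _ _).trans (by linarith)
theorem lcT_le (l : List (ℕ × ℤ × ℤ)) (i : ℕ) : |lcT l i| ≤ (lcA l : ℤ) := by
  induction l with
  | nil => simp [lcT, lcA]
  | cons x l ih =>
    obtain ⟨j, a, b⟩ := x
    show |ptT j a b i + lcT l i| ≤ ((a.natAbs + b.natAbs + lcA l : ℕ) : ℤ)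
    have := ptT_le j a b i
    push_cast at this ⊢
    exact (abs_add_le _ _).trans (by linarith)

namespace CIn

variable (I : CIn)

/-! ### the dense part, packed per coordinate -/

def dx (i : ℕ) : ℤ := Int.add (Int.mul (Int.ofNat I.dH) (Int.sub (sgn I.b I.N (I.zA i).x) (sgn I.b I.N (I.zB i).x)))
  (Int.mul (I.h i) (Int.sub (sgn I.b I.N I.zE1.x) (sgn I.b I.N I.zE2.x)))
def dy (i : ℕ) : ℤ := Int.add (Int.mul (Int.ofNat I.dH) (Int.sub (sgn I.b I.N (I.zA i).y) (sgn I.b I.N (I.zB i).y)))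
  (Int.mul (I.h i) (Int.sub (sgn I.b I.N I.zE1.y) (sgn I.b I.N I.zE2.y)))
def sx (i : ℕ) : ℤ := Int.add (Int.mul (Int.ofNat I.dH) (Int.add (sgn I.b I.N (I.zA i).x) (sgn I.b I.N (I.zB i).x)))
  (Int.mul (I.h i) (Int.add (sgn I.b I.N I.zE1.x) (sgn I.b I.N I.zE2.x)))
def syy (i : ℕ) : ℤ := Int.add (Int.mul (Int.ofNat I.dH) (Int.add (sgn I.b I.N (I.zA i).y) (sgn I.b I.N (I.zB i).y)))
  (Int.mul (I.h i) (Int.add (sgn I.b I.N I.zE1.y) (sgn I.b I.N I.zE2.y)))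

/-- natural number with the offset -/
def nat (x : ℤ) : ℕ := Int.toNat (Int.add x (Int.ofNat (of I.b (len (Nat.add I.N 2)))))
def nDx (i : ℕ) : ℕ := I.nat (wxP (Bp I.b 2) (Bp I.b 4) (Int.ofNat I.den) I.e1 I.e2 (I.dx i) (I.dy i))
def nDy (i : ℕ) : ℕ := I.nat (wyP (Bp I.b 2) (Bp I.b 4) (Int.ofNat I.den) I.e1 I.e2 (I.dx i) (I.dy i))
def nSx (i : ℕ) : ℕ := I.nat (wxP (Bp I.b 2) (Bp I.b 4) (Int.ofNat I.den) I.e1 I.e2 (I.sx i) (I.syy i))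
def nSy (i : ℕ) : ℕ := I.nat (wyP (Bp I.b 2) (Bp I.b 4) (Int.ofNat I.den) I.e1 I.e2 (I.sx i) (I.syy i))

/-- denominator of the dense part -/
def C1 : ℕ := Nat.mul I.den (Nat.mul I.dH (Nat.pow 2 I.s))

/-! ### the local part of `X`, packed per coordinate -/

def u (i : ℕ) : ℕ := Nat.mul 2 (Nat.div (Nat.sub i 1) 2)
def g1 (i : ℕ) : ℤ := Bp I.bG (Nat.add (Nat.mul 2 I.J1) (u i))
def g2 (i : ℕ) : ℤ := Bp I.bG (Nat.sub (Nat.add (Nat.mul 2 I.J1) (Nat.mul 2 I.K)) (u i))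
def N2 : ℕ := Nat.add (Nat.add I.K I.gG.N) (Nat.mul 2 I.J1)
def lx (i : ℕ) : ℤ :=
  bif Nat.beq (Nat.mod (Nat.sub i 1) 2) 0 then
    Int.mul (Int.add (Int.mul 2 (I.g1 i)) (I.g2 i)) (sgn I.bG I.gG.N I.gG.x)
  else Int.mul (Int.sub (I.g2 i) (Int.mul 2 (I.g1 i))) (sgn I.bG I.gG.N I.gG.y)
def ly (i : ℕ) : ℤ :=
  bif Nat.beq (Nat.mod (Nat.sub i 1) 2) 0 then
    Int.mul (Int.add (Int.mul 2 (I.g1 i)) (I.g2 i)) (sgn I.bG I.gG.N I.gG.y)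
  else Int.mul (Int.sub (Int.mul 2 (I.g1 i)) (I.g2 i)) (sgn I.bG I.gG.N I.gG.x)
def natG (x : ℤ) : ℕ := Int.toNat (Int.add x (Int.ofNat (of I.bG (len I.N2))))
def nLx (i : ℕ) : ℕ := I.natG (I.lx i)
def nLy (i : ℕ) : ℕ := I.natG (I.ly i)

/-! ### entries of `X` -/

/-- the frequency of the functional `c` -/
def kkX (c : ℕ) : ℤ := if c % 4 ≤ 1 then (I.K : ℤ) + 2 + 2 * ((c / 4 : ℕ) : ℤ) else -((I.K : ℤ) + 2 + 2 * ((c / 4 : ℕ) : ℤ))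
/-- position of the frequency in a window `W` -/
def posX (W c : ℕ) : ℕ :=
  bif Nat.ble (Nat.mod c 4) 1 then Nat.add W (Nat.add (Nat.add I.K 2) (Nat.mul 2 (Nat.div c 4)))
  else Nat.sub W (Nat.add (Nat.add I.K 2) (Nat.mul 2 (Nat.div c 4)))

def fX (i c : ℕ) : ℤ :=
  Int.add (rd (Int.ofNat (Nat.pow 2 I.S)) (Int.ofNat I.C1)
    (dgI I.b (I.posX (Nat.add I.N 2) c) (bif Nat.beq (Nat.mod c 2) 0 then I.nDx i else I.nDy i)))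
    (bif Nat.beq i 0 then (bif Nat.beq (Nat.mod c 2) 0 then dR I.bK I.kX (I.kkX c) else dI I.bK I.kX (I.kkX c))
      else bif Nat.ble (bp I.K) i then 0 else
        rd (Int.ofNat (Nat.pow 2 I.S)) (Int.ofNat (Nat.mul 2 I.qG))
          (dgI I.bG (I.posX I.N2 c) (bif Nat.beq (Nat.mod c 2) 0 then I.nLx i else I.nLy i)))

/-- **the packed columns of `X`** -/
def XC : List ℕ := colL (fun i => pkF I.bo (I.fX i) 0 (Nat.mul 4 I.J1)) 0 (nt I.K I.L)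

/-! ### entries of `Y`, `Z` -/

def posP (j : ℕ) : ℕ := Nat.add (Nat.add I.N 2) (Nat.add (Nat.add I.L 2) (Nat.mul 2 j))
def posM (j : ℕ) : ℕ := Nat.sub (Nat.add I.N 2) (Nat.add (Nat.add I.L 2) (Nat.mul 2 j))
/-- a digit of the dense part at the scale `2 ^ S1` -/
def dS1 (X p : ℕ) : ℤ := rd (Int.ofNat (Nat.pow 2 I.S1)) (Int.ofNat I.C1) (dgI I.b p X)
def kkL (j : ℕ) : ℤ := (I.L : ℤ) + 2 + 2 * (j : ℤ)

def CY : ℕ := Nat.mul (Nat.mul 4 I.q') (Nat.pow 2 I.S1)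
def CZ : ℕ := Nat.mul (Nat.mul 8 I.q') (Nat.pow 2 I.S1)

/-- rounding of a fraction -/
def rf (D x : ℤ) : ℤ := rd (Int.ofNat (Nat.pow 2 I.S)) D x
/-- real and imaginary part of `den ^ 2 eta ^ 2` -/
def w1 : ℤ := I.e1 * I.e1 - I.e2 * I.e2
def w2 : ℤ := 2 * (I.e1 * I.e2)

def lY2 : List (ℕ × ℤ × ℤ) :=
  [(bp I.K + I.L - 1, Int.add (I.rf (Dn I.L I.den) (-16 * I.den * (I.L + 1) * I.e1)) (I.rf (I.dA * I.den) (I.aY * I.e1)),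
      Int.add (I.rf (Dn I.L I.den) (-16 * I.den * (I.L + 1) * I.e2)) (I.rf (I.dA * I.den) (I.aY * I.e2))),
    (bp I.K + I.L - 3, I.rf (Dn I.L I.den) (-8 * (I.L + 3) * I.w1), I.rf (Dn I.L I.den) (-8 * (I.L + 3) * I.w2)),
    (br I.K I.L + I.L - 1, I.rf (Dn I.L I.den) (-2 * I.den * tA I.L * I.e2), I.rf (Dn I.L I.den) (2 * I.den * tA I.L * I.e1)),
    (br I.K I.L + I.L - 3, I.rf (Dn I.L I.den) (-2 * tB I.L * I.w2), I.rf (Dn I.L I.den) (2 * tB I.L * I.w1))]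
def lY4 : List (ℕ × ℤ × ℤ) :=
  [(bp I.K + I.L - 1, I.rf (Dn I.L I.den) (-8 * (I.L - 1) * I.w1), I.rf (Dn I.L I.den) (-8 * (I.L - 1) * I.w2)),
    (br I.K I.L + I.L - 1, I.rf (Dn I.L I.den) (-2 * tC I.L * I.w2), I.rf (Dn I.L I.den) (2 * tC I.L * I.w1))]
def lZ2 : List (ℕ × ℤ × ℤ) :=
  [(bp I.K + I.L - 1, I.rf (Dn I.L I.den) (2 * I.den * tA I.L * I.e2), I.rf (Dn I.L I.den) (-2 * I.den * tA I.L * I.e1)),
    (bp I.K + I.L - 3, I.rf (Dn I.L I.den) (2 * tB I.L * I.w2), I.rf (Dn I.L I.den) (-2 * tB I.L * I.w1)),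
    (br I.K I.L + I.L - 1, Int.add (I.rf (Dn I.L I.den) (-4 * I.den * (I.L + 1) * I.e1)) (I.rf (I.dA * I.den) (I.aZ * I.e1)),
      Int.add (I.rf (Dn I.L I.den) (-4 * I.den * (I.L + 1) * I.e2)) (I.rf (I.dA * I.den) (I.aZ * I.e2))),
    (br I.K I.L + I.L - 3, I.rf (Dn I.L I.den) (-2 * (I.L + 3) * I.w1), I.rf (Dn I.L I.den) (-2 * (I.L + 3) * I.w2))]
def lZ4 : List (ℕ × ℤ × ℤ) :=
  [(bp I.K + I.L - 1, I.rf (Dn I.L I.den) (2 * tC I.L * I.w2), I.rf (Dn I.L I.den) (-2 * tC I.L * I.w1)),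
    (br I.K I.L + I.L - 1, I.rf (Dn I.L I.den) (-2 * (I.L - 1) * I.w1), I.rf (Dn I.L I.den) (-2 * (I.L - 1) * I.w2))]
def lY : ℕ → List (ℕ × ℤ × ℤ)
  | 0 => I.lY2
  | 1 => I.lY4
  | _ => []
def lZ : ℕ → List (ℕ × ℤ × ℤ)
  | 0 => I.lZ2
  | 1 => I.lZ4
  | _ => []

def yR (i j : ℕ) : ℤ := rd (Int.ofNat (Nat.pow 2 I.S)) (Int.ofNat I.CY)
  (Int.sub (Int.mul (Int.ofNat I.q') (Int.add (I.dS1 (I.nDx i) (I.posP j)) (I.dS1 (I.nDx i) (I.posM j))))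
    (Int.mul (Int.ofNat I.t) (Int.add (I.dS1 (I.nSy i) (I.posP j)) (I.dS1 (I.nSy i) (I.posM j)))))
def yT (i j : ℕ) : ℤ := rd (Int.ofNat (Nat.pow 2 I.S)) (Int.ofNat I.CY)
  (Int.add (Int.mul (Int.ofNat I.q') (Int.sub (I.dS1 (I.nDy i) (I.posP j)) (I.dS1 (I.nDy i) (I.posM j))))
    (Int.mul (Int.ofNat I.t) (Int.sub (I.dS1 (I.nSx i) (I.posP j)) (I.dS1 (I.nSx i) (I.posM j)))))
def zR (i j : ℕ) : ℤ := rd (Int.ofNat (Nat.pow 2 I.S)) (Int.ofNat I.CZ)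
  (Int.add (Int.mul 4 (Int.mul (Int.ofNat I.t) (Int.add (I.dS1 (I.nSx i) (I.posP j)) (I.dS1 (I.nSx i) (I.posM j)))))
    (Int.mul (Int.ofNat I.q') (Int.add (I.dS1 (I.nDy i) (I.posP j)) (I.dS1 (I.nDy i) (I.posM j)))))
def zT (i j : ℕ) : ℤ := rd (Int.ofNat (Nat.pow 2 I.S)) (Int.ofNat I.CZ)
  (Int.sub (Int.mul 4 (Int.mul (Int.ofNat I.t) (Int.sub (I.dS1 (I.nSy i) (I.posP j)) (I.dS1 (I.nSy i) (I.posM j)))))
    (Int.mul (Int.ofNat I.q') (Int.sub (I.dS1 (I.nDx i) (I.posP j)) (I.dS1 (I.nDx i) (I.posM j)))))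

def fY (i c : ℕ) : ℤ :=
  bif Nat.beq (Nat.mod c 2) 0 then
    Int.add (I.yR i (Nat.div c 2))
      (bif Nat.beq i 0 then dR I.bK I.kY (I.kkL (Nat.div c 2)) else lcR (I.lY (Nat.div c 2)) i)
  else
    Int.add (I.yT i (Nat.div c 2))
      (bif Nat.beq i 0 then dI I.bK I.kY (I.kkL (Nat.div c 2)) else lcT (I.lY (Nat.div c 2)) i)
def fZ (i c : ℕ) : ℤ :=
  bif Nat.beq (Nat.mod c 2) 0 then
    Int.add (I.zR i (Nat.div c 2))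
      (bif Nat.beq i 0 then dR I.bK I.kZ (I.kkL (Nat.div c 2)) else lcR (I.lZ (Nat.div c 2)) i)
  else
    Int.add (I.zT i (Nat.div c 2))
      (bif Nat.beq i 0 then dI I.bK I.kZ (I.kkL (Nat.div c 2)) else lcT (I.lZ (Nat.div c 2)) i)

/-- **the packed columns of `Y`, `Z`** -/
def YC : List ℕ := colL (fun i => pkF I.bo (I.fY i) 0 (Nat.mul 2 I.J2)) 0 (nt I.K I.L)
def ZC : List ℕ := colL (fun i => pkF I.bo (I.fZ i) 0 (Nat.mul 2 I.J2)) 0 (nt I.K I.L)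

/-! ### sizes and errors -/

/-- bound of the digits of the dense part -/
def BW : ℕ := Nat.mul (Nat.add I.den (Nat.mul 2 (Nat.add I.e1.natAbs I.e2.natAbs)))
  (Nat.add (Nat.mul (Nat.mul 2 I.dH) I.D) (Nat.mul I.Hm (Nat.mul 2 I.DE)))
/-- the same after rounding -/
def B1 : ℕ := Nat.add (Nat.div (Nat.mul (Nat.pow 2 I.S1) I.BW) I.C1) 1
/-- error of the dense part before rounding -/
def EW : ℕ := Nat.mul (Nat.add I.den (Nat.mul 2 (Nat.add I.e1.natAbs I.e2.natAbs)))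
  (Nat.mul 2 (Nat.add (Nat.mul I.dH I.e) (Nat.mul I.Hm I.eE)))
def EX : ℕ := Nat.add (Nat.add (ceD (Nat.pow 2 I.S) I.C1 I.EW) 4) I.eK
def E1n : ℕ := Nat.add (ceD (Nat.pow 2 I.S1) I.C1 I.EW) 2
def EY : ℕ := Nat.add (Nat.add (ceD (Nat.pow 2 I.S) I.CY (Nat.mul 2 (Nat.add (Nat.mul (Nat.add I.q' I.t) I.E1n)
  (Nat.add (Nat.mul 2 I.B1) I.E1n)))) 12) I.eK
def EZ : ℕ := Nat.add (Nat.add (ceD (Nat.pow 2 I.S) I.CZ (Nat.mul 2 (Nat.add (Nat.mul (Nat.add I.q' (Nat.mul 4 I.t)) I.E1n)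
  (Nat.mul 4 (Nat.add (Nat.mul 2 I.B1) I.E1n))))) 12) I.eK

/-- **the check of the numbers** -/
def okN : Bool :=
  Nat.ble (Nat.add (Nat.add I.K (Nat.mul 2 I.J1)) 2) I.N && Nat.ble (Nat.add (Nat.add I.L (Nat.mul 2 I.J2)) 2) I.N
  && (Nat.ble 1 I.den && Nat.ble 1 I.dH && Nat.ble 1 I.qG && Nat.ble 1 I.q' && Nat.ble 1 I.dA && Nat.ble 4 I.L)
  && (Nat.ble (Nat.succ I.BW) (Nat.pow 2 I.b) && Nat.ble (Nat.succ (Nat.mul 3 I.DG)) (Nat.pow 2 I.bG))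
  && Nat.ble (Nat.succ (Nat.add (Nat.add (Nat.add (Nat.div (Nat.mul (Nat.pow 2 I.S) I.BW) I.C1) 1)
      (Nat.add (Nat.div (Nat.mul (Nat.pow 2 I.S) (Nat.mul 3 I.DG)) (Nat.mul 2 I.qG)) 1)) I.DK)) (Nat.pow 2 I.bo)
  && Nat.ble (Nat.succ (Nat.add (Nat.add (Nat.add (Nat.div (Nat.mul (Nat.pow 2 I.S)
      (Nat.mul 2 (Nat.mul (Nat.add I.q' I.t) I.B1))) I.CY) 1) (Nat.add (lcA I.lY2) (lcA I.lY4))) I.DK)) (Nat.pow 2 I.bo)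
  && Nat.ble (Nat.succ (Nat.add (Nat.add (Nat.add (Nat.div (Nat.mul (Nat.pow 2 I.S)
      (Nat.mul 2 (Nat.mul (Nat.add I.q' (Nat.mul 4 I.t)) I.B1))) I.CZ) 1) (Nat.add (lcA I.lZ2) (lcA I.lZ4))) I.DK))
      (Nat.pow 2 I.bo)
  && (Nat.ble (Nat.mul I.t I.t) (Nat.mul 3 (Nat.mul I.q' I.q')) &&
    Nat.ble (Nat.mul 3 (Nat.mul I.q' I.q')) (Nat.mul (Nat.succ I.t) (Nat.succ I.t)))

end CIn

/-- what is known about the inputs -/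
structure CIn.Ok (I : CIn) (c : CD) (M : ℕ) : Prop where
  hK : ¬ Even I.K
  hL : Even I.L
  KM : I.K ≤ M
  LM : I.L ≤ M
  nA : ∀ i < nt I.K I.L, (I.zA i).N = I.N
  nB : ∀ i < nt I.K I.L, (I.zB i).N = I.N
  nE1 : I.zE1.N = I.N
  nE2 : I.zE2.N = I.N
  wA : ∀ i < nt I.K I.L, wf I.b (I.zA i) = true
  wB : ∀ i < nt I.K I.L, wf I.b (I.zB i) = true
  wE1 : wf I.b I.zE1 = true
  wE2 : wf I.b I.zE2 = true
  wG : wf I.bG I.gG = true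
  A : ∀ k : ℤ, |k| ≤ I.N → LC (nt I.K I.L) (2 ^ I.s) (fun v => gA c M (pV I.K I.L v) (rV I.K I.L v) (sV I.K v) k)
    (fun i => dR I.b (I.zA i) k) (fun i => dI I.b (I.zA i) k) I.e
  B : ∀ k : ℤ, |k| ≤ I.N → LC (nt I.K I.L) (2 ^ I.s) (fun v => gB c M (pV I.K I.L v) (rV I.K I.L v) (sV I.K v) k)
    (fun i => dR I.b (I.zB i) k) (fun i => dI I.b (I.zB i) k) I.e
  a1 : ∀ k : ℤ, |k| ≤ I.N → CA (2 ^ I.s) (E1 c k) (dR I.b I.zE1 k) (dI I.b I.zE1 k) I.eE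
  a2 : ∀ k : ℤ, |k| ≤ I.N → CA (2 ^ I.s) (E2 c k) (dR I.b I.zE2 k) (dI I.b I.zE2 k) I.eE
  H : LR (nt I.K I.L) I.dH (fun v => H0A c.P (pV I.K I.L v) (rV I.K I.L v) + c.P.lam) I.h 0
  hm : ∀ i < nt I.K I.L, |I.h i| ≤ (I.Hm : ℤ)
  dA : ∀ i < nt I.K I.L, ∀ k, |dR I.b (I.zA i) k| ≤ (I.D : ℤ) ∧ |dI I.b (I.zA i) k| ≤ (I.D : ℤ)
  dB : ∀ i < nt I.K I.L, ∀ k, |dR I.b (I.zB i) k| ≤ (I.D : ℤ) ∧ |dI I.b (I.zB i) k| ≤ (I.D : ℤ)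
  dE1 : ∀ k, |dR I.b I.zE1 k| ≤ (I.DE : ℤ) ∧ |dI I.b I.zE1 k| ≤ (I.DE : ℤ)
  dE2 : ∀ k, |dR I.b I.zE2 k| ≤ (I.DE : ℤ) ∧ |dI I.b I.zE2 k| ≤ (I.DE : ℤ)
  kX : ∀ k : ℤ, (I.K : ℤ) < |k| → CA (2 ^ I.S) (cX c M k) (dR I.bK I.kX k) (dI I.bK I.kX k) I.eK
  kY : ∀ k : ℤ, (I.L : ℤ) < k → CA (2 ^ I.S) (cY c k) (dR I.bK I.kY k) (dI I.bK I.kY k) I.eK
  kZ : ∀ k : ℤ, (I.L : ℤ) < k → CA (2 ^ I.S) (cZ c k) (dR I.bK I.kZ k) (dI I.bK I.kZ k) I.eK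
  dX : ∀ k, |dR I.bK I.kX k| ≤ (I.DK : ℤ) ∧ |dI I.bK I.kX k| ≤ (I.DK : ℤ)
  dY : ∀ k, |dR I.bK I.kY k| ≤ (I.DK : ℤ) ∧ |dI I.bK I.kY k| ≤ (I.DK : ℤ)
  dZ : ∀ k, |dR I.bK I.kZ k| ≤ (I.DK : ℤ) ∧ |dI I.bK I.kZ k| ≤ (I.DK : ℤ)
  G : ∀ k, CA I.qG (Gf c k) (dR I.bG I.gG k) (dI I.bG I.gG k) 0
  dG : ∀ k, |dR I.bG I.gG k| ≤ (I.DG : ℤ) ∧ |dI I.bG I.gG k| ≤ (I.DG : ℤ)
  eta : (I.den : ℂ) * c.P.eta = ci I.e1 I.e2
  aY : (I.dA : ℝ) * (9 - c.P.cs - c.L.p2 * (c.P.m - c.P.lam)) = I.aY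
  aZ : (I.dA : ℝ) * (9 - c.P.cs - c.L.p3 * (c.P.m - c.P.lam)) = I.aZ
  num : I.okN = true

end Pool.Agent.Helper19.SH
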