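import Pool.Agent.Helper19.SH.ColG

/-!
# Project RC, SHARP, cell engine: THE COLLAR BLOCK, the dense part of the packed columns
-/

set_option autoImplicit false

open Finset

namespace Pool.Agent.Helper19.SH

open Helper95.SH Helper95.RC
open Helper49.RC (om)
open Helper56.RC (fc)
open Pool.Agent.Helper64.SH
open Helper54.RC.Fast (FP len wf dg of)
open Pool.Agent.Helper31.KcF (dgI)

namespace CIn

variable {I : CIn} {c : CD} {M : ℕ}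

/-! ### the numbers -/

structure Num (I : CIn) : Prop where
  n1 : I.K + 2 * I.J1 + 2 ≤ I.N
  n2 : I.L + 2 * I.J2 + 2 ≤ I.N
  den : 0 < I.den
  dH : 0 < I.dH
  qG : 0 < I.qG
  q' : 0 < I.q'
  dA : 0 < I.dA
  L4 : 4 ≤ I.L
  BW : I.BW < 2 ^ I.b
  DG : 3 * I.DG < 2 ^ I.bG
  bX : (2 ^ I.S * I.BW / I.C1 + 1) + (2 ^ I.S * (3 * I.DG) / (2 * I.qG) + 1) + I.DK < 2 ^ I.bo
  bY : (2 ^ I.S * (2 * ((I.q' + I.t) * I.B1)) / I.CY + 1) + (lcA I.lY2 + lcA I.lY4) + I.DK < 2 ^ I.bo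
  bZ : (2 ^ I.S * (2 * ((I.q' + 4 * I.t) * I.B1)) / I.CZ + 1) + (lcA I.lZ2 + lcA I.lZ4) + I.DK < 2 ^ I.bo
  t1 : I.t ^ 2 ≤ 3 * I.q' ^ 2
  t2 : 3 * I.q' ^ 2 ≤ (I.t + 1) ^ 2

theorem num_of (h : I.okN = true) : Num I := by
  unfold okN at h
  simp only [Bool.and_eq_true] at h
  obtain ⟨⟨⟨⟨⟨⟨⟨h1, h2⟩, ⟨⟨⟨⟨h3, h4⟩, h5⟩, h6⟩, h7⟩, h8⟩, h9, h10⟩, h11⟩, h12⟩, h13⟩, h14, h15⟩ := h
  refine ⟨Nat.le_of_ble_eq_true h1, Nat.le_of_ble_eq_true h2, Nat.le_of_ble_eq_true h3, Nat.le_of_ble_eq_true h4,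
    Nat.le_of_ble_eq_true h5, Nat.le_of_ble_eq_true h6, Nat.le_of_ble_eq_true h7, Nat.le_of_ble_eq_true h8,
    Nat.le_of_ble_eq_true h9, Nat.le_of_ble_eq_true h10, Nat.le_of_ble_eq_true h11, Nat.le_of_ble_eq_true h12,
    Nat.le_of_ble_eq_true h13, ?_, ?_⟩
  · have h := Nat.le_of_ble_eq_true h14
    rw [sq, sq]; exact h
  · have h := Nat.le_of_ble_eq_true h15
    rw [sq, sq]; exact h

theorem Num.C1 (n : Num I) : 0 < I.C1 := by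
  show 0 < I.den * (I.dH * 2 ^ I.s)
  have := n.den
  have := n.dH
  positivity

theorem Num.CY (n : Num I) : 0 < I.CY := by
  show 0 < 4 * I.q' * 2 ^ I.S1
  have := n.q'
  positivity

theorem Num.CZ (n : Num I) : 0 < I.CZ := by
  show 0 < 8 * I.q' * 2 ^ I.S1
  have := n.q'
  positivity

/-! ### digits of the dense part before rounding -/

/-- digits of the inputs as functions of frequency and coordinate -/
def AR (I : CIn) (k : ℤ) (i : ℕ) : ℤ := dR I.b (I.zA i) k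
def AT (I : CIn) (k : ℤ) (i : ℕ) : ℤ := dI I.b (I.zA i) k
def BR (I : CIn) (k : ℤ) (i : ℕ) : ℤ := dR I.b (I.zB i) k
def BT (I : CIn) (k : ℤ) (i : ℕ) : ℤ := dI I.b (I.zB i) k

def DRf (I : CIn) : ℤ → ℕ → ℤ := dD I.dH I.h I.AR I.BR (dR I.b I.zE1) (dR I.b I.zE2)
def DTf (I : CIn) : ℤ → ℕ → ℤ := dD I.dH I.h I.AT I.BT (dI I.b I.zE1) (dI I.b I.zE2)
def SRf (I : CIn) : ℤ → ℕ → ℤ := dS I.dH I.h I.AR I.BR (dR I.b I.zE1) (dR I.b I.zE2)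
def STf (I : CIn) : ℤ → ℕ → ℤ := dS I.dH I.h I.AT I.BT (dI I.b I.zE1) (dI I.b I.zE2)

theorem ok_DP (o : I.Ok c M) : DP c I.K I.L M I.N (2 ^ I.s) I.e I.eE I.Hm I.dH I.h I.AR I.AT I.BR I.BT
    (dR I.b I.zE1) (dI I.b I.zE1) (dR I.b I.zE2) (dI I.b I.zE2) :=
  ⟨o.A, o.B, o.a1, o.a2, o.H, fun i hi => by
    have := o.hm i hi
    have h2 : ((|I.h i| : ℤ) : ℝ) ≤ ((I.Hm : ℤ) : ℝ) := Int.cast_le.2 this
    push_cast at h2
    exact h2⟩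

/-- bound of the digits before the band operator -/
def B0 (I : CIn) : ℕ := 2 * I.dH * I.D + I.Hm * (2 * I.DE)

theorem lin_le {a b : ℤ} {A B : ℕ} (ha : |a| ≤ (A : ℤ)) (hb : |b| ≤ (B : ℤ)) : |a * b| ≤ ((A * B : ℕ) : ℤ) := by
  rw [abs_mul]
  push_cast
  exact mul_le_mul ha hb (abs_nonneg _) (Int.natCast_nonneg _)

theorem dD_le {dH : ℕ} {h : ℕ → ℤ} {A B : ℤ → ℕ → ℤ} {a b : ℤ → ℤ} {k : ℤ} {i D DE Hm : ℕ} (h1 : |A k i| ≤ (D : ℤ))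
    (h2 : |B k i| ≤ (D : ℤ)) (h3 : |a k| ≤ (DE : ℤ)) (h4 : |b k| ≤ (DE : ℤ)) (h5 : |h i| ≤ (Hm : ℤ)) :
    |dD dH h A B a b k i| ≤ ((2 * dH * D + Hm * (2 * DE) : ℕ) : ℤ) ∧
    |dS dH h A B a b k i| ≤ ((2 * dH * D + Hm * (2 * DE) : ℕ) : ℤ) := by
  have e1 : |A k i - B k i| ≤ ((2 * D : ℕ) : ℤ) := (abs_sub _ _).trans (by push_cast; linarith)
  have e2 : |A k i + B k i| ≤ ((2 * D : ℕ) : ℤ) := (abs_add_le _ _).trans (by push_cast; linarith)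
  have e3 : |a k - b k| ≤ ((2 * DE : ℕ) : ℤ) := (abs_sub _ _).trans (by push_cast; linarith)
  have e4 : |a k + b k| ≤ ((2 * DE : ℕ) : ℤ) := (abs_add_le _ _).trans (by push_cast; linarith)
  have e0 : |(dH : ℤ)| ≤ ((dH : ℕ) : ℤ) := by rw [Nat.abs_cast]
  unfold dD dS
  refine ⟨(abs_add_le _ _).trans ?_, (abs_add_le _ _).trans ?_⟩
  · have := lin_le e0 e1
    have := lin_le h5 e3
    push_cast at *
    linarith
  · have := lin_le e0 e2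
    have := lin_le h5 e4
    push_cast at *
    linarith

theorem DRf_le (o : I.Ok c M) {i : ℕ} (hi : i < nt I.K I.L) (k : ℤ) :
    |I.DRf k i| ≤ (I.B0 : ℤ) ∧ |I.SRf k i| ≤ (I.B0 : ℤ) :=
  dD_le (o.dA i hi k).1 (o.dB i hi k).1 (o.dE1 k).1 (o.dE2 k).1 (o.hm i hi)

theorem DTf_le (o : I.Ok c M) {i : ℕ} (hi : i < nt I.K I.L) (k : ℤ) :
    |I.DTf k i| ≤ (I.B0 : ℤ) ∧ |I.STf k i| ≤ (I.B0 : ℤ) :=
  dD_le (o.dA i hi k).2 (o.dB i hi k).2 (o.dE1 k).2 (o.dE2 k).2 (o.hm i hi)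

theorem wm_le {den e1 e2 : ℤ} {R T : ℤ → ℕ → ℤ} {i B dn : ℕ} (hd : |den| ≤ (dn : ℤ)) (hR : ∀ k, |R k i| ≤ (B : ℤ))
    (hT : ∀ k, |T k i| ≤ (B : ℤ)) (k : ℤ) :
    |wmR den e1 e2 R T k i| ≤ (((dn + 2 * (e1.natAbs + e2.natAbs)) * B : ℕ) : ℤ) ∧
    |wmT den e1 e2 R T k i| ≤ (((dn + 2 * (e1.natAbs + e2.natAbs)) * B : ℕ) : ℤ) := by
  have a1 : |e1| ≤ ((e1.natAbs : ℕ) : ℤ) := by rw [Int.natCast_natAbs]
  have a2 : |e2| ≤ ((e2.natAbs : ℕ) : ℤ) := by rw [Int.natCast_natAbs]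
  set x1 := e1.natAbs
  set x2 := e2.natAbs
  have b0 := lin_le hd (hR k)
  have b1 := lin_le a1 (hR (k - 2))
  have b2 := lin_le a2 (hT (k - 2))
  have b3 := lin_le a1 (hR (k + 2))
  have b4 := lin_le a2 (hT (k + 2))
  have c0 := lin_le hd (hT k)
  have c1 := lin_le a1 (hT (k - 2))
  have c2 := lin_le a2 (hR (k - 2))
  have c3 := lin_le a1 (hT (k + 2))
  have c4 := lin_le a2 (hR (k + 2))
  unfold wmR wmT
  constructor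
  · refine (abs_add_le _ _).trans ((add_le_add ((abs_add_le _ _).trans (add_le_add le_rfl (abs_sub _ _)))
      (abs_add_le _ _)).trans ?_)
    push_cast at *
    nlinarith
  · refine (abs_add_le _ _).trans ((add_le_add ((abs_add_le _ _).trans (add_le_add le_rfl (abs_add_le _ _)))
      (abs_sub _ _)).trans ?_)
    push_cast at *
    nlinarith

/-- the four arrays after the band operator -/
def WDR (I : CIn) : ℤ → ℕ → ℤ := wmR I.den I.e1 I.e2 I.DRf I.DTf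
def WDT (I : CIn) : ℤ → ℕ → ℤ := wmT I.den I.e1 I.e2 I.DRf I.DTf
def WSR (I : CIn) : ℤ → ℕ → ℤ := wmR I.den I.e1 I.e2 I.SRf I.STf
def WST (I : CIn) : ℤ → ℕ → ℤ := wmT I.den I.e1 I.e2 I.SRf I.STf

theorem WD_le (o : I.Ok c M) {i : ℕ} (hi : i < nt I.K I.L) (k : ℤ) :
    (|I.WDR k i| ≤ (I.BW : ℤ) ∧ |I.WDT k i| ≤ (I.BW : ℤ)) ∧ (|I.WSR k i| ≤ (I.BW : ℤ) ∧ |I.WST k i| ≤ (I.BW : ℤ)) := by
  have hd : |(I.den : ℤ)| ≤ ((I.den : ℕ) : ℤ) := by rw [Nat.abs_cast]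
  exact ⟨wm_le hd (fun k => (DRf_le o hi k).1) (fun k => (DTf_le o hi k).1) k,
    wm_le hd (fun k => (DRf_le o hi k).2) (fun k => (DTf_le o hi k).2) k⟩

/-! ### packed -/

section

variable {i : ℕ}

theorem outR {zA zB zE1 zE2 : FP} {b N : ℕ} {dH h : ℤ} (n1 : zA.N = N) (n2 : zB.N = N) (n3 : zE1.N = N) (n4 : zE2.N = N)
    {n : ℤ} (hn : n < -(N : ℤ) ∨ (N : ℤ) < n) :
    (dH * (dR b zA n - dR b zB n) + h * (dR b zE1 n - dR b zE2 n) = 0 ∧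
      dH * (dR b zA n + dR b zB n) + h * (dR b zE1 n + dR b zE2 n) = 0) ∧
    (dH * (dI b zA n - dI b zB n) + h * (dI b zE1 n - dI b zE2 n) = 0 ∧
      dH * (dI b zA n + dI b zB n) + h * (dI b zE1 n + dI b zE2 n) = 0) := by
  rw [dR_out b zA n (by rw [n1]; exact hn), dR_out b zB n (by rw [n2]; exact hn), dR_out b zE1 n (by rw [n3]; exact hn),
    dR_out b zE2 n (by rw [n4]; exact hn), dI_out b zA n (by rw [n1]; exact hn), dI_out b zB n (by rw [n2]; exact hn),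
    dI_out b zE1 n (by rw [n3]; exact hn), dI_out b zE2 n (by rw [n4]; exact hn)]
  simp

theorem pk_in (o : I.Ok c M) (hi : i < nt I.K I.L) :
    PkN I.b I.N (I.dx i) (fun n => I.DRf n i) ∧ PkN I.b I.N (I.dy i) (fun n => I.DTf n i) ∧
    PkN I.b I.N (I.sx i) (fun n => I.SRf n i) ∧ PkN I.b I.N (I.syy i) (fun n => I.STf n i) := by
  have a1 := sgn_x (o.wA i hi)
  have a2 := sgn_y (o.wA i hi)
  have b1 := sgn_x (o.wB i hi)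
  have b2 := sgn_y (o.wB i hi)
  have c1 := sgn_x o.wE1
  have c2 := sgn_y o.wE1
  have d1 := sgn_x o.wE2
  have d2 := sgn_y o.wE2
  rw [o.nA i hi] at a1 a2
  rw [o.nB i hi] at b1 b2
  rw [o.nE1] at c1 c2
  rw [o.nE2] at d1 d2
  exact ⟨((a1.sub b1).smul I.dH).add ((c1.sub d1).smul (I.h i)), ((a2.sub b2).smul I.dH).add ((c2.sub d2).smul (I.h i)),
    ((a1.add b1).smul I.dH).add ((c1.add d1).smul (I.h i)), ((a2.add b2).smul I.dH).add ((c2.add d2).smul (I.h i))⟩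

theorem out_in (o : I.Ok c M) (hi : i < nt I.K I.L) {n : ℤ} (hn : n < -(I.N : ℤ) ∨ (I.N : ℤ) < n) :
    (I.DRf n i = 0 ∧ I.SRf n i = 0) ∧ (I.DTf n i = 0 ∧ I.STf n i = 0) :=
  outR (o.nA i hi) (o.nB i hi) o.nE1 o.nE2 hn

theorem lt_of_le' {x : ℤ} {B b : ℕ} (h : |x| ≤ (B : ℤ)) (hB : B < 2 ^ b) : |x| < 2 ^ b := by
  refine lt_of_le_of_lt h ?_
  exact_mod_cast hB

/-- **the digits of the four packed numbers** -/
theorem dig_D (o : I.Ok c M) (hi : i < nt I.K I.L) {p : ℕ} (hp : p ≤ 2 * (I.N + 2)) :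
    (dgI I.b p (I.nDx i) = I.WDR ((p : ℤ) - (I.N + 2 : ℕ)) i ∧ dgI I.b p (I.nDy i) = I.WDT ((p : ℤ) - (I.N + 2 : ℕ)) i) ∧
    (dgI I.b p (I.nSx i) = I.WSR ((p : ℤ) - (I.N + 2 : ℕ)) i ∧
      dgI I.b p (I.nSy i) = I.WST ((p : ℤ) - (I.N + 2 : ℕ)) i) := by
  obtain ⟨h1, h2, h3, h4⟩ := pk_in o hi
  have q1 := h1.wx h2 (fun n hn => (out_in o hi hn).1.1) (fun n hn => (out_in o hi hn).2.1) I.den I.e1 I.e2
  have q2 := h1.wy h2 (fun n hn => (out_in o hi hn).1.1) (fun n hn => (out_in o hi hn).2.1) I.den I.e1 I.e2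
  have q3 := h3.wx h4 (fun n hn => (out_in o hi hn).1.2) (fun n hn => (out_in o hi hn).2.2) I.den I.e1 I.e2
  have q4 := h3.wy h4 (fun n hn => (out_in o hi hn).1.2) (fun n hn => (out_in o hi hn).2.2) I.den I.e1 I.e2
  have hB := (num_of o.num).BW
  exact ⟨⟨q1.dig (fun n => lt_of_le' (WD_le o hi n).1.1 hB) hp, q2.dig (fun n => lt_of_le' (WD_le o hi n).1.2 hB) hp⟩,
    ⟨q3.dig (fun n => lt_of_le' (WD_le o hi n).2.1 hB) hp, q4.dig (fun n => lt_of_le' (WD_le o hi n).2.2 hB) hp⟩⟩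

end

/-! ### the dense rows -/

theorem Num.q1 (n : Num I) (T : ℕ) : ((2 ^ T : ℕ) : ℝ) / ((I.C1 : ℕ) : ℤ) * ((I.den : ℝ) * ((I.dH : ℝ) * 2 ^ I.s)) = 2 ^ T := by
  have h1 : (((I.C1 : ℕ) : ℤ) : ℝ) = (I.den : ℝ) * ((I.dH : ℝ) * 2 ^ I.s) := by
    show (((I.den * (I.dH * 2 ^ I.s) : ℕ) : ℤ) : ℝ) = _
    push_cast
    ring
  have h2 : (((I.C1 : ℕ) : ℤ) : ℝ) ≠ 0 := by
    have := n.C1
    have : (0 : ℝ) < ((I.C1 : ℕ) : ℤ) := by exact_mod_cast this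
    exact this.ne'
  rw [← h1, div_mul_cancel₀ _ h2]
  push_cast
  rfl

theorem EW_real (I : CIn) : ((I.den : ℝ) + 2 * (|(I.e1 : ℝ)| + |(I.e2 : ℝ)|)) * (2 * ((I.dH : ℝ) * I.e + I.Hm * I.eE)) =
    (I.EW : ℝ) := by
  have a : ∀ x : ℤ, |(x : ℝ)| = ((x.natAbs : ℕ) : ℝ) := fun x => by
    rw [Nat.cast_natAbs]; push_cast; rfl
  rw [a, a]
  show _ = (((I.den + 2 * (I.e1.natAbs + I.e2.natAbs)) * (2 * (I.dH * I.e + I.Hm * I.eE)) : ℕ) : ℝ)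
  push_cast
  ring

theorem dense (o : I.Ok c M) (T : ℕ) {k : ℤ} (hk : |k| + 2 ≤ I.N) :
    LC (nt I.K I.L) (2 ^ T) (fun v => wDf c M (pV I.K I.L v) (rV I.K I.L v) (sV I.K v) k)
      (fun i => rd (2 ^ T : ℕ) (I.C1 : ℕ) (I.WDR k i)) (fun i => rd (2 ^ T : ℕ) (I.C1 : ℕ) (I.WDT k i))
      (ceD (2 ^ T) I.C1 I.EW + 2) ∧
    LC (nt I.K I.L) (2 ^ T) (fun v => wSf c M (pV I.K I.L v) (rV I.K I.L v) (sV I.K v) k)
      (fun i => rd (2 ^ T : ℕ) (I.C1 : ℕ) (I.WSR k i)) (fun i => rd (2 ^ T : ℕ) (I.C1 : ℕ) (I.WST k i))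
      (ceD (2 ^ T) I.C1 I.EW + 2) := by
  have n := num_of o.num
  have hC : (0 : ℤ) < ((I.C1 : ℕ) : ℤ) := by exact_mod_cast n.C1
  have h1 := ((ok_DP o).X o.eta hk).rd (2 ^ T) hC
  have h2 := ((ok_DP o).S o.eta hk).rd (2 ^ T) hC
  have he : ((2 ^ T : ℕ) : ℝ) / ((I.C1 : ℕ) : ℤ) * (((I.den : ℝ) + 2 * (|(I.e1 : ℝ)| + |(I.e2 : ℝ)|)) *
      (2 * ((I.dH : ℝ) * I.e + I.Hm * I.eE))) + 2 ≤ ceD (2 ^ T) I.C1 I.EW + 2 := by
    rw [EW_real]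
    have := ceD_le (A := 2 ^ T) n.C1 I.EW
    push_cast at this ⊢
    linarith
  rw [n.q1 T] at h1 h2
  exact ⟨(h1.mono he).congr (fun v _ => rfl) (fun i _ => rfl) (fun i _ => rfl),
    (h2.mono he).congr (fun v _ => rfl) (fun i _ => rfl) (fun i _ => rfl)⟩

end CIn

end Pool.Agent.Helper19.SH
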