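import Pool.Agent.Helper19.SH.ColH

/-!
# Project RC, SHARP, cell engine: THE COLLAR BLOCK, the rows of `X`
-/

set_option autoImplicit false

open Finset

namespace Pool.Agent.Helper19.SH

open Helper95.SH Helper95.RC
open Helper49.RC (om)
open Helper56.RC (fc)
open Pool.Agent.Helper64.SH
open Helper54.RC.Fast (FP len wf dg of)
open Pool.Agent.Helper31.KcF (dgI)

/-- the integer row of the functional `k` of packed columns (helper25's `row`, written out) -/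
def rowC (b : ℕ) (A : List ℕ) (k i : ℕ) : ℤ :=
  ((A.getD i 0 / (2 ^ (b + 1)) ^ k % 2 ^ (b + 1) : ℕ) : ℤ) - ((2 ^ b : ℕ) : ℤ)

namespace CIn

variable {I : CIn} {c : CD} {M : ℕ}

/-! ### the local part, packed -/

theorem u_eq {i : ℕ} (hi : 0 < i) (h : (i - 1) % 2 = 0) : u i = i - 1 := by
  show 2 * ((i - 1) / 2) = i - 1
  omega
theorem u_eq' {i : ℕ} (hi : 0 < i) (h : ¬ (i - 1) % 2 = 0) : u i = i - 2 := by
  show 2 * ((i - 1) / 2) = i - 2
  omega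

theorem u_le {i : ℕ} (hi : i < bp I.K) : u i ≤ 2 * I.K := by
  show 2 * ((i - 1) / 2) ≤ 2 * I.K
  unfold bp at hi
  omega

section

variable {b W K J : ℕ} {x : ℤ} {R : ℤ → ℤ}

theorem sh1 (h : PkN b W x R) (h0 : ∀ n, n < -(W : ℤ) ∨ (W : ℤ) < n → R n = 0) {w : ℕ} (hw : w ≤ 2 * K) :
    PkN b (K + W + 2 * J) (Bp b (2 * J + w) * x) (fun n => R (n - ((w : ℤ) - K))) ∧
    PkN b (K + W + 2 * J) (Bp b (2 * J + 2 * K - w) * x) (fun n => R (n + ((w : ℤ) - K))) := by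
  rw [Bp_eq, Bp_eq]
  constructor
  · refine (h.sh h0 (M := K + W + 2 * J) (2 * J + w) (by omega)).congr fun n => ?_
    congr 1
    push_cast
    ring
  · refine (h.sh h0 (M := K + W + 2 * J) (2 * J + 2 * K - w) (by omega)).congr fun n => ?_
    congr 1
    push_cast [show w ≤ 2 * J + 2 * K by omega]
    ring

end

theorem pkL (o : I.Ok c M) {i : ℕ} (h0 : 0 < i) (hi : i < bp I.K) :
    PkN I.bG I.N2 (I.lx i) (fun k => gxR I.K (dR I.bG I.gG) (dI I.bG I.gG) k i) ∧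
    PkN I.bG I.N2 (I.ly i) (fun k => gxT I.K (dR I.bG I.gG) (dI I.bG I.gG) k i) := by
  have a1 := sgn_x o.wG
  have a2 := sgn_y o.wG
  have hw := u_le hi
  obtain ⟨x1, x2⟩ := sh1 (K := I.K) (J := I.J1) a1 (fun n hn => dR_out _ _ n hn) hw
  obtain ⟨y1, y2⟩ := sh1 (K := I.K) (J := I.J1) a2 (fun n hn => dI_out _ _ n hn) hw
  have hi0 : ¬ i = 0 := by omega
  by_cases h : (i - 1) % 2 = 0
  · have hb : Nat.beq (Nat.mod (Nat.sub i 1) 2) 0 = true := by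
      show Nat.beq ((i - 1) % 2) 0 = true
      rw [h]; rfl
    have e1 : I.lx i = 2 * (Bp I.bG (2 * I.J1 + u i) * sgn I.bG I.gG.N I.gG.x)
        + Bp I.bG (2 * I.J1 + 2 * I.K - u i) * sgn I.bG I.gG.N I.gG.x := by
      unfold lx
      rw [hb]
      show (2 * Bp I.bG (2 * I.J1 + u i) + Bp I.bG (2 * I.J1 + 2 * I.K - u i)) * sgn I.bG I.gG.N I.gG.x = _
      ring
    have e2 : I.ly i = 2 * (Bp I.bG (2 * I.J1 + u i) * sgn I.bG I.gG.N I.gG.y)
        + Bp I.bG (2 * I.J1 + 2 * I.K - u i) * sgn I.bG I.gG.N I.gG.y := by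
      unfold ly
      rw [hb]
      show (2 * Bp I.bG (2 * I.J1 + u i) + Bp I.bG (2 * I.J1 + 2 * I.K - u i)) * sgn I.bG I.gG.N I.gG.y = _
      ring
    have eu := u_eq h0 h
    rw [e1, e2]
    refine ⟨((x1.smul 2).add x2).congr fun k => ?_, ((y1.smul 2).add y2).congr fun k => ?_⟩
    · unfold gxR
      rw [if_neg hi0, if_pos hi, if_pos h, eu]
    · unfold gxT
      rw [if_neg hi0, if_pos hi, if_pos h, eu]
  · have hb : Nat.beq (Nat.mod (Nat.sub i 1) 2) 0 = false := by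
      rw [Bool.eq_false_iff]
      intro h2
      exact h (Nat.eq_of_beq_eq_true h2)
    have e1 : I.lx i = Bp I.bG (2 * I.J1 + 2 * I.K - u i) * sgn I.bG I.gG.N I.gG.y
        - 2 * (Bp I.bG (2 * I.J1 + u i) * sgn I.bG I.gG.N I.gG.y) := by
      unfold lx
      rw [hb]
      show (Bp I.bG (2 * I.J1 + 2 * I.K - u i) - 2 * Bp I.bG (2 * I.J1 + u i)) * sgn I.bG I.gG.N I.gG.y = _
      ring
    have e2 : I.ly i = 2 * (Bp I.bG (2 * I.J1 + u i) * sgn I.bG I.gG.N I.gG.x)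
        - Bp I.bG (2 * I.J1 + 2 * I.K - u i) * sgn I.bG I.gG.N I.gG.x := by
      unfold ly
      rw [hb]
      show (2 * Bp I.bG (2 * I.J1 + u i) - Bp I.bG (2 * I.J1 + 2 * I.K - u i)) * sgn I.bG I.gG.N I.gG.x = _
      ring
    have eu := u_eq' h0 h
    rw [e1, e2]
    refine ⟨(y2.sub (y1.smul 2)).congr fun k => ?_, ((x1.smul 2).sub x2).congr fun k => ?_⟩
    · unfold gxR
      rw [if_neg hi0, if_pos hi, if_neg h, eu]
    · unfold gxT
      rw [if_neg hi0, if_pos hi, if_neg h, eu]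

theorem gx_le (o : I.Ok c M) (k : ℤ) (i : ℕ) :
    |gxR I.K (dR I.bG I.gG) (dI I.bG I.gG) k i| ≤ ((3 * I.DG : ℕ) : ℤ) ∧
    |gxT I.K (dR I.bG I.gG) (dI I.bG I.gG) k i| ≤ ((3 * I.DG : ℕ) : ℤ) := by
  have a : ∀ k, |dR I.bG I.gG k| ≤ (I.DG : ℤ) := fun k => (o.dG k).1
  have b : ∀ k, |dI I.bG I.gG k| ≤ (I.DG : ℤ) := fun k => (o.dG k).2
  have t : ∀ x y : ℤ, |x| ≤ (I.DG : ℤ) → |y| ≤ (I.DG : ℤ) → |2 * x + y| ≤ ((3 * I.DG : ℕ) : ℤ) ∧
      |y - 2 * x| ≤ ((3 * I.DG : ℕ) : ℤ) ∧ |2 * x - y| ≤ ((3 * I.DG : ℕ) : ℤ) := by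
    intro x y hx hy
    rw [abs_le] at hx hy
    push_cast
    refine ⟨abs_le.2 ⟨by linarith, by linarith⟩, abs_le.2 ⟨by linarith, by linarith⟩, abs_le.2 ⟨by linarith, by linarith⟩⟩
  have z : |(0 : ℤ)| ≤ ((3 * I.DG : ℕ) : ℤ) := by rw [abs_zero]; positivity
  unfold gxR gxT
  constructor
  · split_ifs
    · exact z
    · exact (t _ _ (a _) (a _)).1
    · exact (t _ _ (b _) (b _)).2.1
    · exact z
  · split_ifs
    · exact z
    · exact (t _ _ (b _) (b _)).1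
    · exact (t _ _ (a _) (a _)).2.2
    · exact z

theorem dig_L (o : I.Ok c M) {i : ℕ} (h0 : 0 < i) (hi : i < bp I.K) {p : ℕ} (hp : p ≤ 2 * I.N2) :
    dgI I.bG p (I.nLx i) = gxR I.K (dR I.bG I.gG) (dI I.bG I.gG) ((p : ℤ) - I.N2) i ∧
    dgI I.bG p (I.nLy i) = gxT I.K (dR I.bG I.gG) (dI I.bG I.gG) ((p : ℤ) - I.N2) i := by
  obtain ⟨h1, h2⟩ := pkL o h0 hi
  have hB := (num_of o.num).DG
  exact ⟨h1.dig (fun n => lt_of_le' (gx_le o n i).1 hB) hp, h2.dig (fun n => lt_of_le' (gx_le o n i).2 hB) hp⟩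

/-! ### the row of `X` -/

/-- the row of `X` at the frequency `k` -/
def rXR (I : CIn) (k : ℤ) (i : ℕ) : ℤ :=
  (if i = 0 then dR I.bK I.kX k else 0) + rd (2 ^ I.S : ℕ) (I.C1 : ℕ) (I.WDR k i)
    + rd (2 ^ I.S : ℕ) (2 * I.qG : ℕ) (gxR I.K (dR I.bG I.gG) (dI I.bG I.gG) k i)
def rXT (I : CIn) (k : ℤ) (i : ℕ) : ℤ :=
  (if i = 0 then dI I.bK I.kX k else 0) + rd (2 ^ I.S : ℕ) (I.C1 : ℕ) (I.WDT k i)
    + rd (2 ^ I.S : ℕ) (2 * I.qG : ℕ) (gxT I.K (dR I.bG I.gG) (dI I.bG I.gG) k i)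

theorem X_LC (o : I.Ok c M) {k : ℤ} (h1 : (I.K : ℤ) < |k|) (hk : |k| + 2 ≤ I.N) :
    LC (nt I.K I.L) (2 ^ I.S) (fun v => Xr c M (pV I.K I.L v) (rV I.K I.L v) (sV I.K v) k) (I.rXR k) (I.rXT k) I.EX := by
  have n := num_of o.num
  have hn : 0 < nt I.K I.L := by unfold nt; omega
  have a1 := LC.cst hn (o.kX k h1)
  have a2 := (dense o I.S hk).1
  have hq : (0 : ℤ) < ((2 * I.qG : ℕ) : ℤ) := by
    have := n.qG
    exact_mod_cast (by omega : 0 < 2 * I.qG)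
  have a3 := (LC_gLQ o.hK o.hL o.KM o.LM o.G k).rd (2 ^ I.S) hq
  have e1 : ((2 ^ I.S : ℕ) : ℝ) / ((2 * I.qG : ℕ) : ℤ) * (2 * (I.qG : ℝ)) = 2 ^ I.S := by
    have h2 : (((2 * I.qG : ℕ) : ℤ) : ℝ) = 2 * (I.qG : ℝ) := by push_cast; ring
    have h3 : (2 * (I.qG : ℝ)) ≠ 0 := by
      have := n.qG
      positivity
    rw [h2, div_mul_cancel₀ _ h3]
    push_cast
    rfl
  rw [e1] at a3
  refine (((a1.add a2).add a3).mono ?_).congr (fun v _ => Xr_eq c M _ _ _ k) (fun i _ => rfl) (fun i _ => rfl)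
  show (I.eK : ℝ) + ((ceD (2 ^ I.S) I.C1 I.EW : ℝ) + 2) + (((2 ^ I.S : ℕ) : ℝ) / ((2 * I.qG : ℕ) : ℤ) * (6 * 0) + 2) ≤
    ((ceD (2 ^ I.S) I.C1 I.EW + 4 + I.eK : ℕ) : ℝ)
  push_cast
  linarith

theorem rX_le (o : I.Ok c M) {i : ℕ} (hi : i < nt I.K I.L) (k : ℤ) :
    |I.rXR k i| < 2 ^ I.bo ∧ |I.rXT k i| < 2 ^ I.bo := by
  have n := num_of o.num
  have hC : (0 : ℤ) < ((I.C1 : ℕ) : ℤ) := by exact_mod_cast n.C1
  have hq : (0 : ℤ) < ((2 * I.qG : ℕ) : ℤ) := by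
    have := n.qG
    exact_mod_cast (by omega : 0 < 2 * I.qG)
  have b1 := rd_abs (2 ^ I.S) hC (WD_le o hi k).1.1
  have b2 := rd_abs (2 ^ I.S) hC (WD_le o hi k).1.2
  have c1 := rd_abs (2 ^ I.S) hq (gx_le o k i).1
  have c2 := rd_abs (2 ^ I.S) hq (gx_le o k i).2
  have d1 : |if i = 0 then dR I.bK I.kX k else 0| ≤ (I.DK : ℤ) := by
    by_cases h : i = 0
    · rw [if_pos h]; exact (o.dX k).1
    · rw [if_neg h, abs_zero]; positivity
  have d2 : |if i = 0 then dI I.bK I.kX k else 0| ≤ (I.DK : ℤ) := by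
    by_cases h : i = 0
    · rw [if_pos h]; exact (o.dX k).2
    · rw [if_neg h, abs_zero]; positivity
  rw [Int.toNat_natCast] at b1 b2 c1 c2
  have hb : (((2 ^ I.S * I.BW / I.C1 + 1) + (2 ^ I.S * (3 * I.DG) / (2 * I.qG) + 1) + I.DK : ℕ) : ℤ) < 2 ^ I.bo := by
    exact_mod_cast n.bX
  rw [Nat.cast_add, Nat.cast_add] at hb
  unfold rXR rXT
  constructor
  · exact lt_of_le_of_lt ((abs_add_le _ _).trans (add_le_add ((abs_add_le _ _).trans (add_le_add d1 b1)) c1))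
      (by linarith)
  · exact lt_of_le_of_lt ((abs_add_le _ _).trans (add_le_add ((abs_add_le _ _).trans (add_le_add d2 b2)) c2))
      (by linarith)

/-! ### the packed columns -/

theorem posX_eq {W j : ℕ} (hW : I.K + 2 + 2 * (j / 4) ≤ W) : ((I.posX W j : ℕ) : ℤ) = I.kkX j + W := by
  unfold posX kkX
  by_cases h : j % 4 ≤ 1
  · have hb : Nat.ble (Nat.mod j 4) 1 = true := Nat.ble_eq_true_of_le h
    rw [hb, if_pos h]
    show ((W + (I.K + 2 + 2 * (j / 4)) : ℕ) : ℤ) = _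
    push_cast
    ring
  · have hb : Nat.ble (Nat.mod j 4) 1 = false := by
      rw [Bool.eq_false_iff]
      intro h2
      exact h (Nat.le_of_ble_eq_true h2)
    rw [hb, if_neg h]
    show ((W - (I.K + 2 + 2 * (j / 4)) : ℕ) : ℤ) = _
    rw [Nat.cast_sub hW]
    push_cast
    ring

theorem abs_kkX (j : ℕ) : |I.kkX j| = (I.K : ℤ) + 2 + 2 * ((j / 4 : ℕ) : ℤ) := by
  have h0 : (0 : ℤ) ≤ (I.K : ℤ) + 2 + 2 * ((j / 4 : ℕ) : ℤ) := by positivity
  unfold kkX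
  split_ifs
  · exact abs_of_nonneg h0
  · rw [abs_neg]; exact abs_of_nonneg h0

theorem rd_zero (A C : ℤ) : rd A C 0 = 0 := by
  unfold rd
  show A * 0 / C = 0
  simp

theorem fX_eq (o : I.Ok c M) {i j : ℕ} (hi : i < nt I.K I.L) (hj : j < 4 * I.J1) :
    I.fX i j = if j % 2 = 0 then I.rXR (I.kkX j) i else I.rXT (I.kkX j) i := by
  have n := num_of o.num
  have n1 := n.n1
  have hj4 : j / 4 < I.J1 := by omega
  have W1 : I.K + 2 + 2 * (j / 4) ≤ I.N + 2 := by omega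
  have W2 : I.K + 2 + 2 * (j / 4) ≤ I.N2 := by
    show _ ≤ I.K + I.gG.N + 2 * I.J1
    omega
  have p1 := posX_eq W1
  have p2 := posX_eq W2
  have q1 : I.posX (I.N + 2) j ≤ 2 * (I.N + 2) := by
    have := abs_kkX (I := I) j
    have h3 := le_abs_self (I.kkX j)
    omega
  have q2 : I.posX I.N2 j ≤ 2 * I.N2 := by
    have := abs_kkX (I := I) j
    have h3 := le_abs_self (I.kkX j)
    omega
  have r1 : ((I.posX (I.N + 2) j : ℕ) : ℤ) - (I.N + 2 : ℕ) = I.kkX j := by rw [p1]; ring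
  have r2 : ((I.posX I.N2 j : ℕ) : ℤ) - (I.N2 : ℕ) = I.kkX j := by rw [p2]; ring
  obtain ⟨⟨d1, d2⟩, -⟩ := dig_D o hi q1
  rw [r1] at d1 d2
  have key : ∀ (x y : ℤ) (X Y : ℕ) (Z : ℕ), dgI I.b (I.posX (I.N + 2) j) X = x →
      ((0 < i → i < bp I.K → dgI I.bG (I.posX I.N2 j) Y = y) ∧ ((i = 0 ∨ bp I.K ≤ i) → y = 0)) → ∀ z : ℤ,
      Int.add (rd (Int.ofNat (Nat.pow 2 I.S)) (Int.ofNat I.C1) (dgI I.b (I.posX (Nat.add I.N 2) j) X))
        (bif Nat.beq i 0 then z else bif Nat.ble (bp I.K) i then 0 else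
          rd (Int.ofNat (Nat.pow 2 I.S)) (Int.ofNat (Nat.mul 2 I.qG)) (dgI I.bG (I.posX I.N2 j) Y)) =
      (if i = 0 then z else 0) + rd (2 ^ I.S : ℕ) (I.C1 : ℕ) x + rd (2 ^ I.S : ℕ) (2 * I.qG : ℕ) y := by
    intro x y X Y _ hx hy z
    show rd (Int.ofNat (Nat.pow 2 I.S)) (Int.ofNat I.C1) (dgI I.b (I.posX (I.N + 2) j) X) + _ = _
    rw [hx]
    have eA : (Int.ofNat (Nat.pow 2 I.S)) = ((2 ^ I.S : ℕ) : ℤ) := rfl
    have eC : (Int.ofNat I.C1) = ((I.C1 : ℕ) : ℤ) := rfl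
    have eG : (Int.ofNat (Nat.mul 2 I.qG)) = ((2 * I.qG : ℕ) : ℤ) := rfl
    rw [eA, eC, eG]
    by_cases h0 : i = 0
    · have hb : Nat.beq i 0 = true := by rw [h0]; rfl
      rw [hb, cond_true, if_pos h0, hy.2 (Or.inl h0), rd_zero]
      ring
    · have hb : Nat.beq i 0 = false := by
        rw [Bool.eq_false_iff]
        exact fun h2 => h0 (Nat.eq_of_beq_eq_true h2)
      rw [hb, cond_false, if_neg h0]
      by_cases h1 : bp I.K ≤ i
      · have hb2 : Nat.ble (bp I.K) i = true := Nat.ble_eq_true_of_le h1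
        rw [hb2, cond_true, hy.2 (Or.inr h1), rd_zero]
        ring
      · have hb2 : Nat.ble (bp I.K) i = false := by
          rw [Bool.eq_false_iff]
          exact fun h2 => h1 (Nat.le_of_ble_eq_true h2)
        rw [hb2, cond_false, hy.1 (by omega) (by omega)]
        ring
  have zR : (i = 0 ∨ bp I.K ≤ i) → gxR I.K (dR I.bG I.gG) (dI I.bG I.gG) (I.kkX j) i = 0 ∧
      gxT I.K (dR I.bG I.gG) (dI I.bG I.gG) (I.kkX j) i = 0 := by
    intro h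
    unfold gxR gxT
    rcases h with h | h
    · rw [if_pos h, if_pos h]; exact ⟨rfl, rfl⟩
    · have h0 : ¬ i = 0 := by unfold bp at h; omega
      rw [if_neg h0, if_neg h0, if_neg (by omega), if_neg (by omega)]
      exact ⟨rfl, rfl⟩
  have gg : 0 < i → i < bp I.K → dgI I.bG (I.posX I.N2 j) (I.nLx i) =
      gxR I.K (dR I.bG I.gG) (dI I.bG I.gG) (I.kkX j) i ∧ dgI I.bG (I.posX I.N2 j) (I.nLy i) =
      gxT I.K (dR I.bG I.gG) (dI I.bG I.gG) (I.kkX j) i := by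
    intro h0 h1
    have := dig_L o h0 h1 q2
    rw [r2] at this
    exact this
  unfold fX
  by_cases he : j % 2 = 0
  · have hb : Nat.beq (Nat.mod j 2) 0 = true := by
      show Nat.beq (j % 2) 0 = true
      rw [he]; rfl
    rw [hb, cond_true, cond_true, cond_true, if_pos he]
    exact key _ _ (I.nDx i) (I.nLx i) 0 d1 ⟨fun h0 h1 => (gg h0 h1).1, fun h => (zR h).1⟩ _
  · have hb : Nat.beq (Nat.mod j 2) 0 = false := by
      rw [Bool.eq_false_iff]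
      exact fun h2 => he (Nat.eq_of_beq_eq_true h2)
    rw [hb, cond_false, cond_false, cond_false, if_neg he]
    exact key _ _ (I.nDy i) (I.nLy i) 0 d2 ⟨fun h0 h1 => (gg h0 h1).2, fun h => (zR h).2⟩ _

theorem row_col {b m n : ℕ} {f : ℕ → ℕ → ℤ} (hf : ∀ i < n, ∀ j < m, |f i j| < 2 ^ b) {i j : ℕ} (hi : i < n)
    (hj : j < m) : rowC b (colL (fun i => pkF b (f i) 0 m) 0 n) j i = f i j := by
  unfold rowC
  rw [colL_get _ _ _ _ hi, zero_add]
  exact dg_pkF b (f i) m (hf i hi) hj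

/-- **THE ROWS OF `X`** -/
theorem X_rows (o : I.Ok c M) {j : ℕ} (hj : j < 4 * I.J1) :
    (j % 2 = 0 → LR (nt I.K I.L) (2 ^ I.S) (fun v => (Xr c M (pV I.K I.L v) (rV I.K I.L v) (sV I.K v) (I.kkX j)).re)
      (rowC I.bo I.XC j) I.EX) ∧
    (¬ j % 2 = 0 → LR (nt I.K I.L) (2 ^ I.S) (fun v => (Xr c M (pV I.K I.L v) (rV I.K I.L v) (sV I.K v) (I.kkX j)).im)
      (rowC I.bo I.XC j) I.EX) := by
  have n := num_of o.num
  have n1 := n.n1
  have hj4 : j / 4 < I.J1 := by omega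
  have ha := abs_kkX (I := I) j
  have main := X_LC o (k := I.kkX j) (by rw [ha]; push_cast; omega) (by rw [ha]; push_cast; omega)
  have hf : ∀ i < nt I.K I.L, ∀ j < 4 * I.J1, |I.fX i j| < 2 ^ I.bo := by
    intro i hi j hj
    rw [fX_eq o hi hj]
    split_ifs
    · exact (rX_le o hi _).1
    · exact (rX_le o hi _).2
  have hr : ∀ i < nt I.K I.L, rowC I.bo I.XC j i = I.fX i j := fun i hi => row_col hf hi hj
  constructor
  · intro he
    refine main.re.congr (fun v _ => rfl) (fun i hi => ?_)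
    rw [hr i hi, fX_eq o hi hj, if_pos he]
  · intro he
    refine main.im.congr (fun v _ => rfl) (fun i hi => ?_)
    rw [hr i hi, fX_eq o hi hj, if_neg he]

end CIn

end Pool.Agent.Helper19.SH
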