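import Pool.Agent.Helper19.SH.ColI

/-!
# Project RC, SHARP, cell engine: THE COLLAR BLOCK, the rows of `Y`, `Z` (local part as an argument)
-/

set_option autoImplicit false

open Finset

namespace Pool.Agent.Helper19.SH

open Helper95.SH Helper95.RC
open Helper49.RC (om)
open Helper56.RC (fc)
open Pool.Agent.Helper64.SH
open Helper54.RC.Fast (FP len wf dg of)
open Pool.Agent.Helper31.KcF (dgI)

namespace CIn

variable {I : CIn} {c : CD} {M : ℕ}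

/-- rounded digits of the dense part -/
def QDR (I : CIn) (k : ℤ) (i : ℕ) : ℤ := rd (2 ^ I.S1 : ℕ) (I.C1 : ℕ) (I.WDR k i)
def QDT (I : CIn) (k : ℤ) (i : ℕ) : ℤ := rd (2 ^ I.S1 : ℕ) (I.C1 : ℕ) (I.WDT k i)
def QSR (I : CIn) (k : ℤ) (i : ℕ) : ℤ := rd (2 ^ I.S1 : ℕ) (I.C1 : ℕ) (I.WSR k i)
def QST (I : CIn) (k : ℤ) (i : ℕ) : ℤ := rd (2 ^ I.S1 : ℕ) (I.C1 : ℕ) (I.WST k i)

theorem Q_le (o : I.Ok c M) {i : ℕ} (hi : i < nt I.K I.L) (k : ℤ) :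
    (|I.QDR k i| ≤ (I.B1 : ℤ) ∧ |I.QDT k i| ≤ (I.B1 : ℤ)) ∧ (|I.QSR k i| ≤ (I.B1 : ℤ) ∧ |I.QST k i| ≤ (I.B1 : ℤ)) := by
  have n := num_of o.num
  have hC : (0 : ℤ) < ((I.C1 : ℕ) : ℤ) := by exact_mod_cast n.C1
  obtain ⟨⟨h1, h2⟩, h3, h4⟩ := WD_le o hi k
  have b1 := rd_abs (2 ^ I.S1) hC h1
  have b2 := rd_abs (2 ^ I.S1) hC h2
  have b3 := rd_abs (2 ^ I.S1) hC h3
  have b4 := rd_abs (2 ^ I.S1) hC h4
  rw [Int.toNat_natCast] at b1 b2 b3 b4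
  exact ⟨⟨b1, b2⟩, b3, b4⟩

theorem ok_DQ (o : I.Ok c M) : DQ c I.K I.L M (I.N - 2) (2 ^ I.S1) I.E1n I.QDR I.QDT I.QSR I.QST := by
  have n := num_of o.num
  have n1 := n.n1
  have he : ((ceD (2 ^ I.S1) I.C1 I.EW : ℕ) : ℝ) + 2 ≤ (I.E1n : ℝ) := by
    show _ ≤ ((ceD (2 ^ I.S1) I.C1 I.EW + 2 : ℕ) : ℝ)
    push_cast
    exact le_rfl
  refine ⟨fun k hk => ?_, fun k hk => ?_⟩
  · exact (dense o I.S1 (k := k) (by omega)).1.mono he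
  · exact (dense o I.S1 (k := k) (by omega)).2.mono he

theorem ci_le {a b : ℤ} {B : ℕ} (ha : |a| ≤ (B : ℤ)) (hb : |b| ≤ (B : ℤ)) : ‖ci a b‖ ≤ 2 * (B : ℝ) := by
  unfold ci
  refine (norm_add_le _ _).trans ?_
  rw [norm_mul, Complex.norm_I, one_mul, Complex.norm_intCast, Complex.norm_intCast]
  have h1 : ((|a| : ℤ) : ℝ) ≤ ((B : ℤ) : ℝ) := Int.cast_le.2 ha
  have h2 : ((|b| : ℤ) : ℝ) ≤ ((B : ℤ) : ℝ) := Int.cast_le.2 hb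
  push_cast at h1 h2
  linarith

theorem Num.sqrt3 (n : Num I) : |(I.q' : ℝ) * Real.sqrt 3 - ((I.t : ℕ) : ℤ)| ≤ 1 := by
  have := sqrt3_T n.t1 n.t2
  exact this

/-- the row of `Y` at the frequency `k` without the local part -/
def rYR (I : CIn) (k : ℤ) (i : ℕ) : ℤ := rd (2 ^ I.S : ℕ) (I.CY : ℕ)
  ((I.q' : ℤ) * (I.QDR k i + I.QDR (-k) i) - (I.t : ℤ) * (I.QST k i + I.QST (-k) i))
def rYT (I : CIn) (k : ℤ) (i : ℕ) : ℤ := rd (2 ^ I.S : ℕ) (I.CY : ℕ)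
  ((I.q' : ℤ) * (I.QDT k i - I.QDT (-k) i) + (I.t : ℤ) * (I.QSR k i - I.QSR (-k) i))
def rZR (I : CIn) (k : ℤ) (i : ℕ) : ℤ := rd (2 ^ I.S : ℕ) (I.CZ : ℕ)
  (4 * ((I.t : ℤ) * (I.QSR k i + I.QSR (-k) i)) + (I.q' : ℤ) * (I.QDT k i + I.QDT (-k) i))
def rZT (I : CIn) (k : ℤ) (i : ℕ) : ℤ := rd (2 ^ I.S : ℕ) (I.CZ : ℕ)
  (4 * ((I.t : ℤ) * (I.QST k i - I.QST (-k) i)) - (I.q' : ℤ) * (I.QDR k i - I.QDR (-k) i))

theorem Num.qY (n : Num I) : ((2 ^ I.S : ℕ) : ℝ) / ((I.CY : ℕ) : ℤ) * (4 * (I.q' : ℝ) * 2 ^ I.S1) = 2 ^ I.S := by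
  have h1 : (((I.CY : ℕ) : ℤ) : ℝ) = 4 * (I.q' : ℝ) * 2 ^ I.S1 := by
    show (((4 * I.q' * 2 ^ I.S1 : ℕ) : ℤ) : ℝ) = _
    push_cast
    ring
  have h2 : (((I.CY : ℕ) : ℤ) : ℝ) ≠ 0 := by
    have := n.CY
    have : (0 : ℝ) < ((I.CY : ℕ) : ℤ) := by exact_mod_cast this
    exact this.ne'
  rw [← h1, div_mul_cancel₀ _ h2]
  push_cast
  rfl

theorem Num.qZ (n : Num I) : ((2 ^ I.S : ℕ) : ℝ) / ((I.CZ : ℕ) : ℤ) * (8 * (I.q' : ℝ) * 2 ^ I.S1) = 2 ^ I.S := by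
  have h1 : (((I.CZ : ℕ) : ℤ) : ℝ) = 8 * (I.q' : ℝ) * 2 ^ I.S1 := by
    show (((8 * I.q' * 2 ^ I.S1 : ℕ) : ℤ) : ℝ) = _
    push_cast
    ring
  have h2 : (((I.CZ : ℕ) : ℤ) : ℝ) ≠ 0 := by
    have := n.CZ
    have : (0 : ℝ) < ((I.CZ : ℕ) : ℤ) := by exact_mod_cast this
    exact this.ne'
  rw [← h1, div_mul_cancel₀ _ h2]
  push_cast
  rfl

theorem denseY (o : I.Ok c M) {k : ℤ} (hk : |k| + 2 ≤ I.N) :
    LC (nt I.K I.L) (2 ^ I.S) (fun v => sy (wm c.P.eta (fun n =>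
        om * W1 c M (pV I.K I.L v) (rV I.K I.L v) (sV I.K v) n
          + om ^ 2 * W2 c M (pV I.K I.L v) (rV I.K I.L v) (sV I.K v) n)) k) (I.rYR k) (I.rYT k)
      ((ceD (2 ^ I.S) I.CY (2 * ((I.q' + I.t) * I.E1n + (2 * I.B1 + I.E1n))) : ℕ) + 2) := by
  have n := num_of o.num
  have hC : (0 : ℤ) < ((I.CY : ℕ) : ℤ) := by exact_mod_cast n.CY
  have hM : ∀ k : ℤ, |k| ≤ ((I.N - 2 : ℕ) : ℤ) → ∀ i < nt I.K I.L, ‖ci (I.QSR k i) (I.QST k i)‖ ≤ 2 * (I.B1 : ℝ) :=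
    fun k _ i hi => ci_le (Q_le o hi k).2.1 (Q_le o hi k).2.2
  have h := ((ok_DQ o).Y n.sqrt3 hM (k := k) (by omega)).rd (2 ^ I.S) hC
  rw [n.qY] at h
  refine (h.mono ?_).congr (fun v _ => rfl) (fun i _ => rfl) (fun i _ => rfl)
  have h2 := ceD_le (A := 2 ^ I.S) n.CY (2 * ((I.q' + I.t) * I.E1n + (2 * I.B1 + I.E1n)))
  have e1 : |(((I.t : ℕ) : ℤ) : ℝ)| = (I.t : ℝ) := by rw [Int.cast_natCast, Nat.abs_cast]
  rw [e1]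
  push_cast at h2 ⊢
  linarith

theorem denseZ (o : I.Ok c M) {k : ℤ} (hk : |k| + 2 ≤ I.N) :
    LC (nt I.K I.L) (2 ^ I.S) (fun v => sy (wm c.P.eta (fun n =>
        (starRingEnd ℂ) (kq 2) * W1 c M (pV I.K I.L v) (rV I.K I.L v) (sV I.K v) n
          + kq 2 * W2 c M (pV I.K I.L v) (rV I.K I.L v) (sV I.K v) n)) k) (I.rZR k) (I.rZT k)
      ((ceD (2 ^ I.S) I.CZ (2 * ((I.q' + 4 * I.t) * I.E1n + 4 * (2 * I.B1 + I.E1n))) : ℕ) + 2) := by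
  have n := num_of o.num
  have hC : (0 : ℤ) < ((I.CZ : ℕ) : ℤ) := by exact_mod_cast n.CZ
  have hM : ∀ k : ℤ, |k| ≤ ((I.N - 2 : ℕ) : ℤ) → ∀ i < nt I.K I.L, ‖ci (I.QSR k i) (I.QST k i)‖ ≤ 2 * (I.B1 : ℝ) :=
    fun k _ i hi => ci_le (Q_le o hi k).2.1 (Q_le o hi k).2.2
  have h := ((ok_DQ o).Z n.sqrt3 hM (k := k) (by omega)).rd (2 ^ I.S) hC
  rw [n.qZ] at h
  refine (h.mono ?_).congr (fun v _ => rfl) (fun i _ => rfl) (fun i _ => rfl)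
  have h2 := ceD_le (A := 2 ^ I.S) n.CZ (2 * ((I.q' + 4 * I.t) * I.E1n + 4 * (2 * I.B1 + I.E1n)))
  have e1 : |(((I.t : ℕ) : ℤ) : ℝ)| = (I.t : ℝ) := by rw [Int.cast_natCast, Nat.abs_cast]
  rw [e1]
  push_cast at h2 ⊢
  linarith

/-! ### sizes -/

theorem comb_le {q t B : ℕ} {a b x y : ℤ} (ha : |a| ≤ (B : ℤ)) (hb : |b| ≤ (B : ℤ)) (hx : |x| ≤ (B : ℤ))
    (hy : |y| ≤ (B : ℤ)) :
    (|(q : ℤ) * (a + b) - (t : ℤ) * (x + y)| ≤ ((2 * ((q + t) * B) : ℕ) : ℤ) ∧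
      |(q : ℤ) * (a - b) + (t : ℤ) * (x - y)| ≤ ((2 * ((q + t) * B) : ℕ) : ℤ)) ∧
    (|4 * ((t : ℤ) * (x + y)) + (q : ℤ) * (a + b)| ≤ ((2 * ((q + 4 * t) * B) : ℕ) : ℤ) ∧
      |4 * ((t : ℤ) * (x - y)) - (q : ℤ) * (a - b)| ≤ ((2 * ((q + 4 * t) * B) : ℕ) : ℤ)) := by
  have hq : (0 : ℤ) ≤ q := Int.natCast_nonneg _
  have ht : (0 : ℤ) ≤ t := Int.natCast_nonneg _
  rw [abs_le] at ha hb hx hy
  have p : ∀ (w : ℤ), 0 ≤ w → ∀ z : ℤ, -(2 * (B : ℤ)) ≤ z → z ≤ 2 * (B : ℤ) →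
      -(2 * (B : ℤ)) * w ≤ w * z ∧ w * z ≤ 2 * (B : ℤ) * w := by
    intro w hw z h1 h2
    constructor
    · nlinarith
    · nlinarith
  have s1 := p q hq (a + b) (by linarith) (by linarith)
  have s2 := p q hq (a - b) (by linarith) (by linarith)
  have s3 := p t ht (x + y) (by linarith) (by linarith)
  have s4 := p t ht (x - y) (by linarith) (by linarith)
  push_cast
  refine ⟨⟨abs_le.2 ⟨?_, ?_⟩, abs_le.2 ⟨?_, ?_⟩⟩, abs_le.2 ⟨?_, ?_⟩, abs_le.2 ⟨?_, ?_⟩⟩ <;> nlinarith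

theorem rY_le (o : I.Ok c M) {i : ℕ} (hi : i < nt I.K I.L) (k : ℤ) :
    |I.rYR k i| ≤ ((2 ^ I.S * (2 * ((I.q' + I.t) * I.B1)) / I.CY + 1 : ℕ) : ℤ) ∧
    |I.rYT k i| ≤ ((2 ^ I.S * (2 * ((I.q' + I.t) * I.B1)) / I.CY + 1 : ℕ) : ℤ) := by
  have n := num_of o.num
  have hC : (0 : ℤ) < ((I.CY : ℕ) : ℤ) := by exact_mod_cast n.CY
  obtain ⟨⟨a1, a2⟩, a3, a4⟩ := Q_le o hi k
  obtain ⟨⟨b1, b2⟩, b3, b4⟩ := Q_le o hi (-k)
  have c1 := rd_abs (2 ^ I.S) hC (comb_le (q := I.q') (t := I.t) a1 b1 a4 b4).1.1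
  have c2 := rd_abs (2 ^ I.S) hC (comb_le (q := I.q') (t := I.t) a2 b2 a3 b3).1.2
  rw [Int.toNat_natCast] at c1 c2
  exact ⟨c1, c2⟩

theorem rZ_le (o : I.Ok c M) {i : ℕ} (hi : i < nt I.K I.L) (k : ℤ) :
    |I.rZR k i| ≤ ((2 ^ I.S * (2 * ((I.q' + 4 * I.t) * I.B1)) / I.CZ + 1 : ℕ) : ℤ) ∧
    |I.rZT k i| ≤ ((2 ^ I.S * (2 * ((I.q' + 4 * I.t) * I.B1)) / I.CZ + 1 : ℕ) : ℤ) := by
  have n := num_of o.num
  have hC : (0 : ℤ) < ((I.CZ : ℕ) : ℤ) := by exact_mod_cast n.CZ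
  obtain ⟨⟨a1, a2⟩, a3, a4⟩ := Q_le o hi k
  obtain ⟨⟨b1, b2⟩, b3, b4⟩ := Q_le o hi (-k)
  have c1 := rd_abs (2 ^ I.S) hC (comb_le (q := I.q') (t := I.t) a2 b2 a3 b3).2.1
  have c2 := rd_abs (2 ^ I.S) hC (comb_le (q := I.q') (t := I.t) a1 b1 a4 b4).2.2
  rw [Int.toNat_natCast] at c1 c2
  exact ⟨c1, c2⟩

/-! ### evaluation -/

theorem dS1_eq (o : I.Ok c M) {i j : ℕ} (hi : i < nt I.K I.L) (hj : j < I.J2) :
    ((I.dS1 (I.nDx i) (I.posP j) = I.QDR (I.kkL j) i ∧ I.dS1 (I.nDy i) (I.posP j) = I.QDT (I.kkL j) i) ∧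
      (I.dS1 (I.nSx i) (I.posP j) = I.QSR (I.kkL j) i ∧ I.dS1 (I.nSy i) (I.posP j) = I.QST (I.kkL j) i)) ∧
    ((I.dS1 (I.nDx i) (I.posM j) = I.QDR (-I.kkL j) i ∧ I.dS1 (I.nDy i) (I.posM j) = I.QDT (-I.kkL j) i) ∧
      (I.dS1 (I.nSx i) (I.posM j) = I.QSR (-I.kkL j) i ∧ I.dS1 (I.nSy i) (I.posM j) = I.QST (-I.kkL j) i)) := by
  have n := num_of o.num
  have n2 := n.n2
  have eP : I.posP j = I.N + 2 + (I.L + 2 + 2 * j) := rfl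
  have eM : I.posM j = I.N + 2 - (I.L + 2 + 2 * j) := rfl
  have q1 : I.posP j ≤ 2 * (I.N + 2) := by rw [eP]; omega
  have q2 : I.posM j ≤ 2 * (I.N + 2) := by rw [eM]; omega
  have r1 : ((I.posP j : ℕ) : ℤ) - (I.N + 2 : ℕ) = I.kkL j := by
    rw [eP]; unfold kkL; push_cast; ring
  have r2 : ((I.posM j : ℕ) : ℤ) - (I.N + 2 : ℕ) = -I.kkL j := by
    rw [eM, Nat.cast_sub (by omega)]; unfold kkL; push_cast; ring
  obtain ⟨⟨d1, d2⟩, d3, d4⟩ := dig_D o hi q1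
  obtain ⟨⟨f1, f2⟩, f3, f4⟩ := dig_D o hi q2
  rw [r1] at d1 d2 d3 d4
  rw [r2] at f1 f2 f3 f4
  unfold dS1 QDR QDT QSR QST
  rw [d1, d2, d3, d4, f1, f2, f3, f4]
  exact ⟨⟨⟨rfl, rfl⟩, rfl, rfl⟩, ⟨rfl, rfl⟩, rfl, rfl⟩

theorem y_eq (o : I.Ok c M) {i j : ℕ} (hi : i < nt I.K I.L) (hj : j < I.J2) :
    (I.yR i j = I.rYR (I.kkL j) i ∧ I.yT i j = I.rYT (I.kkL j) i) ∧
    (I.zR i j = I.rZR (I.kkL j) i ∧ I.zT i j = I.rZT (I.kkL j) i) := by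
  obtain ⟨⟨⟨a1, a2⟩, a3, a4⟩, ⟨b1, b2⟩, b3, b4⟩ := dS1_eq o hi hj
  unfold yR yT zR zT rYR rYT rZR rZT
  rw [a1, a2, a3, a4, b1, b2, b3, b4]
  exact ⟨⟨rfl, rfl⟩, rfl, rfl⟩

theorem lY_zero {i : ℕ} (hi : i < bp I.K + I.L - 3) (h4 : 4 ≤ I.L) (j : ℕ) :
    (lcR (I.lY j) i = 0 ∧ lcT (I.lY j) i = 0) ∧ (lcR (I.lZ j) i = 0 ∧ lcT (I.lZ j) i = 0) := by
  have z : ∀ (i0 : ℕ) (a b : ℤ), i < i0 → ptR i0 a b i = 0 ∧ ptT i0 a b i = 0 := by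
    intro i0 a b h
    unfold ptR ptT
    rw [if_neg (by omega), if_neg (by omega), if_neg (by omega), if_neg (by omega)]
    exact ⟨rfl, rfl⟩
  have g1 : i < bp I.K + I.L - 1 := by omega
  have g3 : i < br I.K I.L + I.L - 1 := by unfold br; omega
  have g4 : i < br I.K I.L + I.L - 3 := by unfold br; omega
  have r : ∀ x y : ℤ, Int.add x y = x + y := fun _ _ => rfl
  match j with
  | 0 =>
    show (lcR I.lY2 i = 0 ∧ lcT I.lY2 i = 0) ∧ (lcR I.lZ2 i = 0 ∧ lcT I.lZ2 i = 0)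
    unfold lY2 lZ2
    simp only [lcR, lcT, r, (z _ _ _ g1).1, (z _ _ _ g1).2, (z _ _ _ hi).1, (z _ _ _ hi).2, (z _ _ _ g3).1, (z _ _ _ g3).2,
      (z _ _ _ g4).1, (z _ _ _ g4).2, add_zero, and_self]
  | 1 =>
    show (lcR I.lY4 i = 0 ∧ lcT I.lY4 i = 0) ∧ (lcR I.lZ4 i = 0 ∧ lcT I.lZ4 i = 0)
    unfold lY4 lZ4
    simp only [lcR, lcT, r, (z _ _ _ g1).1, (z _ _ _ g1).2, (z _ _ _ g3).1, (z _ _ _ g3).2, add_zero, and_self]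
  | j + 2 => exact ⟨⟨rfl, rfl⟩, rfl, rfl⟩

theorem lcA_le (j : ℕ) : lcA (I.lY j) ≤ lcA I.lY2 + lcA I.lY4 ∧ lcA (I.lZ j) ≤ lcA I.lZ2 + lcA I.lZ4 := by
  match j with
  | 0 => exact ⟨Nat.le_add_right _ _, Nat.le_add_right _ _⟩
  | 1 => exact ⟨Nat.le_add_left _ _, Nat.le_add_left _ _⟩
  | j + 2 => exact ⟨Nat.zero_le _, Nat.zero_le _⟩

/-- entries: constant + dense + local -/
theorem fY_eq (o : I.Ok c M) {i j : ℕ} (hi : i < nt I.K I.L) (hj : j < 2 * I.J2) :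
    (I.fY i j = if j % 2 = 0
      then (if i = 0 then dR I.bK I.kY (I.kkL (j / 2)) else 0) + I.rYR (I.kkL (j / 2)) i + lcR (I.lY (j / 2)) i
      else (if i = 0 then dI I.bK I.kY (I.kkL (j / 2)) else 0) + I.rYT (I.kkL (j / 2)) i + lcT (I.lY (j / 2)) i) ∧
    (I.fZ i j = if j % 2 = 0
      then (if i = 0 then dR I.bK I.kZ (I.kkL (j / 2)) else 0) + I.rZR (I.kkL (j / 2)) i + lcR (I.lZ (j / 2)) i
      else (if i = 0 then dI I.bK I.kZ (I.kkL (j / 2)) else 0) + I.rZT (I.kkL (j / 2)) i + lcT (I.lZ (j / 2)) i) := by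
  have n := num_of o.num
  have hj2 : j / 2 < I.J2 := by omega
  obtain ⟨⟨y1, y2⟩, z1, z2⟩ := y_eq o hi hj2
  have key : ∀ (y z : ℤ) (w : ℤ), (i = 0 → w = 0) →
      Int.add y (bif Nat.beq i 0 then z else w) = (if i = 0 then z else 0) + y + w := by
    intro y z w hw
    by_cases h0 : i = 0
    · have hb : Nat.beq i 0 = true := by rw [h0]; rfl
      rw [hb, cond_true, if_pos h0, hw h0]
      show y + z = _
      ring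
    · have hb : Nat.beq i 0 = false := by
        rw [Bool.eq_false_iff]
        exact fun h2 => h0 (Nat.eq_of_beq_eq_true h2)
      rw [hb, cond_false, if_neg h0]
      show y + w = _
      ring
  have hz : i = 0 → (lcR (I.lY (j / 2)) i = 0 ∧ lcT (I.lY (j / 2)) i = 0) ∧
      (lcR (I.lZ (j / 2)) i = 0 ∧ lcT (I.lZ (j / 2)) i = 0) := by
    intro h
    have h4 := n.L4
    exact lY_zero (by unfold bp; omega) n.L4 _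
  have ed : Nat.div j 2 = j / 2 := rfl
  unfold fY fZ
  rw [ed, y1, y2, z1, z2]
  by_cases he : j % 2 = 0
  · have hb : Nat.beq (Nat.mod j 2) 0 = true := by
      show Nat.beq (j % 2) 0 = true
      rw [he]; rfl
    rw [hb, cond_true, cond_true, if_pos he, if_pos he]
    exact ⟨key _ _ _ fun h => (hz h).1.1, key _ _ _ fun h => (hz h).2.1⟩
  · have hb : Nat.beq (Nat.mod j 2) 0 = false := by
      rw [Bool.eq_false_iff]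
      exact fun h2 => he (Nat.eq_of_beq_eq_true h2)
    rw [hb, cond_false, cond_false, if_neg he, if_neg he]
    exact ⟨key _ _ _ fun h => (hz h).1.2, key _ _ _ fun h => (hz h).2.2⟩

theorem fY_le (o : I.Ok c M) {i j : ℕ} (hi : i < nt I.K I.L) (hj : j < 2 * I.J2) :
    |I.fY i j| < 2 ^ I.bo ∧ |I.fZ i j| < 2 ^ I.bo := by
  have n := num_of o.num
  have k0 : ∀ (z : ℤ), |z| ≤ (I.DK : ℤ) → |if i = 0 then z else 0| ≤ (I.DK : ℤ) := by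
    intro z hz
    split_ifs
    · exact hz
    · rw [abs_zero]; positivity
  have hbY : (((2 ^ I.S * (2 * ((I.q' + I.t) * I.B1)) / I.CY + 1) + (lcA I.lY2 + lcA I.lY4) + I.DK : ℕ) : ℤ) < 2 ^ I.bo := by
    exact_mod_cast n.bY
  have hbZ : (((2 ^ I.S * (2 * ((I.q' + 4 * I.t) * I.B1)) / I.CZ + 1) + (lcA I.lZ2 + lcA I.lZ4) + I.DK : ℕ) : ℤ)
      < 2 ^ I.bo := by
    exact_mod_cast n.bZ
  rw [Nat.cast_add, Nat.cast_add] at hbY hbZ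
  have l1 : ((lcA (I.lY (j / 2)) : ℕ) : ℤ) ≤ ((lcA I.lY2 + lcA I.lY4 : ℕ) : ℤ) := by exact_mod_cast (lcA_le (j / 2)).1
  have l2 : ((lcA (I.lZ (j / 2)) : ℕ) : ℤ) ≤ ((lcA I.lZ2 + lcA I.lZ4 : ℕ) : ℤ) := by exact_mod_cast (lcA_le (j / 2)).2
  have a1 := rY_le o hi (I.kkL (j / 2))
  have a2 := rZ_le o hi (I.kkL (j / 2))
  have sum3 : ∀ {x y z : ℤ} {A B C T : ℤ}, |x| ≤ A → |y| ≤ B → |z| ≤ C → B + C + A < T → |x + y + z| < T := by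
    intro x y z A B C T hx hy hz h
    exact lt_of_le_of_lt ((abs_add_le _ _).trans (add_le_add ((abs_add_le _ _).trans (add_le_add hx hy)) hz))
      (by linarith)
  obtain ⟨e1, e2⟩ := fY_eq o hi hj
  rw [e1, e2]
  constructor
  · split_ifs with he h0
    · exact sum3 (by have := k0 _ (o.dY (I.kkL (j / 2))).1; rwa [if_pos h0] at this) a1.1 ((lcR_le _ i).trans l1) hbY
    · exact sum3 (by rw [abs_zero]; positivity) a1.1 ((lcR_le _ i).trans l1) hbY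
    · exact sum3 (o.dY (I.kkL (j / 2))).2 a1.2 ((lcT_le _ i).trans l1) hbY
    · exact sum3 (by rw [abs_zero]; positivity) a1.2 ((lcT_le _ i).trans l1) hbY
  · split_ifs with he h0
    · exact sum3 (o.dZ (I.kkL (j / 2))).1 a2.1 ((lcR_le _ i).trans l2) hbZ
    · exact sum3 (by rw [abs_zero]; positivity) a2.1 ((lcR_le _ i).trans l2) hbZ
    · exact sum3 (o.dZ (I.kkL (j / 2))).2 a2.2 ((lcT_le _ i).trans l2) hbZ
    · exact sum3 (by rw [abs_zero]; positivity) a2.2 ((lcT_le _ i).trans l2) hbZ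

/-- **THE ROWS OF `Y`, `Z`** from the local rows -/
theorem YZ_rows (o : I.Ok c M)
    (hY : ∀ j, LC (nt I.K I.L) (2 ^ I.S) (fun v => sy (wm c.P.eta (gL c (pV I.K I.L v) (rV I.K I.L v))) (I.kkL j)
      + ((9 - c.P.cs - c.L.p2 * (c.P.m - c.P.lam) : ℝ) : ℂ) * wm c.P.eta (pV I.K I.L v) (I.kkL j))
      (lcR (I.lY j)) (lcT (I.lY j)) 10)
    (hZ : ∀ j, LC (nt I.K I.L) (2 ^ I.S) (fun v => sy (wm c.P.eta (fun n => -(Complex.I / 2) *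
        gL c (pV I.K I.L v) (rV I.K I.L v) n)) (I.kkL j)
      + ((9 - c.P.cs - c.L.p3 * (c.P.m - c.P.lam) : ℝ) : ℂ) * wm c.P.eta (rV I.K I.L v) (I.kkL j))
      (lcR (I.lZ j)) (lcT (I.lZ j)) 10) {j : ℕ} (hj : j < 2 * I.J2) :
    ((j % 2 = 0 → LR (nt I.K I.L) (2 ^ I.S)
        (fun v => (Yr c M (pV I.K I.L v) (rV I.K I.L v) (sV I.K v) (I.kkL (j / 2))).re) (rowC I.bo I.YC j) I.EY) ∧
      (¬ j % 2 = 0 → LR (nt I.K I.L) (2 ^ I.S)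
        (fun v => (Yr c M (pV I.K I.L v) (rV I.K I.L v) (sV I.K v) (I.kkL (j / 2))).im) (rowC I.bo I.YC j) I.EY)) ∧
    ((j % 2 = 0 → LR (nt I.K I.L) (2 ^ I.S)
        (fun v => (Zr c M (pV I.K I.L v) (rV I.K I.L v) (sV I.K v) (I.kkL (j / 2))).re) (rowC I.bo I.ZC j) I.EZ) ∧
      (¬ j % 2 = 0 → LR (nt I.K I.L) (2 ^ I.S)
        (fun v => (Zr c M (pV I.K I.L v) (rV I.K I.L v) (sV I.K v) (I.kkL (j / 2))).im) (rowC I.bo I.ZC j) I.EZ)) := by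
  have n := num_of o.num
  have n2 := n.n2
  have hn : 0 < nt I.K I.L := by unfold nt; omega
  have hj2 : j / 2 < I.J2 := by omega
  have kl : (I.L : ℤ) < I.kkL (j / 2) := by unfold kkL; omega
  have ka : |I.kkL (j / 2)| + 2 ≤ I.N := by
    rw [abs_of_nonneg (by omega)]
    unfold kkL
    omega
  have mY := ((LC.cst hn (o.kY _ kl)).add (denseY o ka)).add (hY (j / 2))
  have mZ := ((LC.cst hn (o.kZ _ kl)).add (denseZ o ka)).add (hZ (j / 2))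
  have eY : (I.eK : ℝ) + (((ceD (2 ^ I.S) I.CY (2 * ((I.q' + I.t) * I.E1n + (2 * I.B1 + I.E1n))) : ℕ) : ℝ) + 2) + 10 ≤
      (I.EY : ℝ) := by
    show _ ≤ ((ceD (2 ^ I.S) I.CY (2 * ((I.q' + I.t) * I.E1n + (2 * I.B1 + I.E1n))) + 12 + I.eK : ℕ) : ℝ)
    push_cast
    linarith
  have eZ : (I.eK : ℝ) + (((ceD (2 ^ I.S) I.CZ (2 * ((I.q' + 4 * I.t) * I.E1n + 4 * (2 * I.B1 + I.E1n))) : ℕ) : ℝ) + 2)
      + 10 ≤ (I.EZ : ℝ) := by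
    show _ ≤ ((ceD (2 ^ I.S) I.CZ (2 * ((I.q' + 4 * I.t) * I.E1n + 4 * (2 * I.B1 + I.E1n))) + 12 + I.eK : ℕ) : ℝ)
    push_cast
    linarith
  have pz : ∀ v, pV I.K I.L v (I.kkL (j / 2)) = 0 := fun v => hV_sup _ _ _ _ (by rw [Finset.mem_Icc]; omega)
  have rz : ∀ v, rV I.K I.L v (I.kkL (j / 2)) = 0 := fun v => hV_sup _ _ _ _ (by rw [Finset.mem_Icc]; omega)
  have cY : ∀ v, v 0 = 1 → Yr c M (pV I.K I.L v) (rV I.K I.L v) (sV I.K v) (I.kkL (j / 2)) = _ := fun v _ =>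
    (Yr_eq c M (pV I.K I.L v) (rV I.K I.L v) (sV I.K v) (I.kkL (j / 2))).trans (by rw [pz v, mul_zero, sub_zero])
  have cZ : ∀ v, v 0 = 1 → Zr c M (pV I.K I.L v) (rV I.K I.L v) (sV I.K v) (I.kkL (j / 2)) = _ := fun v _ =>
    (Zr_eq c M (pV I.K I.L v) (rV I.K I.L v) (sV I.K v) (I.kkL (j / 2))).trans (by rw [rz v, mul_zero, sub_zero])
  have gY := (mY.mono eY).congr cY (fun _ _ => rfl) (fun _ _ => rfl)
  have gZ := (mZ.mono eZ).congr cZ (fun _ _ => rfl) (fun _ _ => rfl)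
  have rY : ∀ i < nt I.K I.L, rowC I.bo I.YC j i = I.fY i j := fun i hi =>
    row_col (fun i hi j hj => (fY_le o hi hj).1) hi hj
  have rZ : ∀ i < nt I.K I.L, rowC I.bo I.ZC j i = I.fZ i j := fun i hi =>
    row_col (fun i hi j hj => (fY_le o hi hj).2) hi hj
  refine ⟨⟨fun he => ?_, fun he => ?_⟩, fun he => ?_, fun he => ?_⟩
  · refine gY.re.congr (fun v _ => rfl) (fun i hi => ?_)
    rw [rY i hi, (fY_eq o hi hj).1, if_pos he]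
  · refine gY.im.congr (fun v _ => rfl) (fun i hi => ?_)
    rw [rY i hi, (fY_eq o hi hj).1, if_neg he]
  · refine gZ.re.congr (fun v _ => rfl) (fun i hi => ?_)
    rw [rZ i hi, (fY_eq o hi hj).2, if_pos he]
  · refine gZ.im.congr (fun v _ => rfl) (fun i hi => ?_)
    rw [rZ i hi, (fY_eq o hi hj).2, if_neg he]

end CIn

end Pool.Agent.Helper19.SH
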