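import Pool.Agent.Helper19.SH.ColH

/-!
# Project RC, SHARP, cell engine: THE COLLAR BLOCK, the local rows of `Y`, `Z`
-/

set_option autoImplicit false

open Finset

namespace Pool.Agent.Helper19.SH

open Helper95.SH Helper95.RC
open Helper49.RC (om)
open Helper56.RC (fc)
open Pool.Agent.Helper64.SH
open Helper54.RC.Fast (FP len wf dg of)
open Pool.Agent.Helper31.KcF (dgI)

theorem LC.nil {n : ℕ} {q : ℝ} : LC n q (fun _ => 0) (lcR []) (lcT []) 0 :=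
  ⟨fun _ => 0, fun v _ => by simp, fun i _ => by
    show CA q 0 0 0 0
    unfold CA
    rw [ci_zero]
    simp⟩

theorem LC.cons {n : ℕ} {q e e' : ℝ} {c : ℂ} {a b : ℤ} {X : (ℕ → ℝ) → ℂ} {l : List (ℕ × ℤ × ℤ)} (h : CA q c a b e)
    {i0 : ℕ} (hi : i0 + 1 < n) (k : LC n q X (lcR l) (lcT l) e') :
    LC n q (fun v => c * ((v i0 : ℂ) + Complex.I * (v (i0 + 1) : ℂ)) + X v) (lcR ((i0, a, b) :: l))
      (lcT ((i0, a, b) :: l)) (e + e') :=
  ((LC.pt h hi).add k).congr (fun _ _ => rfl) (fun _ _ => rfl) (fun _ _ => rfl)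

theorem hm_pr {K L : ℕ} (v : ℕ → ℝ) : Hm L (pV K L v) (rV K L v) :=
  ⟨hV_sup _ _ _, hV_sup _ _ _, hV_neg _ _ _, hV_neg _ _ _⟩

namespace CIn

variable {I : CIn} {c : CD} {M : ℕ}

theorem CA_rf {z : ℂ} {D x y : ℤ} (hD : 0 < D) (h : (D : ℂ) * z = ci x y) :
    CA (2 ^ I.S) z (I.rf D x) (I.rf D y) 2 := by
  have h1 := CA_frac hD h (2 ^ I.S)
  have e1 : ((2 ^ I.S : ℕ) : ℝ) = 2 ^ I.S := by
    push_cast
    rfl
  rw [e1] at h1
  exact h1

theorem w_sq (o : I.Ok c M) : ((I.den : ℂ) * c.P.eta) ^ 2 = ci I.w1 I.w2 := by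
  rw [o.eta]
  unfold ci w1 w2
  push_cast
  have := Complex.I_sq
  linear_combination ((I.e2 : ℂ) ^ 2) * this

theorem Dn_C (L den : ℕ) : ((Dn L den : ℤ) : ℂ) = 8 * (den : ℂ) ^ 2 * (((L : ℂ) + 3) * ((L : ℂ) + 1) * ((L : ℂ) - 1)) := by
  unfold Dn
  push_cast
  ring

/-- the coefficients times the common denominator -/
theorem ycD (o : I.Ok c M) (h4 : 4 ≤ I.L) :
    ((Dn I.L I.den : ℤ) : ℂ) * yc I.L c.P.eta 0 = ci (-16 * I.den * (I.L + 1) * I.e1) (-16 * I.den * (I.L + 1) * I.e2) ∧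
    ((Dn I.L I.den : ℤ) : ℂ) * yc I.L c.P.eta 1 = ci (-8 * (I.L + 3) * I.w1) (-8 * (I.L + 3) * I.w2) ∧
    ((Dn I.L I.den : ℤ) : ℂ) * yc I.L c.P.eta 2 = ci (-2 * I.den * tA I.L * I.e2) (2 * I.den * tA I.L * I.e1) ∧
    ((Dn I.L I.den : ℤ) : ℂ) * yc I.L c.P.eta 3 = ci (-2 * tB I.L * I.w2) (2 * tB I.L * I.w1) := by
  obtain ⟨d1, d2, d3⟩ := denL h4
  have h1 := o.eta
  have h2 := w_sq o
  unfold ci at h1 h2
  have hI := Complex.I_sq
  rw [Dn_C]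
  refine ⟨?_, ?_, ?_, ?_⟩
  · simp only [yc, Matrix.cons_val]
    have e : 8 * (I.den : ℂ) ^ 2 * (((I.L : ℂ) + 3) * ((I.L : ℂ) + 1) * ((I.L : ℂ) - 1)) *
        (-2 * c.P.eta / (((I.L : ℂ) + 3) * ((I.L : ℂ) - 1))) =
        -16 * (I.den : ℂ) * ((I.L : ℂ) + 1) * ((I.den : ℂ) * c.P.eta) := by
      field_simp
      ring
    rw [e, h1]
    unfold ci
    push_cast
    ring
  · simp only [yc, Matrix.cons_val]
    have e : 8 * (I.den : ℂ) ^ 2 * (((I.L : ℂ) + 3) * ((I.L : ℂ) + 1) * ((I.L : ℂ) - 1)) *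
        (-c.P.eta ^ 2 / (((I.L : ℂ) + 1) * ((I.L : ℂ) - 1))) =
        -8 * ((I.L : ℂ) + 3) * ((I.den : ℂ) * c.P.eta) ^ 2 := by
      field_simp
    rw [e, h2]
    unfold ci
    push_cast
    ring
  · simp only [yc, Matrix.cons_val]
    have e : 8 * (I.den : ℂ) ^ 2 * (((I.L : ℂ) + 3) * ((I.L : ℂ) + 1) * ((I.L : ℂ) - 1)) *
        (Complex.I / 4 * c.P.eta * (1 / ((I.L : ℂ) + 3) + 2 / ((I.L : ℂ) + 1) + 1 / ((I.L : ℂ) - 1))) =
        2 * (I.den : ℂ) * (((I.L : ℂ) + 1) * ((I.L : ℂ) - 1) + 2 * (((I.L : ℂ) + 3) * ((I.L : ℂ) - 1))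
          + ((I.L : ℂ) + 3) * ((I.L : ℂ) + 1)) * (Complex.I * ((I.den : ℂ) * c.P.eta)) := by
      field_simp
      ring
    rw [e, h1]
    unfold ci tA
    push_cast
    linear_combination (2 * (I.den : ℂ) * (((I.L : ℂ) + 1) * ((I.L : ℂ) - 1) + 2 * (((I.L : ℂ) + 3) * ((I.L : ℂ) - 1))
          + ((I.L : ℂ) + 3) * ((I.L : ℂ) + 1)) * (I.e2 : ℂ)) * hI
  · simp only [yc, Matrix.cons_val]
    have e : 8 * (I.den : ℂ) ^ 2 * (((I.L : ℂ) + 3) * ((I.L : ℂ) + 1) * ((I.L : ℂ) - 1)) *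
        (Complex.I / 4 * c.P.eta ^ 2 * (1 / ((I.L : ℂ) + 1) + 1 / ((I.L : ℂ) - 1))) =
        2 * (((I.L : ℂ) + 3) * ((I.L : ℂ) - 1) + ((I.L : ℂ) + 3) * ((I.L : ℂ) + 1)) *
          (Complex.I * ((I.den : ℂ) * c.P.eta) ^ 2) := by
      field_simp
      ring
    rw [e, h2]
    unfold ci tB
    push_cast
    linear_combination (2 * (((I.L : ℂ) + 3) * ((I.L : ℂ) - 1) + ((I.L : ℂ) + 3) * ((I.L : ℂ) + 1)) * (I.w2 : ℂ)) * hI

theorem yc4D (o : I.Ok c M) (h4 : 4 ≤ I.L) :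
    ((Dn I.L I.den : ℤ) : ℂ) * yc4 I.L c.P.eta 0 = ci (-8 * (I.L - 1) * I.w1) (-8 * (I.L - 1) * I.w2) ∧
    ((Dn I.L I.den : ℤ) : ℂ) * yc4 I.L c.P.eta 1 = ci (-2 * tC I.L * I.w2) (2 * tC I.L * I.w1) := by
  obtain ⟨d1, d2, d3⟩ := denL h4
  have h2 := w_sq o
  unfold ci at h2
  have hI := Complex.I_sq
  rw [Dn_C]
  refine ⟨?_, ?_⟩
  · simp only [yc4, Matrix.cons_val]
    have e : 8 * (I.den : ℂ) ^ 2 * (((I.L : ℂ) + 3) * ((I.L : ℂ) + 1) * ((I.L : ℂ) - 1)) *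
        (-c.P.eta ^ 2 / (((I.L : ℂ) + 3) * ((I.L : ℂ) + 1))) =
        -8 * ((I.L : ℂ) - 1) * ((I.den : ℂ) * c.P.eta) ^ 2 := by
      field_simp
    rw [e, h2]
    unfold ci
    push_cast
    ring
  · simp only [yc4, Matrix.cons_val]
    have e : 8 * (I.den : ℂ) ^ 2 * (((I.L : ℂ) + 3) * ((I.L : ℂ) + 1) * ((I.L : ℂ) - 1)) *
        (Complex.I / 4 * c.P.eta ^ 2 * (1 / ((I.L : ℂ) + 3) + 1 / ((I.L : ℂ) + 1))) =
        2 * (((I.L : ℂ) + 1) * ((I.L : ℂ) - 1) + ((I.L : ℂ) + 3) * ((I.L : ℂ) - 1)) *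
          (Complex.I * ((I.den : ℂ) * c.P.eta) ^ 2) := by
      field_simp
      ring
    rw [e, h2]
    unfold ci tC
    push_cast
    linear_combination (2 * (((I.L : ℂ) + 1) * ((I.L : ℂ) - 1) + ((I.L : ℂ) + 3) * ((I.L : ℂ) - 1)) * (I.w2 : ℂ)) * hI

theorem zcD (o : I.Ok c M) (h4 : 4 ≤ I.L) :
    ((Dn I.L I.den : ℤ) : ℂ) * zc I.L c.P.eta 0 = ci (2 * I.den * tA I.L * I.e2) (-2 * I.den * tA I.L * I.e1) ∧
    ((Dn I.L I.den : ℤ) : ℂ) * zc I.L c.P.eta 1 = ci (2 * tB I.L * I.w2) (-2 * tB I.L * I.w1) ∧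
    ((Dn I.L I.den : ℤ) : ℂ) * zc I.L c.P.eta 2 = ci (-4 * I.den * (I.L + 1) * I.e1) (-4 * I.den * (I.L + 1) * I.e2) ∧
    ((Dn I.L I.den : ℤ) : ℂ) * zc I.L c.P.eta 3 = ci (-2 * (I.L + 3) * I.w1) (-2 * (I.L + 3) * I.w2) := by
  obtain ⟨d1, d2, d3⟩ := denL h4
  obtain ⟨g0, g1, g2, g3⟩ := ycD o h4
  have z0 : zc I.L c.P.eta 0 = -(yc I.L c.P.eta 2) := by
    simp only [yc, zc, Matrix.cons_val]; ring
  have z1 : zc I.L c.P.eta 1 = -(yc I.L c.P.eta 3) := by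
    simp only [yc, zc, Matrix.cons_val]; ring
  have z2 : zc I.L c.P.eta 2 = (1 / 4) * (yc I.L c.P.eta 0) := by
    simp only [yc, zc, Matrix.cons_val]
    field_simp
    ring
  have z3 : zc I.L c.P.eta 3 = (1 / 4) * (yc I.L c.P.eta 1) := by
    simp only [yc, zc, Matrix.cons_val]
    field_simp
  unfold ci at g0 g1 g2 g3 ⊢
  push_cast at g0 g1 g2 g3 ⊢
  refine ⟨?_, ?_, ?_, ?_⟩
  · rw [z0]; linear_combination -g2
  · rw [z1]; linear_combination -g3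
  · rw [z2]; linear_combination (1 / 4) * g0
  · rw [z3]; linear_combination (1 / 4) * g1

theorem zc4D (o : I.Ok c M) (h4 : 4 ≤ I.L) :
    ((Dn I.L I.den : ℤ) : ℂ) * zc4 I.L c.P.eta 0 = ci (2 * tC I.L * I.w2) (-2 * tC I.L * I.w1) ∧
    ((Dn I.L I.den : ℤ) : ℂ) * zc4 I.L c.P.eta 1 = ci (-2 * (I.L - 1) * I.w1) (-2 * (I.L - 1) * I.w2) := by
  obtain ⟨d1, d2, d3⟩ := denL h4
  obtain ⟨g0, g1⟩ := yc4D o h4
  have z0 : zc4 I.L c.P.eta 0 = -(yc4 I.L c.P.eta 1) := by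
    simp only [yc4, zc4, Matrix.cons_val]; ring
  have z1 : zc4 I.L c.P.eta 1 = (1 / 4) * (yc4 I.L c.P.eta 0) := by
    simp only [yc4, zc4, Matrix.cons_val]
    field_simp
  unfold ci at g0 g1 ⊢
  push_cast at g0 g1 ⊢
  refine ⟨?_, ?_⟩
  · rw [z0]; linear_combination -g1
  · rw [z1]; linear_combination (1 / 4) * g0

/-- the coefficient of the diagonal factor -/
theorem aD (o : I.Ok c M) {a : ℝ} {x : ℤ} (h : (I.dA : ℝ) * a = x) :
    (((I.dA : ℤ) * (I.den : ℤ) : ℤ) : ℂ) * ((a : ℂ) * c.P.eta) = ci (x * I.e1) (x * I.e2) := by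
  have h1 : (I.dA : ℂ) * (a : ℂ) = (x : ℂ) := by
    have := congrArg (fun t : ℝ => (t : ℂ)) h
    push_cast at this
    exact this
  have h2 := o.eta
  unfold ci at h2 ⊢
  push_cast
  linear_combination (I.den : ℂ) * c.P.eta * h1 + (x : ℂ) * h2

theorem wm_far {η : ℂ} {L : ℕ} {p : ℤ → ℂ} (hp : Sup L p) {n : ℤ} (hn : (L : ℤ) + 2 < n) : wm η p n = 0 := by
  unfold wm
  rw [hp _ (by rw [Finset.mem_Icc]; omega), hp _ (by rw [Finset.mem_Icc]; omega), hp _ (by rw [Finset.mem_Icc]; omega)]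
  ring

theorem wm_2 {η : ℂ} {L : ℕ} {p : ℤ → ℂ} (hp : Sup L p) : wm η p ((L : ℤ) + 2) = η * p L := by
  unfold wm
  rw [hp _ (by rw [Finset.mem_Icc]; omega), hp ((L : ℤ) + 2 + 2) (by rw [Finset.mem_Icc]; omega), add_sub_cancel_right]
  ring

/-- **the local rows of `Y`** -/
theorem locY (o : I.Ok c M) (j : ℕ) : LC (nt I.K I.L) (2 ^ I.S)
    (fun v => sy (wm c.P.eta (gL c (pV I.K I.L v) (rV I.K I.L v))) (I.kkL j)
      + ((9 - c.P.cs - c.L.p2 * (c.P.m - c.P.lam) : ℝ) : ℂ) * wm c.P.eta (pV I.K I.L v) (I.kkL j))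
      (lcR (I.lY j)) (lcT (I.lY j)) 10 := by
  have n := num_of o.num
  have h4 := n.L4
  have hD := Dn_pos h4 n.den
  have hL := o.hL
  have hA : (0 : ℤ) < (I.dA : ℤ) * (I.den : ℤ) := by
    have h1 := n.dA
    have h2 := n.den
    positivity
  have q1 : bp I.K + I.L - 1 + 1 < nt I.K I.L := by unfold nt bp; omega
  have q2 : bp I.K + I.L - 3 + 1 < nt I.K I.L := by unfold nt bp; omega
  have q3 : br I.K I.L + I.L - 1 + 1 < nt I.K I.L := by unfold nt br bp; omega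
  have q4 : br I.K I.L + I.L - 3 + 1 < nt I.K I.L := by unfold nt br bp; omega
  match j with
  | 0 =>
    obtain ⟨g0, g1, g2, g3⟩ := ycD o h4
    have a0 := (CA_rf (I := I) hD g0).add (CA_rf (I := I) hA (aD o o.aY))
    have a1 := CA_rf (I := I) hD g1
    have a2 := CA_rf (I := I) hD g2
    have a3 := CA_rf (I := I) hD g3
    refine ((LC.cons a0 q1 (LC.cons a1 q2 (LC.cons a2 q3 (LC.cons a3 q4 LC.nil)))).mono (by norm_num)).congr
      (fun v _ => ?_) (fun _ _ => rfl) (fun _ _ => rfl)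
    have ek : I.kkL 0 = (I.L : ℤ) + 2 := by unfold kkL; push_cast; ring
    have t1 : pV I.K I.L v I.L = _ := hV_top hL h4 v
    have t2 : pV I.K I.L v (I.L - 2) = _ := hV_top2 hL h4 v
    have t3 : rV I.K I.L v I.L = _ := hV_top hL h4 v
    have t4 : rV I.K I.L v (I.L - 2) = _ := hV_top2 hL h4 v
    rw [ek, sy_g2 h4 (hm_pr v), wm_2 (hm_pr v).sp, t1, t2, t3, t4]
    ring
  | 1 =>
    obtain ⟨g0, g1⟩ := yc4D o h4
    have a0 := CA_rf (I := I) hD g0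
    have a1 := CA_rf (I := I) hD g1
    refine ((LC.cons a0 q1 (LC.cons a1 q3 LC.nil)).mono (by norm_num)).congr
      (fun v _ => ?_) (fun _ _ => rfl) (fun _ _ => rfl)
    have ek : I.kkL 1 = (I.L : ℤ) + 4 := by unfold kkL; push_cast; ring
    have t1 : pV I.K I.L v I.L = _ := hV_top hL h4 v
    have t3 : rV I.K I.L v I.L = _ := hV_top hL h4 v
    rw [ek, sy_g4 h4 (hm_pr v), wm_far (hm_pr v).sp (n := (I.L : ℤ) + 4) (by omega), t1, t3]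
    ring
  | j + 2 =>
    refine (LC.nil.mono (by norm_num)).congr (fun v _ => ?_) (fun _ _ => rfl) (fun _ _ => rfl)
    have ek : (I.L : ℤ) + 4 < I.kkL (j + 2) := by unfold kkL; push_cast; omega
    rw [sy_gfar (hm_pr v) ek, wm_far (hm_pr v).sp (by omega)]
    ring

/-- **the local rows of `Z`** -/
theorem locZ (o : I.Ok c M) (j : ℕ) : LC (nt I.K I.L) (2 ^ I.S)
    (fun v => sy (wm c.P.eta (fun n => -(Complex.I / 2) * gL c (pV I.K I.L v) (rV I.K I.L v) n)) (I.kkL j)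
      + ((9 - c.P.cs - c.L.p3 * (c.P.m - c.P.lam) : ℝ) : ℂ) * wm c.P.eta (rV I.K I.L v) (I.kkL j))
      (lcR (I.lZ j)) (lcT (I.lZ j)) 10 := by
  have n := num_of o.num
  have h4 := n.L4
  have hD := Dn_pos h4 n.den
  have hL := o.hL
  have hA : (0 : ℤ) < (I.dA : ℤ) * (I.den : ℤ) := by
    have h1 := n.dA
    have h2 := n.den
    positivity
  have q1 : bp I.K + I.L - 1 + 1 < nt I.K I.L := by unfold nt bp; omega
  have q2 : bp I.K + I.L - 3 + 1 < nt I.K I.L := by unfold nt bp; omega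
  have q3 : br I.K I.L + I.L - 1 + 1 < nt I.K I.L := by unfold nt br bp; omega
  have q4 : br I.K I.L + I.L - 3 + 1 < nt I.K I.L := by unfold nt br bp; omega
  match j with
  | 0 =>
    obtain ⟨g0, g1, g2, g3⟩ := zcD o h4
    have a2 := (CA_rf (I := I) hD g2).add (CA_rf (I := I) hA (aD o o.aZ))
    have a0 := CA_rf (I := I) hD g0
    have a1 := CA_rf (I := I) hD g1
    have a3 := CA_rf (I := I) hD g3
    refine ((LC.cons a0 q1 (LC.cons a1 q2 (LC.cons a2 q3 (LC.cons a3 q4 LC.nil)))).mono (by norm_num)).congr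
      (fun v _ => ?_) (fun _ _ => rfl) (fun _ _ => rfl)
    have ek : I.kkL 0 = (I.L : ℤ) + 2 := by unfold kkL; push_cast; ring
    have t1 : pV I.K I.L v I.L = _ := hV_top hL h4 v
    have t2 : pV I.K I.L v (I.L - 2) = _ := hV_top2 hL h4 v
    have t3 : rV I.K I.L v I.L = _ := hV_top hL h4 v
    have t4 : rV I.K I.L v (I.L - 2) = _ := hV_top2 hL h4 v
    rw [ek, sy_z2 h4 (hm_pr v), wm_2 (hm_pr v).sr, t1, t2, t3, t4]
    ring
  | 1 =>
    obtain ⟨g0, g1⟩ := zc4D o h4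
    have a0 := CA_rf (I := I) hD g0
    have a1 := CA_rf (I := I) hD g1
    refine ((LC.cons a0 q1 (LC.cons a1 q3 LC.nil)).mono (by norm_num)).congr
      (fun v _ => ?_) (fun _ _ => rfl) (fun _ _ => rfl)
    have ek : I.kkL 1 = (I.L : ℤ) + 4 := by unfold kkL; push_cast; ring
    have t1 : pV I.K I.L v I.L = _ := hV_top hL h4 v
    have t3 : rV I.K I.L v I.L = _ := hV_top hL h4 v
    rw [ek, sy_z4 h4 (hm_pr v), wm_far (hm_pr v).sr (n := (I.L : ℤ) + 4) (by omega), t1, t3]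
    ring
  | j + 2 =>
    refine (LC.nil.mono (by norm_num)).congr (fun v _ => ?_) (fun _ _ => rfl) (fun _ _ => rfl)
    have ek : (I.L : ℤ) + 4 < I.kkL (j + 2) := by unfold kkL; push_cast; omega
    rw [sy_zfar (hm_pr v) ek, wm_far (hm_pr v).sr (by omega)]
    ring

end CIn

end Pool.Agent.Helper19.SH
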