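import Pool.Agent.Helper19.SH.ColX
import Pool.Agent.Helper42.SH.Lit

/-!
# Project RC, SHARP, cell engine: THE COLLAR BLOCK, the packed columns in pieces (low memory)

`XCs lo n`, `YCs lo n`, `ZCs lo n`: the columns `lo ≤ i < lo + n`; the comparison of literals with the columns in two or
three pieces.
-/

set_option autoImplicit false

namespace Pool.Agent.Helper19.SH

open Helper95.SH
open Pool.Agent.Helper64.SH
open Helper42.SH (eqL eqL_sound)

theorem colL_add (g : ℕ → ℕ) (i m n : ℕ) : colL g i (m + n) = colL g i m ++ colL g (i + m) n := by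
  induction m generalizing i with
  | zero => simp [colL]
  | succ m ih =>
    rw [Nat.succ_add]
    show g i :: colL g (Nat.succ i) (m + n) = g i :: colL g (Nat.succ i) m ++ _
    rw [ih (Nat.succ i), List.cons_append, show Nat.succ i + m = i + (m + 1) by omega]

namespace CIn

variable (I : CIn)

/-- one column -/
def gXf (i : ℕ) : ℕ := bif Nat.beq i 0 then pkF I.bo (I.fX i) 0 (Nat.mul 4 I.J1) else I.XG i 0 I.J1
def gYf (i : ℕ) : ℕ := bif Nat.beq i 0 then pkF I.bo (I.fY i) 0 (Nat.mul 2 I.J2) else I.YG i 0 I.J2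
def gZf (i : ℕ) : ℕ := bif Nat.beq i 0 then pkF I.bo (I.fZ i) 0 (Nat.mul 2 I.J2) else I.ZG i 0 I.J2

/-- the columns `lo ≤ i < lo + n` -/
def XCs (lo n : ℕ) : List ℕ := colL I.gXf lo n
def YCs (lo n : ℕ) : List ℕ := colL I.gYf lo n
def ZCs (lo n : ℕ) : List ℕ := colL I.gZf lo n

variable {I}

theorem XCf_two {m n : ℕ} {A B : List ℕ} (h : Nat.beq (Nat.add m n) (nt I.K I.L) = true)
    (e1 : eqL A (I.XCs 0 m) = true) (e2 : eqL B (I.XCs m n) = true) : A ++ B = I.XCf := by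
  rw [eqL_sound e1, eqL_sound e2]
  show _ = colL I.gXf 0 (nt I.K I.L)
  rw [← Nat.eq_of_beq_eq_true h]
  show _ = colL I.gXf 0 (m + n)
  rw [colL_add, Nat.zero_add]
  rfl
theorem YCf_two {m n : ℕ} {A B : List ℕ} (h : Nat.beq (Nat.add m n) (nt I.K I.L) = true)
    (e1 : eqL A (I.YCs 0 m) = true) (e2 : eqL B (I.YCs m n) = true) : A ++ B = I.YCf := by
  rw [eqL_sound e1, eqL_sound e2]
  show _ = colL I.gYf 0 (nt I.K I.L)
  rw [← Nat.eq_of_beq_eq_true h]
  show _ = colL I.gYf 0 (m + n)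
  rw [colL_add, Nat.zero_add]
  rfl
theorem ZCf_two {m n : ℕ} {A B : List ℕ} (h : Nat.beq (Nat.add m n) (nt I.K I.L) = true)
    (e1 : eqL A (I.ZCs 0 m) = true) (e2 : eqL B (I.ZCs m n) = true) : A ++ B = I.ZCf := by
  rw [eqL_sound e1, eqL_sound e2]
  show _ = colL I.gZf 0 (nt I.K I.L)
  rw [← Nat.eq_of_beq_eq_true h]
  show _ = colL I.gZf 0 (m + n)
  rw [colL_add, Nat.zero_add]
  rfl

/-- pieces of pieces -/
theorem XCs_two {l m n k : ℕ} {A B : List ℕ} (h : Nat.beq (Nat.add m n) k = true)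
    (e1 : A = I.XCs l m) (e2 : B = I.XCs (l + m) n) : A ++ B = I.XCs l k := by
  rw [e1, e2, ← Nat.eq_of_beq_eq_true h]
  exact (colL_add _ _ _ _).symm
theorem YCs_two {l m n k : ℕ} {A B : List ℕ} (h : Nat.beq (Nat.add m n) k = true)
    (e1 : A = I.YCs l m) (e2 : B = I.YCs (l + m) n) : A ++ B = I.YCs l k := by
  rw [e1, e2, ← Nat.eq_of_beq_eq_true h]
  exact (colL_add _ _ _ _).symm
theorem ZCs_two {l m n k : ℕ} {A B : List ℕ} (h : Nat.beq (Nat.add m n) k = true)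
    (e1 : A = I.ZCs l m) (e2 : B = I.ZCs (l + m) n) : A ++ B = I.ZCs l k := by
  rw [e1, e2, ← Nat.eq_of_beq_eq_true h]
  exact (colL_add _ _ _ _).symm
theorem XCs_all {k : ℕ} {A : List ℕ} (h : Nat.beq k (nt I.K I.L) = true) (e : A = I.XCs 0 k) : A = I.XCf := by
  rw [e, Nat.eq_of_beq_eq_true h]; rfl
theorem YCs_all {k : ℕ} {A : List ℕ} (h : Nat.beq k (nt I.K I.L) = true) (e : A = I.YCs 0 k) : A = I.YCf := by
  rw [e, Nat.eq_of_beq_eq_true h]; rfl
theorem ZCs_all {k : ℕ} {A : List ℕ} (h : Nat.beq k (nt I.K I.L) = true) (e : A = I.ZCs 0 k) : A = I.ZCf := by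
  rw [e, Nat.eq_of_beq_eq_true h]; rfl

end CIn

end Pool.Agent.Helper19.SH
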