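import Pool.Agent.Helper19.SH.ColZ

/-!
# Project RC, SHARP, cell engine: THE COLLAR BLOCK, fast evaluation of the packed columns

`XCf = XC`, `YCf = YC`, `ZCf = ZC`, natural numbers only.
-/

set_option autoImplicit false

open Finset

namespace Pool.Agent.Helper19.SH

open Helper95.SH Helper95.RC
open Helper49.RC (om)
open Helper56.RC (fc)
open Pool.Agent.Helper64.SH
open Helper54.RC.Fast (FP len wf dg of)
open Pool.Agent.Helper31.KcF (dgI)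

namespace CIn

variable (I : CIn)

/-- powers of two -/
def Pb : ℕ := Nat.pow 2 I.b
def Pbo : ℕ := Nat.pow 2 I.bo
def Pw : ℕ := Nat.pow 2 (Nat.succ I.bo)
def PS : ℕ := Nat.pow 2 I.S
def BB1 : ℕ := Nat.pow 2 (Nat.succ I.b)
def BB2 : ℕ := Nat.pow 2 (Nat.succ (Nat.succ I.b))

def CXs : ℕ := Nat.mul I.den (Nat.mul I.dH (Nat.pow 2 (Nat.sub I.s I.S)))
def RX : ℕ := Nat.sub (Nat.mul I.CXs I.Pbo) I.Pb
def CL : ℕ := Nat.mul 2 I.qG
def RL : ℕ := Nat.sub (Nat.mul I.CL I.Pbo) (Nat.mul I.PS (Nat.pow 2 I.bG))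
def CQs : ℕ := Nat.mul I.den (Nat.mul I.dH (Nat.pow 2 (Nat.sub I.s I.S1)))
def RQ : ℕ := Nat.sub (Nat.mul I.CQs I.Pb) I.Pb
def CYs : ℕ := Nat.mul (Nat.mul 4 I.q') (Nat.pow 2 (Nat.sub I.S1 I.S))
def CZs : ℕ := Nat.mul (Nat.mul 8 I.q') (Nat.pow 2 (Nat.sub I.S1 I.S))
def OY : ℕ := Nat.mul (Nat.mul 2 (Nat.add I.q' I.t)) I.Pb
def OZ : ℕ := Nat.mul (Nat.mul 2 (Nat.add I.q' (Nat.mul 4 I.t))) I.Pb
def RY : ℕ := Nat.sub (Nat.mul I.CYs I.Pbo) I.OY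
def RZ : ℕ := Nat.sub (Nat.mul I.CZs I.Pbo) I.OZ

/-- the rounded digit of the dense part with offset -/
def qx (X p : ℕ) : ℕ := Nat.div (Nat.add (dg I.b p X) I.RX) I.CXs
/-- the rounded digit of the local part with offset -/
def ql (X p : ℕ) : ℕ := Nat.div (Nat.add (Nat.mul I.PS (dg I.bG p X)) I.RL) I.CL
/-- dense + local -/
def nr (a l : ℕ) : ℕ := Nat.sub (Nat.add a l) I.Pbo
/-- the rounded digit at the scale `2 ^ S1` with offset -/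
def qs (X p : ℕ) : ℕ := Nat.div (Nat.add (dg I.b p X) I.RQ) I.CQs

def pk2 (a b r : ℕ) : ℕ := Nat.add a (Nat.mul I.Pw (Nat.add b (Nat.mul I.Pw r)))
def pk4 (a b c d r : ℕ) : ℕ := I.pk2 a b (I.pk2 c d r)

def ppX (W j : ℕ) : ℕ := Nat.add W (Nat.add (Nat.add I.K 2) (Nat.mul 2 j))
def pmX (W j : ℕ) : ℕ := Nat.sub W (Nat.add (Nat.add I.K 2) (Nat.mul 2 j))
def Nd : ℕ := Nat.add I.N 2

/-- the group `j` has a local part at the coordinate `i` -/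
def nf (i j : ℕ) : Bool := bif Nat.ble (bp I.K) i then false else Nat.ble (Nat.add 2 (Nat.mul 2 j)) I.gG.N

/-- groups of four digits of `X` -/
def XG (i : ℕ) : ℕ → ℕ → ℕ
  | _, 0 => 0
  | j, g + 1 =>
    bif I.nf i j then
      I.pk4 (I.nr (I.qx (I.nDx i) (I.ppX I.Nd j)) (I.ql (I.nLx i) (I.ppX I.N2 j)))
        (I.nr (I.qx (I.nDy i) (I.ppX I.Nd j)) (I.ql (I.nLy i) (I.ppX I.N2 j)))
        (I.nr (I.qx (I.nDx i) (I.pmX I.Nd j)) (I.ql (I.nLx i) (I.pmX I.N2 j)))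
        (I.nr (I.qx (I.nDy i) (I.pmX I.Nd j)) (I.ql (I.nLy i) (I.pmX I.N2 j))) (XG i (Nat.succ j) g)
    else
      I.pk4 (I.qx (I.nDx i) (I.ppX I.Nd j)) (I.qx (I.nDy i) (I.ppX I.Nd j)) (I.qx (I.nDx i) (I.pmX I.Nd j))
        (I.qx (I.nDy i) (I.pmX I.Nd j)) (XG i (Nat.succ j) g)

/-- **fast columns of `X`** -/
def XCf : List ℕ := colL (fun i => bif Nat.beq i 0 then pkF I.bo (I.fX i) 0 (Nat.mul 4 I.J1) else I.XG i 0 I.J1) 0
  (nt I.K I.L)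

/-! ### `Y`, `Z` -/

def yRn (a1 a2 b1 b2 : ℕ) : ℕ := Nat.div (Nat.add (Nat.add (Nat.mul I.q' (Nat.add a1 a2))
  (Nat.mul I.t (Nat.sub I.BB2 (Nat.add b1 b2)))) I.RY) I.CYs
def yTn (a1 a2 b1 b2 : ℕ) : ℕ := Nat.div (Nat.add (Nat.add (Nat.mul I.q' (Nat.sub (Nat.add a1 I.BB1) a2))
  (Nat.mul I.t (Nat.sub (Nat.add b1 I.BB1) b2))) I.RY) I.CYs
def zRn (a1 a2 b1 b2 : ℕ) : ℕ := Nat.div (Nat.add (Nat.add (Nat.mul 4 (Nat.mul I.t (Nat.add b1 b2)))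
  (Nat.mul I.q' (Nat.add a1 a2))) I.RZ) I.CZs
def zTn (a1 a2 b1 b2 : ℕ) : ℕ := Nat.div (Nat.add (Nat.add (Nat.mul 4 (Nat.mul I.t (Nat.sub (Nat.add b1 I.BB1) b2)))
  (Nat.mul I.q' (Nat.sub (Nat.add a2 I.BB1) a1))) I.RZ) I.CZs

/-- the coordinates with a local part -/
def spc (i j : ℕ) : Bool :=
  bif Nat.ble 2 j then false
  else bif Nat.ble (Nat.sub (Nat.add (bp I.K) I.L) 3) i then
    (bif Nat.ble i (Nat.add (bp I.K) I.L) then true else Nat.ble (Nat.sub (Nat.add (br I.K I.L) I.L) 3) i)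
  else false

def YG (i : ℕ) : ℕ → ℕ → ℕ
  | _, 0 => 0
  | j, g + 1 =>
    bif I.spc i j then
      I.pk2 (encD I.bo (I.fY i (Nat.mul 2 j))) (encD I.bo (I.fY i (Nat.succ (Nat.mul 2 j)))) (YG i (Nat.succ j) g)
    else
      I.pk2 (I.yRn (I.qs (I.nDx i) (I.posP j)) (I.qs (I.nDx i) (I.posM j)) (I.qs (I.nSy i) (I.posP j))
          (I.qs (I.nSy i) (I.posM j)))
        (I.yTn (I.qs (I.nDy i) (I.posP j)) (I.qs (I.nDy i) (I.posM j)) (I.qs (I.nSx i) (I.posP j))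
          (I.qs (I.nSx i) (I.posM j))) (YG i (Nat.succ j) g)
def ZG (i : ℕ) : ℕ → ℕ → ℕ
  | _, 0 => 0
  | j, g + 1 =>
    bif I.spc i j then
      I.pk2 (encD I.bo (I.fZ i (Nat.mul 2 j))) (encD I.bo (I.fZ i (Nat.succ (Nat.mul 2 j)))) (ZG i (Nat.succ j) g)
    else
      I.pk2 (I.zRn (I.qs (I.nDy i) (I.posP j)) (I.qs (I.nDy i) (I.posM j)) (I.qs (I.nSx i) (I.posP j))
          (I.qs (I.nSx i) (I.posM j)))
        (I.zTn (I.qs (I.nDx i) (I.posP j)) (I.qs (I.nDx i) (I.posM j)) (I.qs (I.nSy i) (I.posP j))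
          (I.qs (I.nSy i) (I.posM j))) (ZG i (Nat.succ j) g)

/-- **fast columns of `Y`, `Z`** -/
def YCf : List ℕ := colL (fun i => bif Nat.beq i 0 then pkF I.bo (I.fY i) 0 (Nat.mul 2 I.J2) else I.YG i 0 I.J2) 0
  (nt I.K I.L)
def ZCf : List ℕ := colL (fun i => bif Nat.beq i 0 then pkF I.bo (I.fZ i) 0 (Nat.mul 2 I.J2) else I.ZG i 0 I.J2) 0
  (nt I.K I.L)

/-- **the check of the sizes** -/
def okF : Bool :=
  Nat.ble I.S I.S1 && Nat.ble I.S1 I.s && Nat.ble I.Pb (Nat.mul I.CXs I.Pbo)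
  && Nat.ble (Nat.mul I.PS (Nat.pow 2 I.bG)) (Nat.mul I.CL I.Pbo)
  && Nat.ble I.OY (Nat.mul I.CYs I.Pbo) && Nat.ble I.OZ (Nat.mul I.CZs I.Pbo)

end CIn

/-! ### rounding with offsets -/

theorem rdG {A C O R off x' : ℕ} {y : ℤ} (hA : 0 < A) (hC : 0 < C) (hx : (x' : ℤ) = y + off)
    (hR : R + off = C * O) : (((x' + R) / C : ℕ) : ℤ) = rd (A : ℕ) (A * C : ℕ) y + O := by
  have hA' : (0 : ℤ) < A := by exact_mod_cast hA
  have hC' : (C : ℤ) ≠ 0 := by exact_mod_cast hC.ne'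
  have e1 : ((x' + R : ℕ) : ℤ) = y + C * O := by
    have : (R : ℤ) + off = C * O := by exact_mod_cast hR
    push_cast
    linarith
  rw [Int.natCast_div, e1, Int.add_mul_ediv_left _ _ hC']
  show y / (C : ℤ) + O = ((A : ℤ) * y) / ((A * C : ℕ) : ℤ) + O
  rw [Nat.cast_mul, Int.mul_ediv_mul_of_pos _ _ hA']

theorem rdH {A C O R off x' : ℕ} {y : ℤ} (hC : 0 < C) (hx : (x' : ℤ) = A * y + off)
    (hR : R + off = C * O) : (((x' + R) / C : ℕ) : ℤ) = rd (A : ℕ) (C : ℕ) y + O := by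
  have hC' : (C : ℤ) ≠ 0 := by exact_mod_cast hC.ne'
  have e1 : ((x' + R : ℕ) : ℤ) = A * y + C * O := by
    have : (R : ℤ) + off = C * O := by exact_mod_cast hR
    push_cast
    linarith
  rw [Int.natCast_div, e1, Int.add_mul_ediv_left _ _ hC']
  rfl

theorem enc1 {b q : ℕ} {x : ℤ} (h : (q : ℤ) = x + 2 ^ b) : encD b x = q := by
  unfold encD
  have e : Int.add x (Int.ofNat (Nat.pow 2 b)) = x + 2 ^ b := by
    show x + ((2 ^ b : ℕ) : ℤ) = _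
    push_cast
    rfl
  rw [e, ← h, Int.toNat_natCast]

theorem enc2 {b a l : ℕ} {x y : ℤ} (h : (a : ℤ) = x + 2 ^ b) (k : (l : ℤ) = y + 2 ^ b) :
    encD b (x + y) = a + l - 2 ^ b := by
  unfold encD
  have e : Int.add (x + y) (Int.ofNat (Nat.pow 2 b)) = ((a + l : ℕ) : ℤ) - ((2 ^ b : ℕ) : ℤ) := by
    show (x + y) + ((2 ^ b : ℕ) : ℤ) = _
    push_cast
    rw [h, k]
    ring
  rw [e, Int.toNat_sub]

theorem dgI_eq' (b p X : ℕ) : dgI b p X = (dg b p X : ℤ) - 2 ^ b := by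
  unfold dgI
  rw [Int.subNatNat_eq_coe]
  show ((dg b p X : ℕ) : ℤ) - ((2 ^ b : ℕ) : ℤ) = _
  push_cast
  rfl

theorem dg_cast (b p X : ℕ) : ((dg b p X : ℕ) : ℤ) = dgI b p X + ((2 ^ b : ℕ) : ℤ) := by
  rw [dgI_eq']; push_cast; ring

theorem dg_lt' (b p X : ℕ) : dg b p X < 2 ^ (b + 1) := by
  show (X >>> ((b + 1) * p)) % 2 ^ (b + 1) < 2 ^ (b + 1)
  exact Nat.mod_lt _ (by positivity)

namespace CIn

variable {I : CIn} {c : CD} {M : ℕ}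

/-- the facts of `okF` -/
structure Fst (I : CIn) : Prop where
  h1 : I.S ≤ I.S1
  h2 : I.S1 ≤ I.s
  hX : 2 ^ I.b ≤ I.CXs * 2 ^ I.bo
  hL : 2 ^ I.S * 2 ^ I.bG ≤ 2 * I.qG * 2 ^ I.bo
  hY : I.OY ≤ I.CYs * 2 ^ I.bo
  hZ : I.OZ ≤ I.CZs * 2 ^ I.bo

theorem fst_of (h : I.okF = true) : Fst I := by
  unfold okF at h
  simp only [Bool.and_eq_true] at h
  obtain ⟨⟨⟨⟨⟨h1, h2⟩, h3⟩, h4⟩, h5⟩, h6⟩ := h
  exact ⟨Nat.le_of_ble_eq_true h1, Nat.le_of_ble_eq_true h2, Nat.le_of_ble_eq_true h3, Nat.le_of_ble_eq_true h4,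
    Nat.le_of_ble_eq_true h5, Nat.le_of_ble_eq_true h6⟩

theorem CXs_pos (n : Num I) : 0 < I.CXs := by
  show 0 < I.den * (I.dH * 2 ^ (I.s - I.S))
  have := n.den
  have := n.dH
  positivity

theorem CQs_pos (n : Num I) : 0 < I.CQs := by
  show 0 < I.den * (I.dH * 2 ^ (I.s - I.S1))
  have := n.den
  have := n.dH
  positivity

theorem CYs_pos (n : Num I) : 0 < I.CYs := by
  show 0 < 4 * I.q' * 2 ^ (I.S1 - I.S)
  have := n.q'
  positivity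

theorem CZs_pos (n : Num I) : 0 < I.CZs := by
  show 0 < 8 * I.q' * 2 ^ (I.S1 - I.S)
  have := n.q'
  positivity

theorem two_split {a b : ℕ} (h : a ≤ b) : 2 ^ b = 2 ^ a * 2 ^ (b - a) := by
  rw [← pow_add]; congr 1; omega

theorem C1_X (f : Fst I) : I.C1 = 2 ^ I.S * I.CXs := by
  show I.den * (I.dH * 2 ^ I.s) = 2 ^ I.S * (I.den * (I.dH * 2 ^ (I.s - I.S)))
  rw [two_split (f.h1.trans f.h2)]
  ring
theorem C1_Q (f : Fst I) : I.C1 = 2 ^ I.S1 * I.CQs := by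
  show I.den * (I.dH * 2 ^ I.s) = 2 ^ I.S1 * (I.den * (I.dH * 2 ^ (I.s - I.S1)))
  rw [two_split f.h2]
  ring
theorem CY_s (f : Fst I) : I.CY = 2 ^ I.S * I.CYs := by
  show 4 * I.q' * 2 ^ I.S1 = 2 ^ I.S * (4 * I.q' * 2 ^ (I.S1 - I.S))
  rw [two_split f.h1]
  ring
theorem CZ_s (f : Fst I) : I.CZ = 2 ^ I.S * I.CZs := by
  show 8 * I.q' * 2 ^ I.S1 = 2 ^ I.S * (8 * I.q' * 2 ^ (I.S1 - I.S))
  rw [two_split f.h1]
  ring

theorem qx_eq (n : Num I) (f : Fst I) (X p : ℕ) : ((I.qx X p : ℕ) : ℤ) =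
    rd (Int.ofNat (Nat.pow 2 I.S)) (Int.ofNat I.C1) (dgI I.b p X) + 2 ^ I.bo := by
  have h := rdG (A := 2 ^ I.S) (C := I.CXs) (O := 2 ^ I.bo) (R := I.RX) (off := 2 ^ I.b) (x' := dg I.b p X)
    (by positivity) (CXs_pos n) (dg_cast _ _ _) (by
      have := f.hX
      show (I.CXs * 2 ^ I.bo - 2 ^ I.b) + 2 ^ I.b = I.CXs * 2 ^ I.bo
      omega)
  rw [← C1_X f] at h
  rw [show ((2 : ℤ) ^ I.bo) = ((2 ^ I.bo : ℕ) : ℤ) by push_cast; rfl]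
  exact h

theorem ql_eq (n : Num I) (f : Fst I) (X p : ℕ) : ((I.ql X p : ℕ) : ℤ) =
    rd (Int.ofNat (Nat.pow 2 I.S)) (Int.ofNat (Nat.mul 2 I.qG)) (dgI I.bG p X) + 2 ^ I.bo := by
  have hx : ((2 ^ I.S * dg I.bG p X : ℕ) : ℤ) = ((2 ^ I.S : ℕ) : ℤ) * dgI I.bG p X + ((2 ^ I.S * 2 ^ I.bG : ℕ) : ℤ) := by
    rw [Nat.cast_mul, dg_cast, Nat.cast_mul (2 ^ I.S) (2 ^ I.bG)]
    ring
  have h := rdH (A := 2 ^ I.S) (C := 2 * I.qG) (O := 2 ^ I.bo) (R := I.RL) (off := 2 ^ I.S * 2 ^ I.bG)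
    (x' := 2 ^ I.S * dg I.bG p X) (by have := n.qG; omega) hx (by
      have := f.hL
      show (2 * I.qG * 2 ^ I.bo - 2 ^ I.S * 2 ^ I.bG) + 2 ^ I.S * 2 ^ I.bG = 2 * I.qG * 2 ^ I.bo
      omega)
  rw [show ((2 : ℤ) ^ I.bo) = ((2 ^ I.bo : ℕ) : ℤ) by push_cast; rfl]
  exact h

theorem qs_eq (n : Num I) (f : Fst I) (X p : ℕ) : ((I.qs X p : ℕ) : ℤ) = I.dS1 X p + 2 ^ I.b := by
  have h := rdG (A := 2 ^ I.S1) (C := I.CQs) (O := 2 ^ I.b) (R := I.RQ) (off := 2 ^ I.b) (x' := dg I.b p X)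
    (by positivity) (CQs_pos n) (dg_cast _ _ _) (by
      have h1 := CQs_pos n
      have : 2 ^ I.b ≤ I.CQs * 2 ^ I.b := Nat.le_mul_of_pos_left _ h1
      show (I.CQs * 2 ^ I.b - 2 ^ I.b) + 2 ^ I.b = I.CQs * 2 ^ I.b
      omega)
  rw [← C1_Q f] at h
  rw [show ((2 : ℤ) ^ I.b) = ((2 ^ I.b : ℕ) : ℤ) by push_cast; rfl]
  exact h

theorem qs_le (n : Num I) (X p : ℕ) : I.qs X p ≤ 2 ^ (I.b + 1) := by
  have h1 := CQs_pos n
  have h2 := dg_lt' I.b p X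
  have h3 : 2 ^ I.b ≤ I.CQs * 2 ^ I.b := Nat.le_mul_of_pos_left _ h1
  show (dg I.b p X + (I.CQs * 2 ^ I.b - 2 ^ I.b)) / I.CQs ≤ 2 ^ (I.b + 1)
  rw [pow_succ] at h2 ⊢
  have h4 : dg I.b p X + (I.CQs * 2 ^ I.b - 2 ^ I.b) ≤ I.CQs * (2 ^ I.b * 2) := by
    have : I.CQs * (2 ^ I.b * 2) = I.CQs * 2 ^ I.b + I.CQs * 2 ^ I.b := by ring
    omega
  exact Nat.div_le_of_le_mul h4

/-! ### `X` -/

/-- digits by residue -/
def Dr (I : CIn) (i r : ℕ) : ℕ := bif Nat.beq (Nat.mod r 2) 0 then I.nDx i else I.nDy i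
def Lr (I : CIn) (i r : ℕ) : ℕ := bif Nat.beq (Nat.mod r 2) 0 then I.nLx i else I.nLy i
def pr (I : CIn) (W j r : ℕ) : ℕ := bif Nat.ble r 1 then I.ppX W j else I.pmX W j

theorem posX_r (W j r : ℕ) (hr : r < 4) : I.posX W (4 * j + r) = I.pr W j r := by
  have e1 : Nat.mod (4 * j + r) 4 = r := by show (4 * j + r) % 4 = r; omega
  have e2 : Nat.div (4 * j + r) 4 = j := by show (4 * j + r) / 4 = j; omega
  unfold posX pr ppX pmX
  rw [e1, e2]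

theorem fX_gen {i j r : ℕ} (h0 : 0 < i) (hr : r < 4) : I.fX i (4 * j + r) =
    rd (Int.ofNat (Nat.pow 2 I.S)) (Int.ofNat I.C1) (dgI I.b (I.pr I.Nd j r) (I.Dr i r)) +
      (bif Nat.ble (bp I.K) i then 0 else
        rd (Int.ofNat (Nat.pow 2 I.S)) (Int.ofNat (Nat.mul 2 I.qG)) (dgI I.bG (I.pr I.N2 j r) (I.Lr i r))) := by
  have e1 : Nat.mod (4 * j + r) 2 = Nat.mod r 2 := by show (4 * j + r) % 2 = r % 2; omega
  have hb : Nat.beq i 0 = false := by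
    rw [Bool.eq_false_iff]
    exact fun h2 => h0.ne' (Nat.eq_of_beq_eq_true h2)
  unfold fX
  rw [posX_r _ _ _ hr, posX_r _ _ _ hr, e1, hb, cond_false]
  rfl

theorem loc_far (o : I.Ok c M) {i j r : ℕ} (h0 : 0 < i) (hi : i < bp I.K) (hj : j < I.J1)
    (hf : I.gG.N < 2 + 2 * j) : dgI I.bG (I.pr I.N2 j r) (I.Lr i r) = 0 := by
  have eN : I.N2 = I.K + I.gG.N + 2 * I.J1 := rfl
  have hp : I.pr I.N2 j r ≤ 2 * I.N2 ∧ (((I.pr I.N2 j r : ℕ) : ℤ) - I.N2 = (I.K : ℤ) + 2 + 2 * j ∨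
      ((I.pr I.N2 j r : ℕ) : ℤ) - I.N2 = -((I.K : ℤ) + 2 + 2 * j)) := by
    unfold pr
    cases h : Nat.ble r 1
    · rw [cond_false]
      have : I.pmX I.N2 j = I.N2 - (I.K + 2 + 2 * j) := rfl
      rw [this]
      refine ⟨by omega, Or.inr ?_⟩
      rw [Nat.cast_sub (by omega)]
      push_cast
      ring
    · rw [cond_true]
      have : I.ppX I.N2 j = I.N2 + (I.K + 2 + 2 * j) := rfl
      rw [this]
      refine ⟨by omega, Or.inl ?_⟩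
      push_cast
      ring
  obtain ⟨hp, hk⟩ := hp
  obtain ⟨d1, d2⟩ := dig_L o h0 hi hp
  set k := ((I.pr I.N2 j r : ℕ) : ℤ) - I.N2 with hkd
  have hi' : i < 1 + 2 * (I.K + 1) := hi
  have z : ∀ m : ℤ, -(I.K : ℤ) ≤ m → m ≤ I.K → (dR I.bG I.gG (k - m) = 0 ∧ dR I.bG I.gG (k + m) = 0) ∧
      (dI I.bG I.gG (k - m) = 0 ∧ dI I.bG I.gG (k + m) = 0) := by
    intro m h1 h2
    refine ⟨⟨dR_out _ _ _ ?_, dR_out _ _ _ ?_⟩, dI_out _ _ _ ?_, dI_out _ _ _ ?_⟩ <;> rcases hk with h | h <;> omega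
  have g1 : gxR I.K (dR I.bG I.gG) (dI I.bG I.gG) k i = 0 := by
    unfold gxR
    rw [if_neg (by omega), if_pos hi]
    split_ifs with he
    · obtain ⟨⟨a, b⟩, _⟩ := z (((i - 1 : ℕ) : ℤ) - I.K) (by omega) (by omega)
      rw [a, b]; rfl
    · obtain ⟨_, a, b⟩ := z (((i - 2 : ℕ) : ℤ) - I.K) (by omega) (by omega)
      rw [a, b]; rfl
  have g2 : gxT I.K (dR I.bG I.gG) (dI I.bG I.gG) k i = 0 := by
    unfold gxT
    rw [if_neg (by omega), if_pos hi]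
    split_ifs with he
    · obtain ⟨_, a, b⟩ := z (((i - 1 : ℕ) : ℤ) - I.K) (by omega) (by omega)
      rw [a, b]; rfl
    · obtain ⟨⟨a, b⟩, _⟩ := z (((i - 2 : ℕ) : ℤ) - I.K) (by omega) (by omega)
      rw [a, b]; rfl
  unfold Lr
  cases h : Nat.beq (Nat.mod r 2) 0
  · rw [cond_false, d2, g2]
  · rw [cond_true, d1, g1]

theorem eX (o : I.Ok c M) (f : Fst I) {i j r : ℕ} (h0 : 0 < i) (hj : j < I.J1) (hr : r < 4) :
    encD I.bo (I.fX i (4 * j + r)) =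
      bif I.nf i j then I.nr (I.qx (I.Dr i r) (I.pr I.Nd j r)) (I.ql (I.Lr i r) (I.pr I.N2 j r))
      else I.qx (I.Dr i r) (I.pr I.Nd j r) := by
  have n := num_of o.num
  rw [fX_gen h0 hr]
  have a := qx_eq n f (I.Dr i r) (I.pr I.Nd j r)
  have l := ql_eq n f (I.Lr i r) (I.pr I.N2 j r)
  unfold nf
  cases hb : Nat.ble (bp I.K) i
  · rw [cond_false, cond_false]
    have hi : i < bp I.K := by
      by_contra h
      have := Nat.ble_eq_true_of_le (not_lt.1 h)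
      rw [hb] at this
      exact Bool.noConfusion this
    cases hn : Nat.ble (Nat.add 2 (Nat.mul 2 j)) I.gG.N
    · rw [cond_false]
      have hf : I.gG.N < 2 + 2 * j := by
        by_contra h
        have h' : Nat.ble (2 + 2 * j) I.gG.N = true := Nat.ble_eq_true_of_le (not_lt.1 h)
        have h'' : Nat.ble (2 + 2 * j) I.gG.N = false := hn
        rw [h'] at h''
        exact Bool.noConfusion h''
      rw [loc_far o h0 hi hj hf, rd_zero, add_zero]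
      exact enc1 a
    · rw [cond_true]
      exact enc2 a l
  · rw [cond_true, cond_true, cond_false, add_zero]
    exact enc1 a

theorem pkF4 (I : CIn) (f : ℕ → ℤ) (c n : ℕ) : pkF I.bo f c (n + 4) = I.pk4 (encD I.bo (f c)) (encD I.bo (f (c + 1)))
    (encD I.bo (f (c + 2))) (encD I.bo (f (c + 3))) (pkF I.bo f (c + 4) n) := rfl
theorem pkF2 (I : CIn) (f : ℕ → ℤ) (c n : ℕ) : pkF I.bo f c (n + 2) = I.pk2 (encD I.bo (f c)) (encD I.bo (f (c + 1)))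
    (pkF I.bo f (c + 2) n) := rfl

theorem XG_eq (o : I.Ok c M) (f : Fst I) {i : ℕ} (h0 : 0 < i) (g : ℕ) : ∀ j, j + g ≤ I.J1 →
    I.XG i j g = pkF I.bo (I.fX i) (4 * j) (4 * g) := by
  induction g with
  | zero => intro j _; rfl
  | succ g ih =>
    intro j hj
    have e0 := eX o f h0 (j := j) (r := 0) (by omega) (by omega)
    have e1 := eX o f h0 (j := j) (r := 1) (by omega) (by omega)
    have e2 := eX o f h0 (j := j) (r := 2) (by omega) (by omega)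
    have e3 := eX o f h0 (j := j) (r := 3) (by omega) (by omega)
    have h4 : 4 * (g + 1) = 4 * g + 4 := by ring
    have h5 : 4 * j + 4 = 4 * (j + 1) := by ring
    rw [h4, pkF4, h5, ← ih (j + 1) (by omega)]
    rw [show 4 * j = 4 * j + 0 from rfl, e0, e1, e2, e3]
    show (bif I.nf i j then _ else _) = _
    cases I.nf i j <;> rfl

/-- **the fast columns of `X`** -/
theorem XCf_eq (o : I.Ok c M) (hf : I.okF = true) : I.XCf = I.XC := by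
  have f := fst_of hf
  unfold XCf XC
  congr 1
  funext i
  by_cases h0 : i = 0
  · subst h0; rfl
  · have hb : Nat.beq i 0 = false := by
      rw [Bool.eq_false_iff]
      exact fun h2 => h0 (Nat.eq_of_beq_eq_true h2)
    rw [hb, cond_false]
    exact XG_eq o f (Nat.pos_of_ne_zero h0) I.J1 0 (by omega)

/-! ### `Y`, `Z` -/

theorem l_zero {i j : ℕ} (h4 : 4 ≤ I.L) (h : I.spc i j = false) :
    (lcR (I.lY j) i = 0 ∧ lcT (I.lY j) i = 0) ∧ (lcR (I.lZ j) i = 0 ∧ lcT (I.lZ j) i = 0) := by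
  match j with
  | j + 2 => exact ⟨⟨rfl, rfl⟩, rfl, rfl⟩
  | 0 | 1 =>
    all_goals
    have hi : i < bp I.K + I.L - 3 ∨ (bp I.K + I.L < i ∧ i < br I.K I.L + I.L - 3) := by
      by_contra hc
      push Not at hc
      have b1 : Nat.ble (Nat.sub (Nat.add (bp I.K) I.L) 3) i = true := Nat.ble_eq_true_of_le hc.1
      unfold spc at h
      rw [b1, cond_true] at h
      by_cases h2 : i ≤ bp I.K + I.L
      · have b2 : Nat.ble i (Nat.add (bp I.K) I.L) = true := Nat.ble_eq_true_of_le h2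
        rw [b2, cond_true] at h
        exact Bool.noConfusion h
      · have b2 : Nat.ble (Nat.sub (Nat.add (br I.K I.L) I.L) 3) i = true := Nat.ble_eq_true_of_le (hc.2 (by omega))
        cases h3 : Nat.ble i (Nat.add (bp I.K) I.L)
        · rw [h3, cond_false, b2] at h
          exact Bool.noConfusion h
        · rw [h3, cond_true] at h
          exact Bool.noConfusion h
    have z : ∀ (i0 : ℕ) (a b : ℤ), i ≠ i0 → i ≠ i0 + 1 → ptR i0 a b i = 0 ∧ ptT i0 a b i = 0 := by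
      intro i0 a b h1 h2
      unfold ptR ptT
      rw [if_neg h1, if_neg h2, if_neg h1, if_neg h2]
      exact ⟨rfl, rfl⟩
    have g : br I.K I.L = bp I.K + (I.L + 1) := rfl
    have g1 := fun a b => z (bp I.K + I.L - 1) a b (by omega) (by omega)
    have g2 := fun a b => z (bp I.K + I.L - 3) a b (by omega) (by omega)
    have g3 := fun a b => z (br I.K I.L + I.L - 1) a b (by omega) (by omega)
    have g4 := fun a b => z (br I.K I.L + I.L - 3) a b (by omega) (by omega)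
    have r : ∀ x y : ℤ, Int.add x y = x + y := fun _ _ => rfl
    simp only [lY, lZ, lY2, lZ2, lY4, lZ4, lcR, lcT, r, (g1 _ _).1, (g1 _ _).2, (g2 _ _).1, (g2 _ _).2, (g3 _ _).1,
      (g3 _ _).2, (g4 _ _).1, (g4 _ _).2, add_zero, and_self]

theorem fY_gen {i : ℕ} (h0 : 0 < i) (h4 : 4 ≤ I.L) {j : ℕ} (h : I.spc i j = false) :
    (I.fY i (2 * j) = I.yR i j ∧ I.fY i (2 * j + 1) = I.yT i j) ∧
    (I.fZ i (2 * j) = I.zR i j ∧ I.fZ i (2 * j + 1) = I.zT i j) := by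
  obtain ⟨⟨a1, a2⟩, a3, a4⟩ := l_zero h4 h
  have m0 : Nat.mod (2 * j) 2 = 0 := by show (2 * j) % 2 = 0; omega
  have m1 : Nat.mod (2 * j + 1) 2 = 1 := by show (2 * j + 1) % 2 = 1; omega
  have d0 : Nat.div (2 * j) 2 = j := by show (2 * j) / 2 = j; omega
  have d1 : Nat.div (2 * j + 1) 2 = j := by show (2 * j + 1) / 2 = j; omega
  have hb : Nat.beq i 0 = false := by
    rw [Bool.eq_false_iff]
    exact fun h2 => h0.ne' (Nat.eq_of_beq_eq_true h2)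
  have b0 : Nat.beq 0 0 = true := rfl
  have b1 : Nat.beq 1 0 = false := rfl
  have r : ∀ x : ℤ, Int.add x 0 = x := fun x => add_zero x
  unfold fY fZ
  rw [m0, m1, d0, d1, hb, b0, b1]
  simp only [cond_true, cond_false, a1, a2, a3, a4, r, and_self]

theorem pow_b1 (I : CIn) : I.BB1 = 2 * 2 ^ I.b := by
  show 2 ^ (I.b + 1) = _
  rw [pow_succ]; ring
theorem pow_b2 (I : CIn) : I.BB2 = 4 * 2 ^ I.b := by
  show 2 ^ (I.b + 1 + 1) = _
  rw [pow_succ, pow_succ]; ring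

theorem yRn_eq (n : Num I) (f : Fst I) {a1 a2 b1 b2 : ℕ} {A1 A2 B1 B2 : ℤ} (h1 : (a1 : ℤ) = A1 + 2 ^ I.b)
    (h2 : (a2 : ℤ) = A2 + 2 ^ I.b) (h3 : (b1 : ℤ) = B1 + 2 ^ I.b) (h4 : (b2 : ℤ) = B2 + 2 ^ I.b)
    (l3 : b1 ≤ 2 ^ (I.b + 1)) (l4 : b2 ≤ 2 ^ (I.b + 1)) :
    ((I.yRn a1 a2 b1 b2 : ℕ) : ℤ) = rd (Int.ofNat (Nat.pow 2 I.S)) (Int.ofNat I.CY)
      ((I.q' : ℤ) * (A1 + A2) - (I.t : ℤ) * (B1 + B2)) + 2 ^ I.bo := by
  have e : ((I.q' * (a1 + a2) + I.t * (I.BB2 - (b1 + b2)) : ℕ) : ℤ) =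
      ((I.q' : ℤ) * (A1 + A2) - (I.t : ℤ) * (B1 + B2)) + ((I.OY : ℕ) : ℤ) := by
    have hs : b1 + b2 ≤ I.BB2 := by
      rw [pow_b2]
      rw [pow_succ] at l3 l4
      omega
    have eO : I.OY = 2 * (I.q' + I.t) * 2 ^ I.b := rfl
    rw [Nat.cast_add, Nat.cast_mul, Nat.cast_mul, Nat.cast_sub hs, Nat.cast_add, Nat.cast_add, h1, h2, h3, h4, eO, pow_b2]
    push_cast
    ring
  have h := rdG (A := 2 ^ I.S) (C := I.CYs) (O := 2 ^ I.bo) (R := I.RY) (by positivity) (CYs_pos n) e (by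
      have := f.hY
      show (I.CYs * 2 ^ I.bo - I.OY) + I.OY = I.CYs * 2 ^ I.bo
      omega)
  rw [← CY_s f] at h
  rw [show ((2 : ℤ) ^ I.bo) = ((2 ^ I.bo : ℕ) : ℤ) by push_cast; rfl]
  exact h

theorem yTn_eq (n : Num I) (f : Fst I) {a1 a2 b1 b2 : ℕ} {A1 A2 B1 B2 : ℤ} (h1 : (a1 : ℤ) = A1 + 2 ^ I.b)
    (h2 : (a2 : ℤ) = A2 + 2 ^ I.b) (h3 : (b1 : ℤ) = B1 + 2 ^ I.b) (h4 : (b2 : ℤ) = B2 + 2 ^ I.b)
    (l2 : a2 ≤ 2 ^ (I.b + 1)) (l4 : b2 ≤ 2 ^ (I.b + 1)) :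
    ((I.yTn a1 a2 b1 b2 : ℕ) : ℤ) = rd (Int.ofNat (Nat.pow 2 I.S)) (Int.ofNat I.CY)
      ((I.q' : ℤ) * (A1 - A2) + (I.t : ℤ) * (B1 - B2)) + 2 ^ I.bo := by
  have e : ((I.q' * (a1 + I.BB1 - a2) + I.t * (b1 + I.BB1 - b2) : ℕ) : ℤ) =
      ((I.q' : ℤ) * (A1 - A2) + (I.t : ℤ) * (B1 - B2)) + ((I.OY : ℕ) : ℤ) := by
    rw [pow_succ] at l2 l4
    have hs : a2 ≤ a1 + I.BB1 := by rw [pow_b1]; omega
    have hs' : b2 ≤ b1 + I.BB1 := by rw [pow_b1]; omega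
    have eO : I.OY = 2 * (I.q' + I.t) * 2 ^ I.b := rfl
    rw [Nat.cast_add, Nat.cast_mul, Nat.cast_mul, Nat.cast_sub hs, Nat.cast_sub hs', Nat.cast_add, Nat.cast_add, h1, h2,
      h3, h4, eO, pow_b1]
    push_cast
    ring
  have h := rdG (A := 2 ^ I.S) (C := I.CYs) (O := 2 ^ I.bo) (R := I.RY) (by positivity) (CYs_pos n) e (by
      have := f.hY
      show (I.CYs * 2 ^ I.bo - I.OY) + I.OY = I.CYs * 2 ^ I.bo
      omega)
  rw [← CY_s f] at h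
  rw [show ((2 : ℤ) ^ I.bo) = ((2 ^ I.bo : ℕ) : ℤ) by push_cast; rfl]
  exact h

theorem zRn_eq (n : Num I) (f : Fst I) {a1 a2 b1 b2 : ℕ} {A1 A2 B1 B2 : ℤ} (h1 : (a1 : ℤ) = A1 + 2 ^ I.b)
    (h2 : (a2 : ℤ) = A2 + 2 ^ I.b) (h3 : (b1 : ℤ) = B1 + 2 ^ I.b) (h4 : (b2 : ℤ) = B2 + 2 ^ I.b) :
    ((I.zRn a1 a2 b1 b2 : ℕ) : ℤ) = rd (Int.ofNat (Nat.pow 2 I.S)) (Int.ofNat I.CZ)
      (4 * ((I.t : ℤ) * (B1 + B2)) + (I.q' : ℤ) * (A1 + A2)) + 2 ^ I.bo := by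
  have e : ((4 * (I.t * (b1 + b2)) + I.q' * (a1 + a2) : ℕ) : ℤ) =
      (4 * ((I.t : ℤ) * (B1 + B2)) + (I.q' : ℤ) * (A1 + A2)) + ((I.OZ : ℕ) : ℤ) := by
    have eO : I.OZ = 2 * (I.q' + 4 * I.t) * 2 ^ I.b := rfl
    rw [eO]
    push_cast
    rw [h1, h2, h3, h4]
    ring
  have h := rdG (A := 2 ^ I.S) (C := I.CZs) (O := 2 ^ I.bo) (R := I.RZ) (by positivity) (CZs_pos n) e (by
      have := f.hZ
      show (I.CZs * 2 ^ I.bo - I.OZ) + I.OZ = I.CZs * 2 ^ I.bo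
      omega)
  rw [← CZ_s f] at h
  rw [show ((2 : ℤ) ^ I.bo) = ((2 ^ I.bo : ℕ) : ℤ) by push_cast; rfl]
  exact h

theorem zTn_eq (n : Num I) (f : Fst I) {a1 a2 b1 b2 : ℕ} {A1 A2 B1 B2 : ℤ} (h1 : (a1 : ℤ) = A1 + 2 ^ I.b)
    (h2 : (a2 : ℤ) = A2 + 2 ^ I.b) (h3 : (b1 : ℤ) = B1 + 2 ^ I.b) (h4 : (b2 : ℤ) = B2 + 2 ^ I.b)
    (l1 : a1 ≤ 2 ^ (I.b + 1)) (l4 : b2 ≤ 2 ^ (I.b + 1)) :
    ((I.zTn a1 a2 b1 b2 : ℕ) : ℤ) = rd (Int.ofNat (Nat.pow 2 I.S)) (Int.ofNat I.CZ)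
      (4 * ((I.t : ℤ) * (B1 - B2)) - (I.q' : ℤ) * (A1 - A2)) + 2 ^ I.bo := by
  have e : ((4 * (I.t * (b1 + I.BB1 - b2)) + I.q' * (a2 + I.BB1 - a1) : ℕ) : ℤ) =
      (4 * ((I.t : ℤ) * (B1 - B2)) - (I.q' : ℤ) * (A1 - A2)) + ((I.OZ : ℕ) : ℤ) := by
    rw [pow_succ] at l1 l4
    have hs : a1 ≤ a2 + I.BB1 := by rw [pow_b1]; omega
    have hs' : b2 ≤ b1 + I.BB1 := by rw [pow_b1]; omega
    have eO : I.OZ = 2 * (I.q' + 4 * I.t) * 2 ^ I.b := rfl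
    rw [Nat.cast_add, Nat.cast_mul, Nat.cast_mul, Nat.cast_mul, Nat.cast_sub hs, Nat.cast_sub hs', Nat.cast_add,
      Nat.cast_add, h1, h2, h3, h4, eO, pow_b1]
    push_cast
    ring
  have h := rdG (A := 2 ^ I.S) (C := I.CZs) (O := 2 ^ I.bo) (R := I.RZ) (by positivity) (CZs_pos n) e (by
      have := f.hZ
      show (I.CZs * 2 ^ I.bo - I.OZ) + I.OZ = I.CZs * 2 ^ I.bo
      omega)
  rw [← CZ_s f] at h
  rw [show ((2 : ℤ) ^ I.bo) = ((2 ^ I.bo : ℕ) : ℤ) by push_cast; rfl]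
  exact h

theorem YG_eq (n : Num I) (f : Fst I) {i : ℕ} (h0 : 0 < i) (g : ℕ) : ∀ j,
    I.YG i j g = pkF I.bo (I.fY i) (2 * j) (2 * g) := by
  induction g with
  | zero => intro j; rfl
  | succ g ih =>
    intro j
    have h4 : 2 * (g + 1) = 2 * g + 2 := by ring
    have h5 : 2 * j + 2 = 2 * (j + 1) := by ring
    rw [h4, pkF2, h5, ← ih (j + 1)]
    show (bif I.spc i j then _ else _) = _
    cases hs : I.spc i j
    · rw [cond_false]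
      obtain ⟨⟨y1, y2⟩, _⟩ := fY_gen h0 n.L4 hs
      rw [y1, y2]
      have r1 := enc1 (yRn_eq n f (qs_eq n f (I.nDx i) (I.posP j)) (qs_eq n f (I.nDx i) (I.posM j))
        (qs_eq n f (I.nSy i) (I.posP j)) (qs_eq n f (I.nSy i) (I.posM j)) (qs_le n _ _) (qs_le n _ _))
      have r2 := enc1 (yTn_eq n f (qs_eq n f (I.nDy i) (I.posP j)) (qs_eq n f (I.nDy i) (I.posM j))
        (qs_eq n f (I.nSx i) (I.posP j)) (qs_eq n f (I.nSx i) (I.posM j)) (qs_le n _ _) (qs_le n _ _))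
      have s1 : encD I.bo (I.yR i j) = _ := r1
      have s2 : encD I.bo (I.yT i j) = _ := r2
      rw [s1, s2]
    · rfl

theorem ZG_eq (n : Num I) (f : Fst I) {i : ℕ} (h0 : 0 < i) (g : ℕ) : ∀ j,
    I.ZG i j g = pkF I.bo (I.fZ i) (2 * j) (2 * g) := by
  induction g with
  | zero => intro j; rfl
  | succ g ih =>
    intro j
    have h4 : 2 * (g + 1) = 2 * g + 2 := by ring
    have h5 : 2 * j + 2 = 2 * (j + 1) := by ring
    rw [h4, pkF2, h5, ← ih (j + 1)]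
    show (bif I.spc i j then _ else _) = _
    cases hs : I.spc i j
    · rw [cond_false]
      obtain ⟨_, y1, y2⟩ := fY_gen h0 n.L4 hs
      rw [y1, y2]
      have r1 := enc1 (zRn_eq n f (qs_eq n f (I.nDy i) (I.posP j)) (qs_eq n f (I.nDy i) (I.posM j))
        (qs_eq n f (I.nSx i) (I.posP j)) (qs_eq n f (I.nSx i) (I.posM j)))
      have r2 := enc1 (zTn_eq n f (qs_eq n f (I.nDx i) (I.posP j)) (qs_eq n f (I.nDx i) (I.posM j))
        (qs_eq n f (I.nSy i) (I.posP j)) (qs_eq n f (I.nSy i) (I.posM j)) (qs_le n _ _) (qs_le n _ _))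
      have s1 : encD I.bo (I.zR i j) = _ := r1
      have s2 : encD I.bo (I.zT i j) = _ := r2
      rw [s1, s2]
    · rfl

/-- **the fast columns of `Y`** -/
theorem YCf_eq (hn : I.okN = true) (hf : I.okF = true) : I.YCf = I.YC := by
  have f := fst_of hf
  have n := num_of hn
  unfold YCf YC
  congr 1
  funext i
  by_cases h0 : i = 0
  · subst h0; rfl
  · have hb : Nat.beq i 0 = false := by
      rw [Bool.eq_false_iff]
      exact fun h2 => h0 (Nat.eq_of_beq_eq_true h2)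
    rw [hb, cond_false]
    exact YG_eq n f (Nat.pos_of_ne_zero h0) I.J2 0

/-- **the fast columns of `Z`** -/
theorem ZCf_eq (hn : I.okN = true) (hf : I.okF = true) : I.ZCf = I.ZC := by
  have f := fst_of hf
  have n := num_of hn
  unfold ZCf ZC
  congr 1
  funext i
  by_cases h0 : i = 0
  · subst h0; rfl
  · have hb : Nat.beq i 0 = false := by
      rw [Bool.eq_false_iff]
      exact fun h2 => h0 (Nat.eq_of_beq_eq_true h2)
    rw [hb, cond_false]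
    exact ZG_eq n f (Nat.pos_of_ne_zero h0) I.J2 0

end CIn

end Pool.Agent.Helper19.SH
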