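import Pool.Agent.Helper19.SH.ColJ
import Pool.Agent.Helper19.SH.ColM

/-!
# Project RC, SHARP, cell engine: THE COLLAR BLOCK, the rows of `Y`, `Z`
-/

set_option autoImplicit false

open Finset

namespace Pool.Agent.Helper19.SH

open Helper95.SH Helper95.RC
open Helper49.RC (om)
open Helper56.RC (fc)
open Pool.Agent.Helper64.SH
open Helper54.RC.Fast (FP len wf dg of)
open Pool.Agent.Helper31.KcF (dgI)

namespace CIn

variable {I : CIn} {c : CD} {M : ℕ}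

/-- **THE ROWS OF `Y`** -/
theorem Y_rows (o : I.Ok c M) {j : ℕ} (hj : j < 2 * I.J2) :
    (j % 2 = 0 → LR (nt I.K I.L) (2 ^ I.S)
        (fun v => (Yr c M (pV I.K I.L v) (rV I.K I.L v) (sV I.K v) (I.kkL (j / 2))).re) (rowC I.bo I.YC j) I.EY) ∧
      (¬ j % 2 = 0 → LR (nt I.K I.L) (2 ^ I.S)
        (fun v => (Yr c M (pV I.K I.L v) (rV I.K I.L v) (sV I.K v) (I.kkL (j / 2))).im) (rowC I.bo I.YC j) I.EY) :=
  (YZ_rows o (locY o) (locZ o) hj).1

/-- **THE ROWS OF `Z`** -/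
theorem Z_rows (o : I.Ok c M) {j : ℕ} (hj : j < 2 * I.J2) :
    (j % 2 = 0 → LR (nt I.K I.L) (2 ^ I.S)
        (fun v => (Zr c M (pV I.K I.L v) (rV I.K I.L v) (sV I.K v) (I.kkL (j / 2))).re) (rowC I.bo I.ZC j) I.EZ) ∧
      (¬ j % 2 = 0 → LR (nt I.K I.L) (2 ^ I.S)
        (fun v => (Zr c M (pV I.K I.L v) (rV I.K I.L v) (sV I.K v) (I.kkL (j / 2))).im) (rowC I.bo I.ZC j) I.EZ) :=
  (YZ_rows o (locY o) (locZ o) hj).2

end CIn

end Pool.Agent.Helper19.SH
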