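import Pool.Agent.Helper33.SH.GDef

/-!
# SHARP, link (6): (GA1), the families
-/

set_option autoImplicit false

open MeasureTheory Set Filter Topology

namespace Pool.Agent.Helper33.GL

open Helper49.LT hiding sg
open Helper49.RC (om)
open Helper49.Sharp
open Helper56.RC (fc)
open Helper87.RC (BM)
open Helper95.RC (av)
open Helper95.SH (Dat lk_int)
open Pool.Agent.Helper20.RC (lk lk_ge lk_sq eM)
open Pool.Agent.Helper43.SH

theorem br_sum (s : Finset ℕ) (F : ℕ → ℝ → ℝ) (h : ∀ k, BR (F k)) : BR fun t => ∑ k ∈ s, F k t := by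
  classical
  induction s using Finset.induction_on with
  | empty => simpa using BR.const 0
  | insert a s ha ih =>
    simp only [Finset.sum_insert ha]
    exact (h a).add ih

theorem mean_sum (s : Finset ℕ) (F : ℕ → ℝ → ℝ) (h : ∀ k, BR (F k)) :
    mean (fun t => ∑ k ∈ s, F k t) = ∑ k ∈ s, mean (F k) := by
  classical
  induction s using Finset.induction_on with
  | empty => simp [mean]
  | insert a s ha ih =>
    simp only [Finset.sum_insert ha]
    rw [mean_add (h a) (br_sum s F h), ih]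

theorem ee_npow (a : ℝ) (n : ℕ) : ee a ^ n = ee (n * a) := by
  unfold ee
  rw [← Complex.exp_nat_mul]
  congr 1
  push_cast
  ring

/-- pointwise: the family in the moving frame against a coefficient -/
theorem eF_pt (k : ℕ) (C g : ℂ) (a : ℝ) :
    ((starRingEnd ℂ) C * eF (lk k) g a).re =
      ((starRingEnd ℂ) ((1 - (lk k : ℂ)) / 2 * (C * ee a ^ (2 * k + 3))
        + (1 + (lk k : ℂ)) / 2 * (starRingEnd ℂ) (C * ee a ^ (2 * k + 1))) * g).re := by
  have h1 : ee (-((lk k + 1) * a)) = (starRingEnd ℂ) (ee a ^ (2 * k + 3)) := by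
    rw [ee_npow, ← ee_neg]
    congr 1
    unfold lk
    push_cast
    ring
  have h2 : ee (-((lk k - 1) * a)) = (starRingEnd ℂ) (ee a ^ (2 * k + 1)) := by
    rw [ee_npow, ← ee_neg]
    congr 1
    unfold lk
    push_cast
    ring
  unfold eF
  rw [h1, h2]
  have e : ∀ x : ℝ, (starRingEnd ℂ) (x : ℂ) = x := fun x => Complex.conj_ofReal x
  simp only [map_add, map_mul, map_div₀, map_sub, map_one, e, Complex.conj_conj, Complex.conj_ofNat]
  set p := (starRingEnd ℂ) (ee a ^ (2 * k + 3))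
  set q := (starRingEnd ℂ) (ee a ^ (2 * k + 1)) with hq
  have hq' : ee a ^ (2 * k + 1) = (starRingEnd ℂ) q := by rw [hq, Complex.conj_conj]
  rw [hq']
  have r1 : (1 - (lk k : ℂ)) / 2 = (((1 - lk k) / 2 : ℝ) : ℂ) := by push_cast; ring
  have r2 : (1 + (lk k : ℂ)) / 2 = (((1 + lk k) / 2 : ℝ) : ℂ) := by push_cast; ring
  rw [r1, r2]
  simp only [mul_add, add_mul, Complex.add_re, Complex.mul_re, Complex.mul_im, Complex.ofReal_re, Complex.ofReal_im,
    Complex.conj_re, Complex.conj_im]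
  ring

theorem av_re {F : ℝ → ℂ} {C : ℝ} (h : BM F C) : (av F).re = mean fun t => (F t).re := mean_re h

theorem per2 {β : ℝ → ℂ} (h : ∀ t, β (t + Real.pi) = β t) (t : ℝ) : β (t + 2 * Real.pi) = β t := by
  rw [show t + 2 * Real.pi = t + Real.pi + Real.pi by ring, h, h]

theorem per2' {β : ℝ → ℂ} (h : ∀ t, β (t + Real.pi) = -β t) (t : ℝ) : β (t + 2 * Real.pi) = β t := by
  rw [show t + 2 * Real.pi = t + Real.pi + Real.pi by ring, h, h, neg_neg]

section

variable {P : Par} {β ρ : ℝ → ℂ}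

theorem m1a (hr : P.Reg) : Measurable fun t => P.ph1 (t + Real.pi / 3) - t :=
  (hr.mph1.comp (measurable_id.add_const _)).sub measurable_id
theorem m2a (hr : P.Reg) : Measurable fun t => P.ph2 (t + 2 * Real.pi / 3) - t :=
  (hr.mph2.comp (measurable_id.add_const _)).sub measurable_id

/-- the density of an aligned moment of the rest -/
noncomputable def dn (P : Par) (β ρ : ℝ → ℂ) (l : ℝ) (t : ℝ) : ℂ :=
  eF l (g1L (β t) (ρ t)) (P.ph1 (t + Real.pi / 3) - t) + eF l (g2L (β t) (ρ t)) (P.ph2 (t + 2 * Real.pi / 3) - t)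

theorem dn_BM (hr : P.Reg) (hR : RB β ρ) (l : ℝ) : ∃ E, BM (dn P β ρ l) E := by
  obtain ⟨C, hC⟩ := hR.bb
  obtain ⟨D, hD⟩ := hR.br
  obtain ⟨E1, e1⟩ := g1L_BM hC hD
  obtain ⟨E2, e2⟩ := g2L_BM hC hD
  obtain ⟨F1, f1⟩ := eF_BM (l := l) e1 (m1a hr)
  obtain ⟨F2, f2⟩ := eF_BM (l := l) e2 (m2a hr)
  exact ⟨_, f1.add f2⟩

theorem eR_pair (hr : P.Reg) (hR : RB β ρ) (k : ℕ) (C : ℂ) :
    ((starRingEnd ℂ) C * eR P β ρ k).re =
      mean fun t => ((starRingEnd ℂ) (C * ee (lk k * t)) * dn P β ρ (lk k) t).re := by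
  obtain ⟨C1, hC⟩ := hR.bb
  obtain ⟨D, hD⟩ := hR.br
  obtain ⟨E, hE⟩ := dn_BM hr hR (lk k)
  have h := eM_rest hr hC hD (per2 hR.pb) (per2' hR.pr) (2 * (k : ℤ) + 2)
  rw [← lk_int] at h
  have e0 : eR P β ρ k = av fun t => ee (-(lk k * t)) * dn P β ρ (lk k) t := h
  have kE : BM (fun t : ℝ => ee (-(lk k * t))) 1 :=
    ⟨continuous_ee.measurable.comp ((measurable_id.const_mul _).neg), fun t => by rw [norm_ee]⟩
  have e1 : (starRingEnd ℂ) C * eR P β ρ k =
      av fun t => (starRingEnd ℂ) C * (ee (-(lk k * t)) * dn P β ρ (lk k) t) := by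
    rw [e0]
    unfold av
    rw [intervalIntegral.integral_const_mul]
    ring
  rw [e1, av_re ((kE.mul hE).cmul _)]
  refine mean_congr fun t => ?_
  rw [map_mul, ← ee_neg]
  congr 1
  ring

theorem e0R_mean (hr : P.Reg) (hR : RB β ρ) :
    e0R P β ρ = mean fun t => ((starRingEnd ℂ) (P.v1 t) * g1L (β t) (ρ t)).re
      + ((starRingEnd ℂ) (P.v2 t) * g2L (β t) (ρ t)).re := by
  obtain ⟨C1, hC⟩ := hR.bb
  obtain ⟨D, hD⟩ := hR.br
  obtain ⟨E, hE⟩ := dn_BM hr hR 0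
  have h := eM_rest hr hC hD (per2 hR.pb) (per2' hR.pr) 0
  have e0 : eM (f1R β ρ) (f2R β ρ) P.ph1 P.ph2 0 = av fun t => dn P β ρ 0 t := by
    have h' := h
    rw [Int.cast_zero] at h'
    rw [h']
    congr 1
    funext t
    unfold dn
    rw [zero_mul, neg_zero, ee_zero, one_mul]
  unfold e0R
  rw [e0, av_re hE]
  refine mean_congr fun t => ?_
  unfold dn eF Par.v1 Par.v2
  have q : ∀ (g : ℂ) (a : ℝ), ((1 - ((0 : ℝ) : ℂ)) / 2 * (g * ee (-((0 + 1) * a)))
      + (1 + ((0 : ℝ) : ℂ)) / 2 * ((starRingEnd ℂ) g * ee (-((0 - 1) * a)))).re = ((starRingEnd ℂ) (ee a) * g).re := by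
    intro g a
    rw [show -((0 + 1) * a) = -a by ring, show -((0 - 1) * a) = - -a by ring, ee_neg (-a), ee_neg a, Complex.conj_conj]
    simp only [Complex.ofReal_zero, sub_zero, add_zero]
    have : (1 : ℂ) / 2 = ((1 / 2 : ℝ) : ℂ) := by push_cast; ring
    rw [this]
    simp only [Complex.add_re, Complex.mul_re, Complex.mul_im, Complex.ofReal_re, Complex.ofReal_im,
      Complex.conj_re, Complex.conj_im]
    ring
  rw [Complex.add_re, q, q]

end

theorem hGA1 : StGA1 := by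
  intro P bs zs β ρ hr hR
  obtain ⟨C1, hC⟩ := hR.bb
  obtain ⟨D, hD⟩ := hR.br
  obtain ⟨E1, e1⟩ := g1L_BM hC hD
  obtain ⟨E2, e2⟩ := g2L_BM hC hD
  obtain ⟨F1, w1⟩ := W1_BM hr
  obtain ⟨F2, w2⟩ := W2_BM hr
  set G1 : ℝ → ℂ := fun t => g1L (β t) (ρ t) with hG1
  set G2 : ℝ → ℂ := fun t => g2L (β t) (ρ t) with hG2
  have kv1 : BM P.v1 1 := ⟨continuous_ee.measurable.comp (m1a hr), fun t => by unfold Par.v1; rw [norm_ee]⟩
  have kv2 : BM P.v2 1 := ⟨continuous_ee.measurable.comp (m2a hr), fun t => by unfold Par.v2; rw [norm_ee]⟩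
  -- the rows
  set F : ℕ → ℝ → ℝ := fun k t => ((starRingEnd ℂ) (Cl P bs zs k t) * dn P β ρ (lk k) t).re with hF
  have kF : ∀ k, BR (F k) := by
    intro k
    obtain ⟨E, hE⟩ := dn_BM hr hR (lk k)
    have k1 : BM (Cl P bs zs k) _ := (BM.eec (lk k)).cmul _
    exact BR.re (k1.conj.mul hE)
  have row : ∀ k, 2 * (Hk (P.dal bs) k * (starRingEnd ℂ) (eR P β ρ k)).re
      - P.nu * ((starRingEnd ℂ) (P.eA bs zs k) * eR P β ρ k).re / (lk k ^ 2 - 1) = mean (F k) := by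
    intro k
    have h := eR_pair hr hR k (2 * Hk (P.dal bs) k - (P.nu : ℂ) * P.eA bs zs k / ((lk k : ℂ) ^ 2 - 1))
    have e3 : mean (F k) = ((starRingEnd ℂ) (2 * Hk (P.dal bs) k
        - (P.nu : ℂ) * P.eA bs zs k / ((lk k : ℂ) ^ 2 - 1)) * eR P β ρ k).re := h.symm
    rw [e3]
    have e4 : (P.nu : ℂ) * P.eA bs zs k / ((lk k : ℂ) ^ 2 - 1) =
        ((P.nu / (lk k ^ 2 - 1) : ℝ) : ℂ) * P.eA bs zs k := by push_cast; ring
    have e5 : (2 : ℂ) = ((2 : ℝ) : ℂ) := by norm_num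
    rw [e4, e5]
    simp only [map_sub, map_mul, Complex.conj_ofReal, sub_mul, Complex.sub_re, Complex.mul_re, Complex.mul_im,
      Complex.ofReal_re, Complex.ofReal_im, Complex.conj_re, Complex.conj_im]
    ring
  have e0 := e0R_mean hr hR
  have kA : BR fun t => 2 * ((starRingEnd ℂ) (W1 P t) * g1L (β t) (ρ t)).re
      + 2 * ((starRingEnd ℂ) (W2 P t) * g2L (β t) (ρ t)).re :=
    ((BR.re (w1.conj.mul e1)).cmul 2).add ((BR.re (w2.conj.mul e2)).cmul 2)
  have kB : BR fun t => ((starRingEnd ℂ) (P.v1 t) * g1L (β t) (ρ t)).re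
      + ((starRingEnd ℂ) (P.v2 t) * g2L (β t) (ρ t)).re :=
    (BR.re (kv1.conj.mul e1)).add (BR.re (kv2.conj.mul e2))
  have kS := br_sum (Finset.range 5) F kF
  have s1 : (∑ k ∈ Finset.range 5, (2 * (Hk (P.dal bs) k * (starRingEnd ℂ) (eR P β ρ k)).re
      - P.nu * ((starRingEnd ℂ) (P.eA bs zs k) * eR P β ρ k).re / (lk k ^ 2 - 1))) =
      mean fun t => ∑ k ∈ Finset.range 5, F k t := by
    rw [mean_sum _ F kF]
    exact Finset.sum_congr rfl fun k _ => row k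
  rw [s1, e0, ← mean_cmul, ← mean_add (kB.cmul _) kS, ← mean_add ((kB.cmul _).add kS) kA]
  refine mean_congr fun t => ?_
  -- pointwise
  have p1 : ∀ k, ((starRingEnd ℂ) (Cl P bs zs k t) * dn P β ρ (lk k) t).re =
      ((starRingEnd ℂ) ((1 - (lk k : ℂ)) / 2 * (Cl P bs zs k t * P.v1 t ^ (2 * k + 3))
        + (1 + (lk k : ℂ)) / 2 * (starRingEnd ℂ) (Cl P bs zs k t * P.v1 t ^ (2 * k + 1))) * g1L (β t) (ρ t)).re
      + ((starRingEnd ℂ) ((1 - (lk k : ℂ)) / 2 * (Cl P bs zs k t * P.v2 t ^ (2 * k + 3))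
        + (1 + (lk k : ℂ)) / 2 * (starRingEnd ℂ) (Cl P bs zs k t * P.v2 t ^ (2 * k + 1))) * g2L (β t) (ρ t)).re := by
    intro k
    unfold dn
    rw [mul_add, Complex.add_re, eF_pt, eF_pt]
    rfl
  have p2 : ∀ (W v S g : ℂ) (h : ℝ), 2 * ((starRingEnd ℂ) (W + (h : ℂ) * v + 1 / 2 * S) * g).re =
      2 * ((starRingEnd ℂ) W * g).re + 2 * h * ((starRingEnd ℂ) v * g).re + ((starRingEnd ℂ) S * g).re := by
    intro W v S g h
    have : (1 : ℂ) / 2 = ((1 / 2 : ℝ) : ℂ) := by push_cast; ring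
    rw [this]
    simp only [map_add, map_mul, Complex.conj_ofReal, add_mul, Complex.add_re, Complex.mul_re, Complex.mul_im,
      Complex.ofReal_re, Complex.ofReal_im, Complex.conj_re, Complex.conj_im]
    ring
  have p3 : ∀ (s : Finset ℕ) (S : ℕ → ℂ) (g : ℂ), ((starRingEnd ℂ) (∑ k ∈ s, S k) * g).re =
      ∑ k ∈ s, ((starRingEnd ℂ) (S k) * g).re := by
    intro s S g
    rw [map_sum, Finset.sum_mul, Complex.re_sum]
  unfold V1 V2
  rw [p2, p2, p3, p3]
  simp only [hF]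
  rw [Finset.sum_congr rfl fun k _ => p1 k, Finset.sum_add_distrib]
  ring

end Pool.Agent.Helper33.GL
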