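import Pool.Agent.Helper33.SH.GLists

/-!
# SHARP, link (6): (C), the coefficients of `α`, `H_l` and `H₀` at the base of zone I
-/

set_option autoImplicit false

open MeasureTheory Set Filter Topology

namespace Pool.Agent.Helper19.SH

open Helper49.LT hiding sg s3
open Helper49.RC (om)
open Helper49.Sharp
open Helper56.RC (fc)
open Helper87.RC (BM fc_add fc_sub fc_cmul)
open Pool.Agent.Helper20.RC (lk lk_ge lk_sq wR alQ)
open Pool.Agent.Helper43.SH
open Pool.Agent.Helper35.Cas (Po Mo Co evP evM evC uu vv evM_uv evP_cons evP_nil)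
open Pool.Agent.Helper33.SH (PI ZC b0I z0I cI)
open Pool.Agent.Helper33.GL (Cl El qb X0 Y0)
open Pool.Agent.Helper33.GM

/-- trigonometric polynomial of a list of (frequency, coefficient) -/
noncomputable def tq (L : List (ℤ × ℂ)) (t : ℝ) : ℂ := (L.map fun x => x.2 * ee ((x.1 : ℝ) * t)).sum

/-- its coefficients -/
noncomputable def cq (L : List (ℤ × ℂ)) (n : ℤ) : ℂ := (L.map fun x => if n = x.1 then x.2 else 0).sum

theorem tq_nil : tq [] = fun _ => 0 := by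
  funext t
  simp [tq]

theorem tq_cons (x : ℤ × ℂ) (L : List (ℤ × ℂ)) : tq (x :: L) = fun t => x.2 * ee ((x.1 : ℝ) * t) + tq L t := by
  funext t
  simp [tq]

theorem cq_nil (n : ℤ) : cq [] n = 0 := by simp [cq]

theorem cq_cons (x : ℤ × ℂ) (L : List (ℤ × ℂ)) (n : ℤ) : cq (x :: L) n = (if n = x.1 then x.2 else 0) + cq L n := by
  simp [cq]

theorem tq_append (L L' : List (ℤ × ℂ)) (t : ℝ) : tq (L ++ L') t = tq L t + tq L' t := by
  simp [tq]

theorem tq_bm (L : List (ℤ × ℂ)) : ∃ C, BM (tq L) C := by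
  induction L with
  | nil =>
    rw [tq_nil]
    exact ⟨0, measurable_const, fun t => by simp⟩
  | cons x L ih =>
    obtain ⟨C, h⟩ := ih
    rw [tq_cons]
    have h1 : BM (fun t : ℝ => ee ((x.1 : ℝ) * t)) 1 := BM.eec _
    exact ⟨_, (h1.cmul x.2).add h⟩

theorem fc_tq (L : List (ℤ × ℂ)) (n : ℤ) : fc (tq L) n = cq L n := by
  induction L with
  | nil =>
    rw [tq_nil]
    unfold fc cq
    simp
  | cons x L ih =>
    obtain ⟨C, h⟩ := tq_bm L
    have h1 : BM (fun t : ℝ => ee ((x.1 : ℝ) * t)) 1 := BM.eec _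
    rw [tq_cons, fc_add (h1.cmul x.2) h, fc_cmul, Pool.Agent.Helper20.RC.fc_eek, ih, cq_cons]
    split_ifs <;> ring

/-- shift by the frequency `k`, factor `c` -/
noncomputable def shq (k : ℤ) (c : ℂ) (L : List (ℤ × ℂ)) : List (ℤ × ℂ) := L.map fun x => (x.1 + k, c * x.2)

theorem tq_shq (k : ℤ) (c : ℂ) (L : List (ℤ × ℂ)) (t : ℝ) : tq (shq k c L) t = c * ee ((k : ℝ) * t) * tq L t := by
  induction L with
  | nil => simp [tq, shq]
  | cons x L ih =>
    have e : shq k c (x :: L) = (x.1 + k, c * x.2) :: shq k c L := rfl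
    rw [e, tq_cons, tq_cons]
    simp only
    rw [ih]
    have e2 : ee (((x.1 + k : ℤ) : ℝ) * t) = ee ((k : ℝ) * t) * ee ((x.1 : ℝ) * t) := by
      rw [← ee_add]
      congr 1
      push_cast
      ring
    rw [e2]
    ring

theorem cq_zero (L : List (ℤ × ℂ)) (K : ℤ) (h : ∀ x ∈ L, |x.1| ≤ K) (n : ℤ) (hn : K < |n|) : cq L n = 0 := by
  induction L with
  | nil => exact cq_nil n
  | cons x L ih =>
    rw [cq_cons, ih fun y hy => h y (List.mem_cons_of_mem _ hy), if_neg, add_zero]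
    intro h1
    have h2 := h x List.mem_cons_self
    rw [← h1] at h2
    omega

/-- `b2_0 + i b3_0/2` -/
noncomputable def baseL (a b b' : ℂ) : List (ℤ × ℂ) :=
  [(0, (66 * a ^ 2 - 90 * (b * b')) / 400), (2, -48 * (a * b') / 400), (-2, -200 * (a * b) / 400),
   (6, 34 * a ^ 2 / 400), (-6, -78 * a ^ 2 / 400), (8, 12 * (a * b') / 400), (-8, 216 * (a * b) / 400),
   (10, 29 * b' ^ 2 / 400), (-10, 11 * b ^ 2 / 400)]

/-- `α` at the base -/
noncomputable def aL (a b b' : ℂ) : List (ℤ × ℂ) :=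
  baseL a b b' ++ (shq 2 (-2 * (a * b')) (baseL a b b') ++ shq (-2) (-2 * (a * b)) (baseL a b b'))

theorem base_eq (A : ℝ) (B : ℂ) (t : ℝ) :
    (((b0I A B t).re : ℝ) : ℂ) + Complex.I * (((b0I A B t).im / 2 : ℝ) : ℂ) =
      tq (baseL (A : ℂ) B ((starRingEnd ℂ) B)) t := by
  unfold b0I
  rw [bB_re, bB_im, b2B_eq, b3B_eq]
  have e2 : ∀ X : ℂ, ((2 * X.re : ℝ) : ℂ) = X + (starRingEnd ℂ) X := fun X => by rw [Complex.add_conj]
  have nA : (((‖(A : ℂ)‖ ^ 2 : ℝ)) : ℂ) = (A : ℂ) ^ 2 := by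
    rw [Complex.norm_real, Real.norm_eq_abs, sq_abs]
    push_cast
    rfl
  have nB : (((‖B‖ ^ 2 : ℝ)) : ℂ) = B * (starRingEnd ℂ) B := by
    rw [Complex.mul_conj, Complex.normSq_eq_norm_sq]
  set X : ℂ := cI.k3 * ((A : ℂ) * (starRingEnd ℂ) B) * ee (2 * t) +
      cI.k4 * ((starRingEnd ℂ) (A : ℂ) * (starRingEnd ℂ) (A : ℂ)) * ee (6 * t) +
      cI.k5 * ((starRingEnd ℂ) (A : ℂ) * (starRingEnd ℂ) B) * ee (8 * t) +
      cI.k6 * ((starRingEnd ℂ) B * (starRingEnd ℂ) B) * ee (10 * t) with hX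
  set Y : ℂ := Complex.I * (cI.l3 * ((A : ℂ) * (starRingEnd ℂ) B) * ee (2 * t) +
      cI.l4 * ((starRingEnd ℂ) (A : ℂ) * (starRingEnd ℂ) (A : ℂ)) * ee (6 * t) +
      cI.l5 * ((starRingEnd ℂ) (A : ℂ) * (starRingEnd ℂ) B) * ee (8 * t) +
      cI.l6 * ((starRingEnd ℂ) B * (starRingEnd ℂ) B) * ee (10 * t)) with hY
  have h1 : (((cI.k1 * ‖(A : ℂ)‖ ^ 2 + cI.k2 * ‖B‖ ^ 2 + 2 * X.re : ℝ)) : ℂ) =
      33 / 200 * (A : ℂ) ^ 2 - 9 / 40 * (B * (starRingEnd ℂ) B) + (X + (starRingEnd ℂ) X) := by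
    rw [← e2, ← nA, ← nB]
    simp only [cI]
    push_cast
    ring
  have h2 : (((2 * Y.re / 2 : ℝ)) : ℂ) = (Y + (starRingEnd ℂ) Y) / 2 := by
    rw [← e2]
    push_cast
    ring
  rw [h1, h2]
  have q : ∀ n : ℝ, (starRingEnd ℂ) (ee (n * t)) = ee (-n * t) := by
    intro n
    rw [← ee_neg]
    congr 1
    ring
  have hXc : (starRingEnd ℂ) X = cI.k3 * ((A : ℂ) * B) * ee (-2 * t) + cI.k4 * ((A : ℂ) * (A : ℂ)) * ee (-6 * t) +
      cI.k5 * ((A : ℂ) * B) * ee (-8 * t) + cI.k6 * (B * B) * ee (-10 * t) := by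
    rw [hX]
    simp only [map_add, map_mul, Complex.conj_ofReal, Complex.conj_conj, q]
  have hYc : (starRingEnd ℂ) Y = -Complex.I * (cI.l3 * ((A : ℂ) * B) * ee (-2 * t)
      + cI.l4 * ((A : ℂ) * (A : ℂ)) * ee (-6 * t) +
      cI.l5 * ((A : ℂ) * B) * ee (-8 * t) + cI.l6 * (B * B) * ee (-10 * t)) := by
    rw [hY]
    simp only [map_add, map_mul, Complex.conj_ofReal, Complex.conj_conj, q, Complex.conj_I]
  rw [hXc, hYc, hX, hY]
  simp only [Complex.conj_ofReal, tq, baseL, List.map_cons, List.map_nil, List.sum_cons, List.sum_nil, cI]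
  have e0 : ee (((0 : ℤ) : ℝ) * t) = 1 := by
    unfold ee; simp
  rw [e0]
  push_cast
  generalize ee (2 * t) = p2
  generalize ee (-2 * t) = m2
  generalize ee (6 * t) = p6
  generalize ee (-6 * t) = m6
  generalize ee (8 * t) = p8
  generalize ee (-8 * t) = m8
  generalize ee (10 * t) = p10
  generalize ee (-10 * t) = m10
  linear_combination (1 / 2 * (-19 / 50 * (A * (starRingEnd ℂ) B) * p2 + -7 / 25 * (A * A) * p6 +
    51 / 100 * (A * (starRingEnd ℂ) B) * p8 + -9 / 200 * ((starRingEnd ℂ) B * (starRingEnd ℂ) B) * p10)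
    - 1 / 2 * (-19 / 50 * (A * B) * m2 + -7 / 25 * (A * A) * m6 + 51 / 100 * (A * B) * m8
      + -9 / 200 * (B * B) * m10)) * Complex.I_mul_I

theorem al_eq (c : ZC) (A : ℝ) (B : ℂ) :
    (PI c A B).al (b0I A B) = tq (aL (A : ℂ) B ((starRingEnd ℂ) B)) := by
  funext t
  unfold aL
  rw [tq_append, tq_append, tq_shq, tq_shq, ← base_eq A B t]
  show ((wR (-2 * A * (starRingEnd ℂ) B) 0 0 t : ℝ) : ℂ) * (((b0I A B t).re : ℂ)
    + Complex.I * (((b0I A B t).im / 2 : ℝ) : ℂ)) = _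
  have hw : ((wR (-2 * A * (starRingEnd ℂ) B) 0 0 t : ℝ) : ℂ) =
      1 + (-2 * ((A : ℂ) * (starRingEnd ℂ) B)) * ee (((2 : ℤ) : ℝ) * t)
        + (-2 * ((A : ℂ) * B)) * ee (((-2 : ℤ) : ℝ) * t) := by
    unfold wR
    rw [zero_mul, zero_mul, add_zero, add_zero]
    have e2 : ∀ X : ℂ, ((1 + 2 * X.re : ℝ) : ℂ) = 1 + (X + (starRingEnd ℂ) X) := fun X => by
      rw [Complex.add_conj]
      push_cast
      ring
    rw [e2]
    have q : (starRingEnd ℂ) (ee (2 * t)) = ee (-2 * t) := by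
      rw [← ee_neg]
      congr 1
      ring
    simp only [map_mul, map_neg, Complex.conj_ofReal, Complex.conj_conj, q, Complex.conj_ofNat]
    push_cast
    ring
  rw [hw]
  ring

theorem fc_al0 (c : ZC) (A : ℝ) (B : ℂ) (n : ℤ) :
    fc ((PI c A B).al (b0I A B)) n = cq (aL (A : ℂ) B ((starRingEnd ℂ) B)) n := by
  rw [al_eq, fc_tq]

theorem fc_al_far (c : ZC) (A : ℝ) (B : ℂ) (j : ℤ) (hj : 6 < |j|) :
    fc ((PI c A B).al (b0I A B)) (2 * j) = 0 := by
  rw [fc_al0]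
  refine cq_zero _ 12 ?_ _ ?_
  · intro x hx
    simp only [aL, baseL, shq, List.map_cons, List.map_nil, List.mem_append, List.mem_cons, List.not_mem_nil,
      or_false] at hx
    rcases hx with hx | hx | hx <;> rcases hx with h | h | h | h | h | h | h | h | h <;> rw [h] <;> norm_num
  · rw [abs_mul]
    norm_num
    omega

theorem fc_noh2q {α : ℝ → ℂ} {E : ℝ} (h : BM α E) (n : ℤ) :
    fc (noh2 α) n = (if n = 2 ∨ n = -2 then 0 else fc α n) := by
  have b2 : BM (fun t : ℝ => ee (((2 : ℤ) : ℝ) * t)) 1 := BM.eec _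
  have b3 : BM (fun t : ℝ => ee (((-2 : ℤ) : ℝ) * t)) 1 := BM.eec _
  have e : noh2 α = fun t => (α t - fc α 2 * ee (((2 : ℤ) : ℝ) * t)) - fc α (-2) * ee (((-2 : ℤ) : ℝ) * t) := by
    funext t
    unfold noh2
    push_cast
    rfl
  rw [e, fc_sub (h.sub (b2.cmul _)) (b3.cmul _), fc_sub h (b2.cmul _), fc_cmul, fc_cmul,
    Pool.Agent.Helper20.RC.fc_eek, Pool.Agent.Helper20.RC.fc_eek]
  by_cases h2 : n = 2
  · subst h2; simp
  · by_cases h3 : n = -2
    · subst h3; simp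
    · rw [if_neg h2, if_neg h3, if_neg (by tauto)]; ring

theorem fc_dal0 (c : ZC) (A : ℝ) (B : ℂ) (n : ℤ) : fc ((PI c A B).dal (b0I A B)) n =
    if n = 2 ∨ n = -2 then 0 else cq (aL (A : ℂ) B ((starRingEnd ℂ) B)) n := by
  have e : (PI c A B).dal (b0I A B) = noh2 ((PI c A B).al (b0I A B)) := by
    funext t
    show noh2 ((PI c A B).al (b0I A B)) t - 0 = _
    rw [sub_zero]
  obtain ⟨C, hC⟩ := tq_bm (aL (A : ℂ) B ((starRingEnd ℂ) B))
  rw [e, al_eq, fc_noh2q hC, fc_tq]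

/-- `H₀` at the base -/
theorem H0_eq (c : ZC) (A : ℝ) (B : ℂ) (t : ℝ) :
    (((PI c A B).H0 (b0I A B) : ℝ) : ℂ) = evP (uu A t) (vv B t) h0P / 200 := by
  have h1 : fc ((PI c A B).dal (b0I A B)) 0 =
      (((66 * A ^ 2 - 90 * Complex.normSq B + 496 * A ^ 2 * Complex.normSq B) / 400 : ℝ) : ℂ) := by
    rw [fc_dal0, if_neg (by norm_num)]
    push_cast
    rw [← Complex.mul_conj]
    simp only [aL, baseL, shq, List.map_cons, List.map_nil, List.cons_append, List.nil_append, cq_cons, cq_nil]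
    norm_num
    ring
  unfold Par.H0
  rw [h1, Complex.ofReal_re]
  push_cast
  rw [← Complex.mul_conj]
  simp only [h0P, evP_cons, evP_nil, evM_uv, evC]
  have e0 : ee (((0 : ℤ) : ℝ) * t) = 1 := by
    unfold ee; simp
  norm_num [evM]
  simp only [ee_zero]
  ring

theorem lkc (k : ℕ) : (lk k : ℂ) = 2 * (k : ℂ) + 2 := by
  unfold lk
  push_cast
  rfl

/-- the exact part -/
noncomputable def Ce (A : ℝ) (B : ℂ) (H : ℂ) (k : ℕ) : ℂ :=
  2 * H - 1 / 12 * (evP A B (eP (k + 1)) / 25600) / ((lk k : ℂ) ^ 2 - 1)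

theorem row_ok (c : ZC) (A : ℝ) (B : ℂ) (k : ℕ) (hk : k < 5) (t : ℝ) :
    evP (uu A t) (vv B t) (cP k) / dC = Ce A B (Hk ((PI c A B).dal (b0I A B)) k) k * ee (lk k * t) := by
  have hc : ∀ n : ℤ, fc ((PI c A B).dal (b0I A B)) n =
    if n = 2 ∨ n = -2 then 0 else cq (aL (A : ℂ) B ((starRingEnd ℂ) B)) n := fc_dal0 c A B
  interval_cases k
  · have h : Hk ((PI c A B).dal (b0I A B)) 0 = 0 := by
      unfold Hk
      rw [hc, hc, if_pos (by norm_num), if_pos (by norm_num)]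
      simp
    rw [h]
    simp only [Ce, cP, eP, evP_cons, evP_nil, evM_uv, evC, dC, lkc]
    norm_num [evM, lk, Complex.conj_ofNat]
    ring
  all_goals
    unfold Hk
    rw [hc, hc, if_neg (by norm_num), if_neg (by norm_num)]
    simp only [aL, baseL, shq, List.map_cons, List.map_nil, List.cons_append, List.nil_append, cq_cons, cq_nil]
    simp only [Ce, cP, eP, evP_cons, evP_nil, evM_uv, evC, dC, lkc]
    norm_num [evM, lk, Complex.conj_ofNat]
    ring

/-- (C) -/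
theorem hStC0 : StC := by
  intro c A B δ _ hE
  refine ⟨fun k hk t => ?_, fun t => H0_eq c A B t, fun j hj => fc_al_far c A B j hj⟩
  have h1 := hE.el k hk
  have hl := lk_ge k
  have hq : 0 < lk k ^ 2 - 1 := lk_sq k
  rw [row_ok c A B k hk t]
  have e : Cl (PI c A B) (b0I A B) (z0I A B) k t - Ce A B (Hk ((PI c A B).dal (b0I A B)) k) k * ee (lk k * t) =
      -((1 / 12 / (lk k ^ 2 - 1) : ℝ) : ℂ) * ((PI c A B).eA (b0I A B) (z0I A B) k - evP A B (eP (k + 1)) / 25600)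
        * ee (lk k * t) := by
    show (2 * Hk ((PI c A B).dal (b0I A B)) k - (((1 / 12 : ℝ) : ℝ) : ℂ) * (PI c A B).eA (b0I A B) (z0I A B) k
      / ((lk k : ℂ) ^ 2 - 1)) * ee (lk k * t) - _ = _
    unfold Ce
    push_cast
    ring
  rw [e, norm_mul, norm_mul, norm_neg, norm_ee, mul_one, Complex.norm_real, Real.norm_eq_abs,
    abs_of_nonneg (by positivity)]
  exact mul_le_mul_of_nonneg_left h1 (by positivity)

end Pool.Agent.Helper19.SH

namespace Pool.Agent.Helper33.GM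

theorem hStC : StC := Pool.Agent.Helper19.SH.hStC0

end Pool.Agent.Helper33.GM
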